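import Pool.Agent.Work.RaagDehn.Sigma

/-!
# The area lower bound
-/

set_option autoImplicit false

namespace Pool.Agent.RaagDehn

section Area

variable {G : Type} [Group G]

/-- functions on the group -/
abbrev FnM (G : Type) : Type := G → Multiplicative ℤ

/-- translation action on functions -/
def trA : G →* MulAut (FnM G) where
  toFun g :=
    { toFun := fun n x => n (x * g)
      invFun := fun n x => n (x * g⁻¹)
      left_inv := fun n => by funext x; simp
      right_inv := fun n => by funext x; simp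
      map_mul' := fun _ _ => rfl }
  map_one' := by
    ext n x
    simp
  map_mul' g h := by
    ext n x
    simp [mul_assoc]

theorem trA_apply (g : G) (n : FnM G) (x : G) : trA g n x = n (x * g) := rfl

/-- the group -/
abbrev WrG (G : Type) [Group G] : Type := SemidirectProduct (FnM G) G trA

/-- bounded translations -/
def Bdd (k : ℤ) (a : WrG G) : Prop :=
  ∃ n : FnM G, a = SemidirectProduct.inl n ∧ ∀ x, |Multiplicative.toAdd (n x)| ≤ k

theorem Bdd.one : Bdd 0 (1 : WrG G) := ⟨1, by simp, by simp⟩

theorem Bdd.mul {k l : ℤ} {a b : WrG G} (ha : Bdd k a) (hb : Bdd l b) : Bdd (k + l) (a * b) := by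
  obtain ⟨n, rfl, hn⟩ := ha
  obtain ⟨m, rfl, hm⟩ := hb
  refine ⟨n * m, by simp, fun x => ?_⟩
  rw [Pi.mul_apply, toAdd_mul]
  exact (abs_add_le _ _).trans (add_le_add (hn x) (hm x))

theorem Bdd.inv {k : ℤ} {a : WrG G} (ha : Bdd k a) : Bdd k a⁻¹ := by
  obtain ⟨n, rfl, hn⟩ := ha
  refine ⟨n⁻¹, by simp, fun x => ?_⟩
  rw [Pi.inv_apply, toAdd_inv, abs_neg]
  exact hn x

theorem Bdd.conj {k : ℤ} {a : WrG G} (ha : Bdd k a) (b : WrG G) : Bdd k (b * a * b⁻¹) := by
  obtain ⟨n, rfl, hn⟩ := ha
  refine ⟨trA b.right n, ?_, fun x => hn _⟩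
  apply SemidirectProduct.ext
  · rw [SemidirectProduct.mul_left, SemidirectProduct.mul_left, SemidirectProduct.mul_right,
      SemidirectProduct.inv_left, SemidirectProduct.left_inl, SemidirectProduct.left_inl,
      SemidirectProduct.right_inl, mul_one, ← MulAut.mul_apply, ← map_mul, mul_inv_cancel,
      map_one, MulAut.one_apply]
    rw [mul_comm b.left, mul_assoc, mul_inv_cancel, mul_one]
  · simp

theorem Bdd.list {l : List (WrG G)} (h : ∀ a ∈ l, Bdd 1 a) : Bdd l.length l.prod := by
  induction l with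
  | nil => exact Bdd.one
  | cons a l ih =>
    rw [List.prod_cons, List.length_cons]
    have h1 := (h a (by simp)).mul (ih fun b hb => h b (by simp [hb]))
    have e : ((l.length + 1 : ℕ) : ℤ) = 1 + l.length := by push_cast; ring
    rw [e]
    exact h1

variable {α : Type} {rels : Set (FreeGroup α)} (D : Set (FreeGroup α))
  (f : PresentedGroup rels → ℤ)

/-- the hom of the free group -/
def arH : FreeGroup (α ⊕ Unit) →* WrG (PresentedGroup rels) :=
  FreeGroup.lift (fun x => Sum.elim
    (fun a => (SemidirectProduct.inr (PresentedGroup.of a) : WrG (PresentedGroup rels)))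
    (fun _ => (SemidirectProduct.inl (fun x => Multiplicative.ofAdd (f x)) :
      WrG (PresentedGroup rels))) x)

theorem arH_inl (w : FreeGroup α) : arH f (wInl α Unit w) =
    SemidirectProduct.inr (PresentedGroup.mk rels w) := by
  have h : (arH f).comp (wInl α Unit) =
      (SemidirectProduct.inr : _ →* WrG (PresentedGroup rels)).comp (PresentedGroup.mk rels) := by
    apply FreeGroup.ext_hom
    intro a
    simp [arH, wInl]
    rfl
  exact DFunLike.congr_fun h w

theorem arH_t : arH f (FreeGroup.of (Sum.inr ())) =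
    SemidirectProduct.inl (fun x => Multiplicative.ofAdd (f x)) := by
  simp [arH]

theorem arH_comm (w : FreeGroup α) : arH f (FreeGroup.of (Sum.inr ()) * wInl α Unit w *
    (FreeGroup.of (Sum.inr ()))⁻¹ * (wInl α Unit w)⁻¹) =
    SemidirectProduct.inl (fun x => Multiplicative.ofAdd
      (f x - f (x * PresentedGroup.mk rels w))) := by
  rw [_root_.map_mul, _root_.map_mul, _root_.map_mul, _root_.map_inv, _root_.map_inv, arH_inl,
    arH_t]
  apply SemidirectProduct.ext
  · simp only [SemidirectProduct.mul_left, SemidirectProduct.mul_right,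
      SemidirectProduct.left_inl, SemidirectProduct.right_inl, SemidirectProduct.left_inr,
      SemidirectProduct.right_inr, SemidirectProduct.inv_left, SemidirectProduct.inv_right,
      map_one, mul_one, one_mul, inv_one, MulAut.one_apply]
    funext x
    rw [Pi.mul_apply, trA_apply, Pi.inv_apply]
    rfl
  · simp

theorem area_bound (hf : ∀ d ∈ D, ∀ x, |f x - f (x * PresentedGroup.mk rels d)| ≤ 1)
    (h1 : f 1 = 0) (w : FreeGroup α)
    (l : List (FreeGroup (α ⊕ Unit) × FreeGroup (α ⊕ Unit)))
    (hl : ∀ p ∈ l, p.2 ∈ extRels rels (fun _ : Unit => (fun d => (d, d)) '' D) ∨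
      p.2⁻¹ ∈ extRels rels (fun _ : Unit => (fun d => (d, d)) '' D))
    (hw : FreeGroup.of (Sum.inr ()) * wInl α Unit w *
    (FreeGroup.of (Sum.inr ()))⁻¹ * (wInl α Unit w)⁻¹ =
      (l.map (fun p => p.1 * p.2 * p.1⁻¹)).prod) :
    f (PresentedGroup.mk rels w) ≤ l.length := by
  have hb : ∀ r ∈ extRels rels (fun _ : Unit => (fun d => (d, d)) '' D), Bdd 1 (arH f r) := by
    rintro r (⟨r, hr, rfl⟩ | ⟨_, _, ⟨d, hd, rfl⟩, rfl⟩)
    · rw [arH_inl, PresentedGroup.one_of_mem hr, _root_.map_one]
      exact ⟨1, by simp, by simp⟩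
    · rw [arH_comm]
      exact ⟨_, rfl, hf d hd⟩
  have hb2 : ∀ p ∈ l, Bdd 1 (arH f p.2) := by
    intro p hp
    rcases hl p hp with h | h
    · exact hb _ h
    · have h2 := (hb _ h).inv
      rw [_root_.map_inv, inv_inv] at h2
      exact h2
  have h3 := Bdd.list (l := (l.map (fun p => p.1 * p.2 * p.1⁻¹)).map (arH f)) (by
    intro a ha
    rw [List.map_map, List.mem_map] at ha
    obtain ⟨p, hp, rfl⟩ := ha
    rw [Function.comp_apply, _root_.map_mul, _root_.map_mul, _root_.map_inv]
    exact (hb2 p hp).conj _)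
  rw [← map_list_prod, ← hw, arH_comm, List.length_map, List.length_map] at h3
  obtain ⟨n, hn, hn2⟩ := h3
  have h4 := SemidirectProduct.inl_injective hn
  have h5 := hn2 1
  rw [← h4, toAdd_ofAdd, one_mul, h1, zero_sub, abs_neg] at h5
  exact (le_abs_self _).trans h5

end Area

end Pool.Agent.RaagDehn
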