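import Pool.Agent.Work.RaagDehn.Join

/-!
# The base: a free group of rank 7 in a RAAG with an exponentially growing automorphism
-/

set_option autoImplicit false

namespace Pool.Agent.RaagDehn

/-- indices of the basis of the free group of rank seven -/
inductive I7 : Type
  | p | q | w0 | w1 | w2 | v0 | v1

instance : Finite I7 := by
  refine Finite.of_surjective (fun n : Fin 7 => match n with
    | 0 => I7.p | 1 => I7.q | 2 => I7.w0 | 3 => I7.w1 | 4 => I7.w2 | 5 => I7.v0 | 6 => I7.v1) ?_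
  intro x
  cases x
  · exact ⟨0, rfl⟩
  · exact ⟨1, rfl⟩
  · exact ⟨2, rfl⟩
  · exact ⟨3, rfl⟩
  · exact ⟨4, rfl⟩
  · exact ⟨5, rfl⟩
  · exact ⟨6, rfl⟩

section Words

variable {G : Type} [Group G] (c : I7 → G)

/-- the images of the generators under the automorphism, as words in any group -/
def psiW : I7 → G
  | I7.p => c I7.p
  | I7.q => (c I7.p)⁻¹ * c I7.q * c I7.p
  | I7.w0 => c I7.w1
  | I7.w1 => c I7.w2
  | I7.w2 => ((c I7.p)⁻¹ * (c I7.p)⁻¹ * c I7.q * c I7.p * c I7.p)⁻¹ * (c I7.v1)⁻¹ *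
      ((c I7.p)⁻¹ * c I7.q * c I7.p) * c I7.w2 * (c I7.w1)⁻¹ * (c I7.w0)⁻¹ * c I7.v0 *
      c I7.w1 * c I7.w2
  | I7.v0 => c I7.v1
  | I7.v1 => (c I7.w1)⁻¹ * (c I7.q)⁻¹ * c I7.v0 * ((c I7.p)⁻¹ * c I7.q * c I7.p) * c I7.w2

/-- the inverse automorphism -/
def psiInvW : I7 → G
  | I7.p => c I7.p
  | I7.q => c I7.p * c I7.q * (c I7.p)⁻¹
  | I7.w1 => c I7.w0
  | I7.w2 => c I7.w1
  | I7.v1 => c I7.v0
  | I7.v0 => (c I7.p * c I7.q * (c I7.p)⁻¹) * c I7.w0 * c I7.v1 * (c I7.w1)⁻¹ * (c I7.q)⁻¹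
  | I7.w0 => (c I7.w0 * (c I7.w1)⁻¹ * (c I7.q)⁻¹ * c I7.v0 * ((c I7.p)⁻¹ * c I7.q * c I7.p) *
      c I7.w2 * (c I7.w1)⁻¹ * (c I7.w0)⁻¹ *
      ((c I7.p * c I7.q * (c I7.p)⁻¹) * c I7.w0 * c I7.v1 * (c I7.w1)⁻¹ * (c I7.q)⁻¹)⁻¹)⁻¹

end Words

/-- the automorphism as a hom -/
def psiHom : FreeGroup I7 →* FreeGroup I7 := FreeGroup.lift (psiW FreeGroup.of)

/-- the inverse -/
def psiInvHom : FreeGroup I7 →* FreeGroup I7 := FreeGroup.lift (psiInvW FreeGroup.of)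

theorem psiHom_psiInv : psiHom.comp psiInvHom = MonoidHom.id _ := by
  apply FreeGroup.ext_hom
  intro a
  cases a <;>
    simp only [psiHom, psiInvHom, MonoidHom.comp_apply, FreeGroup.lift_apply_of, psiInvW, psiW,
      _root_.map_mul, _root_.map_inv, MonoidHom.id_apply] <;> group

theorem psiInv_psiHom : psiInvHom.comp psiHom = MonoidHom.id _ := by
  apply FreeGroup.ext_hom
  intro a
  cases a <;>
    simp only [psiHom, psiInvHom, MonoidHom.comp_apply, FreeGroup.lift_apply_of, psiInvW, psiW,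
      _root_.map_mul, _root_.map_inv, MonoidHom.id_apply] <;> group

/-- the automorphism -/
def psi : MulAut (FreeGroup I7) :=
  MonoidHom.toMulEquiv psiHom psiInvHom psiInv_psiHom psiHom_psiInv

theorem psi_of (a : I7) : psi (FreeGroup.of a) = psiW FreeGroup.of a := by
  show psiHom (FreeGroup.of a) = _
  exact FreeGroup.lift_apply_of

theorem lift_psiW {G : Type} [Group G] (c : I7 → G) (a : I7) :
    FreeGroup.lift c (psiW FreeGroup.of a) = psiW c a := by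
  cases a <;> simp [psiW]

/-! ### Growth -/

/-- the weights -/
def eps7 : I7 → ℤ
  | I7.p => 0
  | I7.q => 0
  | I7.w0 => 2
  | I7.w1 => 2
  | I7.w2 => 3
  | I7.v0 => 1
  | I7.v1 => 1

/-- the Padovan-type sequence -/
def vseq : ℕ → ℤ
  | 0 => 1
  | 1 => 1
  | 2 => 2
  | (n + 3) => vseq (n + 1) + vseq n

theorem vseq_add (n : ℕ) : vseq (n + 3) = vseq (n + 1) + vseq n := by
  rw [vseq]

theorem vseq_pos_mono (n : ℕ) : 0 < vseq n ∧ vseq n ≤ vseq (n + 1) ∧ 0 < vseq (n + 1) ∧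
    vseq (n + 1) ≤ vseq (n + 2) ∧ 0 < vseq (n + 2) ∧ vseq (n + 2) ≤ vseq (n + 3) := by
  induction n with
  | zero => simp [vseq]
  | succ n ih =>
    obtain ⟨h1, h2, h3, h4, h5, h6⟩ := ih
    refine ⟨h3, h4, h5, h6, by linarith, ?_⟩
    have h7 := vseq_add n
    have h8 := vseq_add (n + 1)
    have e1 : n + 1 + 3 = n + 4 := rfl
    have e2 : n + 1 + 2 = n + 3 := rfl
    have e3 : n + 1 + 1 = n + 2 := rfl
    rw [e1, e3] at h8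
    rw [e1, e2]
    linarith

theorem vseq_three (k : ℕ) : (2 : ℤ) ^ k ≤ vseq (3 * k) := by
  induction k with
  | zero => simp [vseq]
  | succ k ih =>
    have h := vseq_pos_mono (3 * k)
    have h2 : vseq (3 * (k + 1)) = vseq (3 * k + 1) + vseq (3 * k) := vseq_add _
    rw [h2, pow_succ]
    linarith [h.2.1]

/-- the weight hom -/
def epsHom {I : Type} (e : I → ℤ) : FreeGroup I →* Multiplicative ℤ :=
  FreeGroup.lift (fun i => Multiplicative.ofAdd (e i))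

/-- the weights after `k` steps -/
def epsK (k : ℕ) : I7 → ℤ
  | I7.p => 0
  | I7.q => 0
  | I7.w0 => vseq (k + 2)
  | I7.w1 => vseq (k + 3)
  | I7.w2 => vseq (k + 4)
  | I7.v0 => vseq k
  | I7.v1 => vseq (k + 1)

theorem epsK_zero : epsK 0 = eps7 := by
  funext i
  cases i <;> simp [epsK, eps7, vseq]

theorem epsHom_psi (k : ℕ) (w : FreeGroup I7) :
    epsHom eps7 ((psi ^ k) w) = epsHom (epsK k) w := by
  induction k generalizing w with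
  | zero => rw [epsK_zero]; rfl
  | succ k ih =>
    have h1 : (psi ^ (k + 1)) w = (psi ^ k) (psi w) := by
      rw [pow_succ]; rfl
    rw [h1, ih]
    have h2 : (epsHom (epsK k)).comp psi.toMonoidHom = epsHom (epsK (k + 1)) := by
      apply FreeGroup.ext_hom
      intro a
      have h3 : ((epsHom (epsK k)).comp psi.toMonoidHom) (FreeGroup.of a) =
        psiW (fun i => Multiplicative.ofAdd (epsK k i)) a := by
        show epsHom (epsK k) (psi (FreeGroup.of a)) = _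
        rw [psi_of, epsHom, lift_psiW]
      rw [h3, epsHom, FreeGroup.lift_apply_of]
      apply Multiplicative.toAdd.injective
      have e0 := vseq_add k
      have e1 := vseq_add (k + 1)
      have e2 := vseq_add (k + 2)
      have f1 : k + 1 + 1 = k + 2 := rfl
      have f2 : k + 1 + 2 = k + 3 := rfl
      have f3 : k + 1 + 3 = k + 4 := rfl
      have f4 : k + 1 + 4 = k + 5 := rfl
      have f5 : k + 2 + 3 = k + 5 := rfl
      have f6 : k + 2 + 1 = k + 3 := rfl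
      rw [f3, f1] at e1
      rw [f5, f6] at e2
      cases a <;> simp only [psiW, epsK, toAdd_mul, toAdd_inv, toAdd_ofAdd, f1, f2, f3, f4] <;>
        linarith
    exact DFunLike.congr_fun h2 w

theorem eps_growth (k : ℕ) :
    (2 : ℤ) ^ k ≤ Multiplicative.toAdd (epsHom eps7 ((psi ^ (3 * k)) (FreeGroup.of I7.v0))) := by
  rw [epsHom_psi, epsHom, FreeGroup.lift_apply_of, toAdd_ofAdd]
  exact vseq_three k

/-! ### Abstract computation in a group with five elements -/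

section Calc

variable {G : Type} [Group G] (x y z t1 t2 : G)

/-- the basis elements -/
def cW : I7 → G
  | I7.p => t1 * x⁻¹
  | I7.q => y * x⁻¹
  | I7.w0 => z * x⁻¹
  | I7.w1 => x * (z * x⁻¹) * x⁻¹
  | I7.w2 => x * (x * (z * x⁻¹) * x⁻¹) * x⁻¹
  | I7.v0 => t2 * x⁻¹
  | I7.v1 => x * (t2 * x⁻¹) * x⁻¹

theorem cW_conj (h1 : t1 * x = x * t1) (h2 : t1 * y = y * t1)
    (h3 : t2 * (z * z * x) = z * z * x * t2) (h4 : t2 * (y * z) = y * z * t2) (a : I7) :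
    x * cW x y z t1 t2 a * x⁻¹ = psiW (cW x y z t1 t2) a := by
  have hp : x * (t1 * x⁻¹) * x⁻¹ = t1 * x⁻¹ := by
    rw [← mul_assoc, ← h1]; group
  have hpx : (t1 * x⁻¹)⁻¹ * x = x * (t1 * x⁻¹)⁻¹ := by
    have : x * (t1 * x⁻¹) = (t1 * x⁻¹) * x := by
      rw [← mul_assoc, ← h1]; group
    rw [inv_mul_eq_iff_eq_mul, ← mul_assoc, ← this]
    group
  have hq : (t1 * x⁻¹)⁻¹ * (y * x⁻¹) * (t1 * x⁻¹) = x * (y * x⁻¹) * x⁻¹ := by
    have e1 : x⁻¹ * t1 = t1 * x⁻¹ := by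
      rw [inv_mul_eq_iff_eq_mul, ← mul_assoc, ← h1]; group
    calc (t1 * x⁻¹)⁻¹ * (y * x⁻¹) * (t1 * x⁻¹) = x * t1⁻¹ * y * (x⁻¹ * t1) * x⁻¹ := by group
      _ = x * t1⁻¹ * (y * t1) * x⁻¹ * x⁻¹ := by rw [e1]; group
      _ = x * (y * x⁻¹) * x⁻¹ := by rw [← h2]; group
  have hq2 : (t1 * x⁻¹)⁻¹ * (t1 * x⁻¹)⁻¹ * (y * x⁻¹) * (t1 * x⁻¹) * (t1 * x⁻¹) =
      x * (x * (y * x⁻¹) * x⁻¹) * x⁻¹ := by
    have hpx2 : x⁻¹ * (t1 * x⁻¹) = (t1 * x⁻¹) * x⁻¹ := by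
      rw [inv_mul_eq_iff_eq_mul, ← mul_assoc, ← mul_assoc, ← h1]; group
    calc (t1 * x⁻¹)⁻¹ * (t1 * x⁻¹)⁻¹ * (y * x⁻¹) * (t1 * x⁻¹) * (t1 * x⁻¹)
        = (t1 * x⁻¹)⁻¹ * ((t1 * x⁻¹)⁻¹ * (y * x⁻¹) * (t1 * x⁻¹)) * (t1 * x⁻¹) := by group
      _ = ((t1 * x⁻¹)⁻¹ * x) * (y * x⁻¹) * (x⁻¹ * (t1 * x⁻¹)) := by rw [hq]; group
      _ = x * ((t1 * x⁻¹)⁻¹ * (y * x⁻¹) * (t1 * x⁻¹)) * x⁻¹ := by rw [hpx, hpx2]; group
      _ = _ := by rw [hq]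
  cases a
  · exact hp
  · exact hq.symm
  · rfl
  · rfl
  · -- w2
    show x * (x * (x * (z * x⁻¹) * x⁻¹) * x⁻¹) * x⁻¹ =
      ((t1 * x⁻¹)⁻¹ * (t1 * x⁻¹)⁻¹ * (y * x⁻¹) * (t1 * x⁻¹) * (t1 * x⁻¹))⁻¹ *
      (x * (t2 * x⁻¹) * x⁻¹)⁻¹ * ((t1 * x⁻¹)⁻¹ * (y * x⁻¹) * (t1 * x⁻¹)) *
      (x * (x * (z * x⁻¹) * x⁻¹) * x⁻¹) * (x * (z * x⁻¹) * x⁻¹)⁻¹ * (z * x⁻¹)⁻¹ * (t2 * x⁻¹) *
      (x * (z * x⁻¹) * x⁻¹) * (x * (x * (z * x⁻¹) * x⁻¹) * x⁻¹)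
    rw [hq2, hq]
    have e1 : t2 * z * z = z * z * x * t2 * x⁻¹ := by
      rw [← h3]; group
    have e2 : y * z * t2 = t2 * y * z := by rw [← h4]; group
    symm
    calc (x * (x * (y * x⁻¹) * x⁻¹) * x⁻¹)⁻¹ * (x * (t2 * x⁻¹) * x⁻¹)⁻¹ *
      (x * (y * x⁻¹) * x⁻¹) * (x * (x * (z * x⁻¹) * x⁻¹) * x⁻¹) *
      (x * (z * x⁻¹) * x⁻¹)⁻¹ * (z * x⁻¹)⁻¹ * (t2 * x⁻¹) * (x * (z * x⁻¹) * x⁻¹) *
      (x * (x * (z * x⁻¹) * x⁻¹) * x⁻¹)
        = x * x * x * y⁻¹ * t2⁻¹ * y * z * x⁻¹ * z⁻¹ * z⁻¹ * (t2 * z * z) * x⁻¹ * x⁻¹ * x⁻¹ := by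
          simp only [mul_inv_rev, inv_inv, mul_assoc, inv_mul_cancel_left, mul_inv_cancel_left]
      _ = x * x * x * y⁻¹ * t2⁻¹ * (y * z * t2) * x⁻¹ * x⁻¹ * x⁻¹ * x⁻¹ := by
          rw [e1]; group
      _ = x * (x * (x * (z * x⁻¹) * x⁻¹) * x⁻¹) * x⁻¹ := by
          rw [e2]; group
  · rfl
  · -- v1
    show x * (x * (t2 * x⁻¹) * x⁻¹) * x⁻¹ = (x * (z * x⁻¹) * x⁻¹)⁻¹ * (y * x⁻¹)⁻¹ *
      (t2 * x⁻¹) * ((t1 * x⁻¹)⁻¹ * (y * x⁻¹) * (t1 * x⁻¹)) * (x * (x * (z * x⁻¹) * x⁻¹) * x⁻¹)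
    rw [hq]
    symm
    calc (x * (z * x⁻¹) * x⁻¹)⁻¹ * (y * x⁻¹)⁻¹ * (t2 * x⁻¹) * (x * (y * x⁻¹) * x⁻¹) *
        (x * (x * (z * x⁻¹) * x⁻¹) * x⁻¹)
        = x * x * z⁻¹ * y⁻¹ * (t2 * (y * z)) * x⁻¹ * x⁻¹ * x⁻¹ := by
          simp only [mul_inv_rev, inv_inv, mul_assoc, inv_mul_cancel_left, mul_inv_cancel_left]
      _ = x * (x * (t2 * x⁻¹) * x⁻¹) * x⁻¹ := by rw [h4]; group

end Calc

end Pool.Agent.RaagDehn
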