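import Pool.Agent.Work.RaagDehn.Base

/-!
# The base group embeds
-/

set_option autoImplicit false

namespace Pool.Agent.RaagDehn

/-- three letters -/
inductive X3 : Type
  | x | y | z

instance : Finite X3 := by
  refine Finite.of_surjective (fun n : Fin 3 => match n with
    | 0 => X3.x | 1 => X3.y | 2 => X3.z) ?_
  intro x
  cases x
  · exact ⟨0, rfl⟩
  · exact ⟨1, rfl⟩
  · exact ⟨2, rfl⟩

/-- the RAAG without edges on three letters -/
abbrev M3 : Type := Raag (fun _ _ : X3 => False)

/-- free group as presented group -/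
abbrev K3 : Type := PresentedGroup (∅ : Set (FreeGroup X3))

/-- homs out of a presented group without relators -/
def freeLift {α G : Type} [Group G] (f : α → G) : PresentedGroup (∅ : Set (FreeGroup α)) →* G :=
  PresentedGroup.toGroup (f := f) (by intro r hr; exact hr.elim)

theorem freeLift_of {α G : Type} [Group G] (f : α → G) (a : α) :
    freeLift f (PresentedGroup.of a) = f a := PresentedGroup.toGroup.of _

theorem freeLift_mk {α G : Type} [Group G] (f : α → G) (w : FreeGroup α) :
    freeLift f (PresentedGroup.mk ∅ w) = FreeGroup.lift f w := rfl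

/-- word x -/
def lx : FreeGroup X3 := FreeGroup.of X3.x
/-- word y -/
def ly : FreeGroup X3 := FreeGroup.of X3.y
/-- word z -/
def lz : FreeGroup X3 := FreeGroup.of X3.z

/-- pairs of the base extension -/
def pairsL : Bool → Set (FreeGroup X3 × FreeGroup X3)
  | false => {(lx, lx), (ly, ly)}
  | true => {(lz * lz * lx, lz * lz * lx), (ly * lz, ly * lz)}

/-- maps to the factors -/
def phiL : Bool → K3 →* M3
  | false => freeLift (fun a => gen _ a)
  | true => freeLift (fun a => match a with
    | X3.x => (gen _ X3.z)⁻¹ * (gen _ X3.z)⁻¹ * gen _ X3.x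
    | X3.y => gen _ X3.y * (gen _ X3.z)⁻¹
    | X3.z => gen _ X3.z)

/-- their inverses -/
def thetaL : Bool → M3 →* K3
  | false => lift (fun a => PresentedGroup.of a) (fun _ _ h => h.elim)
  | true => lift (fun a => match a with
    | X3.x => PresentedGroup.of X3.z * PresentedGroup.of X3.z * PresentedGroup.of X3.x
    | X3.y => PresentedGroup.of X3.y * PresentedGroup.of X3.z
    | X3.z => PresentedGroup.of X3.z) (fun _ _ h => h.elim)

theorem thetaL_phiL (b : Bool) (g : K3) : thetaL b (phiL b g) = g := by
  have h : (thetaL b).comp (phiL b) = MonoidHom.id _ := by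
    apply PresentedGroup.ext
    intro a
    cases b <;> cases a <;>
      simp only [MonoidHom.comp_apply, phiL, thetaL, freeLift_of, lift_gen, map_mul, map_inv,
        MonoidHom.id_apply] <;> group
  exact DFunLike.congr_fun h g

theorem mem_closure_of_section {V G : Type} [Group G] {adj : V → V → Prop} {φ : G → Raag adj}
    {θ : Raag adj →* G} (h : ∀ g, θ (φ g) = g) {S : Set V} {g : G}
    (hg : φ g ∈ parab adj S) : g ∈ Subgroup.closure ((fun v => θ (gen adj v)) '' S) := by
  have h1 : parab adj S ≤ (Subgroup.closure ((fun v => θ (gen adj v)) '' S)).comap θ := by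
    apply parab_le
    intro v hv
    exact Subgroup.subset_closure ⟨v, hv, rfl⟩
  have h2 := h1 hg
  rw [Subgroup.mem_comap, h] at h2
  exact h2

/-- adjacency of the first RAAG -/
abbrev adjL0 : (Σ _ : Bool, X3) → (Σ _ : Bool, X3) → Prop :=
  JAdj (fun _ : Bool => (fun _ _ : X3 => False))

/-- first embedding -/
noncomputable def kapL : K3 →* Raag adjL0 := jHom (fun _ : Bool => (fun _ _ : X3 => False)) phiL

/-- the subset for `b` -/
def SL (b k : Bool) : Set X3 := {v | k = b → v ≠ X3.z}

/-- the parabolic -/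
def TL (b : Bool) : Set (Σ _ : Bool, X3) := jSet (SL b)

theorem kapL_mem (b : Bool) (g : K3) : kapL g ∈ parab adjL0 (TL b) ↔
    phiL b g ∈ parab (fun _ _ : X3 => False) (SL b b) := by
  unfold kapL TL
  rw [jHom_mem_parab]
  constructor
  · intro h; exact h b
  · intro h k
    by_cases hk : k = b
    · subst hk; exact h
    · have : SL b k = Set.univ := by
        ext v
        simp [SL, hk]
      rw [this]
      exact mem_parab_univ _

theorem pairsL_same {b : Bool} {p : FreeGroup X3 × FreeGroup X3} (hp : p ∈ pairsL b) :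
    p.2 = p.1 := by
  cases b <;> rcases hp with rfl | hp <;> first | rfl | (rw [Set.mem_singleton_iff] at hp; subst hp; rfl)

theorem phiL_pairs {b : Bool} {p : FreeGroup X3 × FreeGroup X3} (hp : p ∈ pairsL b) :
    ∃ v ∈ SL b b, phiL b (PresentedGroup.mk ∅ p.1) = gen (fun _ _ : X3 => False) v := by
  cases b with
  | false =>
    rcases hp with rfl | hp
    · exact ⟨X3.x, by simp [SL], by simp [phiL, freeLift_mk, lx]⟩
    · rw [Set.mem_singleton_iff] at hp
      subst hp
      exact ⟨X3.y, by simp [SL], by simp [phiL, freeLift_mk, ly]⟩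
  | true =>
    rcases hp with rfl | hp
    · exact ⟨X3.x, by simp [SL], by simp [phiL, freeLift_mk, lx, lz]; group⟩
    · rw [Set.mem_singleton_iff] at hp
      subst hp
      exact ⟨X3.y, by simp [SL], by simp [phiL, freeLift_mk, ly, lz]⟩

theorem thetaL_pairs {b : Bool} {v : X3} (hv : v ∈ SL b b) :
    ∃ p ∈ pairsL b, PresentedGroup.mk ∅ p.1 = thetaL b (gen (fun _ _ : X3 => False) v) := by
  cases b with
  | false =>
    cases v with
    | x => exact ⟨(lx, lx), Or.inl rfl, by simp [thetaL, lx]; rfl⟩
    | y => exact ⟨(ly, ly), Or.inr rfl, by simp [thetaL, ly]; rfl⟩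
    | z => exact absurd rfl (hv rfl)
  | true =>
    cases v with
    | x => exact ⟨(lz * lz * lx, lz * lz * lx), Or.inl rfl, by simp [thetaL, lx, lz]; rfl⟩
    | y => exact ⟨(ly * lz, ly * lz), Or.inr rfl, by simp [thetaL, ly, lz]; rfl⟩
    | z => exact absurd rfl (hv rfl)

theorem kapL_cl (b : Bool) (g : K3) (hg : kapL g ∈ parab adjL0 (TL b)) :
    g ∈ Subgroup.closure ((fun p => PresentedGroup.mk ∅ (Prod.fst p)) '' pairsL b) := by
  rw [kapL_mem] at hg
  have h := mem_closure_of_section (thetaL_phiL b) hg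
  revert h
  apply SetLike.le_def.1
  rw [Subgroup.closure_le]
  rintro _ ⟨v, hv, rfl⟩
  obtain ⟨p, hp, h⟩ := thetaL_pairs hv
  exact Subgroup.subset_closure ⟨p, hp, h⟩

theorem stepL : StepData adjL0 (∅ : Set (FreeGroup X3)) pairsL kapL TL (fun _ => 1) where
  inj := by
    apply jHom_injective_of (k := false)
    exact Function.LeftInverse.injective (thetaL_phiL false)
  memT := by
    intro b p hp
    rw [kapL_mem]
    obtain ⟨v, hv, h⟩ := phiL_pairs hp
    rw [h]
    exact gen_mem_parab hv
  conj := by
    intro b p hp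
    rw [pairsL_same hp]
    simp
  cl1 := kapL_cl
  cl2 := by
    intro b g hg
    rw [inv_one, one_mul, mul_one] at hg
    have h := kapL_cl b g hg
    revert h
    apply SetLike.le_def.1
    rw [Subgroup.closure_le]
    rintro _ ⟨p, hp, rfl⟩
    refine Subgroup.subset_closure ⟨p, hp, ?_⟩
    show PresentedGroup.mk ∅ p.2 = PresentedGroup.mk ∅ p.1
    rw [pairsL_same hp]

/-- the base group -/
abbrev LGrp : Type := PresentedGroup (extRels (∅ : Set (FreeGroup X3)) pairsL)

/-- its elements -/
def Lx : LGrp := extInl _ _ (PresentedGroup.mk ∅ lx)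
/-- its elements -/
def Ly : LGrp := extInl _ _ (PresentedGroup.mk ∅ ly)
/-- its elements -/
def Lz : LGrp := extInl _ _ (PresentedGroup.mk ∅ lz)
/-- its elements -/
def Lt1 : LGrp := extT _ _ false
/-- its elements -/
def Lt2 : LGrp := extT _ _ true

theorem L_h1 : Lt1 * Lx = Lx * Lt1 := by
  have h := extT_rel (∅ : Set (FreeGroup X3)) pairsL false (p := (lx, lx)) (Or.inl rfl)
  exact h

theorem L_h2 : Lt1 * Ly = Ly * Lt1 := by
  have h := extT_rel (∅ : Set (FreeGroup X3)) pairsL false (p := (ly, ly)) (Or.inr rfl)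
  exact h

theorem L_h3 : Lt2 * (Lz * Lz * Lx) = Lz * Lz * Lx * Lt2 := by
  have h := extT_rel (∅ : Set (FreeGroup X3)) pairsL true
    (p := (lz * lz * lx, lz * lz * lx)) (Or.inl rfl)
  simp only [map_mul] at h
  exact h

theorem L_h4 : Lt2 * (Ly * Lz) = Ly * Lz * Lt2 := by
  have h := extT_rel (∅ : Set (FreeGroup X3)) pairsL true
    (p := (ly * lz, ly * lz)) (Or.inr rfl)
  simp only [map_mul] at h
  exact h

/-- the basis elements -/
def Lc : I7 → LGrp := cW Lx Ly Lz Lt1 Lt2

theorem Lc_conj (a : I7) : Lx * Lc a * Lx⁻¹ = psiW Lc a :=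
  cW_conj _ _ _ _ _ L_h1 L_h2 L_h3 L_h4 a

/-! ### Freeness of the fibre -/

/-- the holomorph -/
abbrev Hol : Type := SemidirectProduct (FreeGroup I7) (MulAut (FreeGroup I7)) (MonoidHom.id _)

/-- element of the holomorph -/
def hh (w : FreeGroup I7) : Hol := ⟨w, psi⟩

theorem hol_ext {a b : Hol} (h1 : a.left = b.left) (h2 : a.right = b.right) : a = b :=
  SemidirectProduct.ext h1 h2

/-- base map to the holomorph -/
def holBase : K3 →* Hol := freeLift (fun a => match a with
    | X3.x => hh 1
    | X3.y => hh (FreeGroup.of I7.q)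
    | X3.z => hh (FreeGroup.of I7.w0))

/-- stable letters -/
def holT : Bool → Hol
  | false => hh (FreeGroup.of I7.p)
  | true => hh (FreeGroup.of I7.v0)

theorem hol_rel (b : Bool) (p : FreeGroup X3 × FreeGroup X3) (hp : p ∈ pairsL b) :
    holT b * holBase (PresentedGroup.mk ∅ p.1) = holBase (PresentedGroup.mk ∅ p.2) * holT b := by
  cases b with
  | false =>
    rcases hp with rfl | hp
    · apply hol_ext
      · simp [holT, holBase, freeLift_mk, lx, hh, psi_of, psiW]
      · simp [holT, holBase, freeLift_mk, lx, hh]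
    · rw [Set.mem_singleton_iff] at hp
      subst hp
      apply hol_ext
      · simp [holT, holBase, freeLift_mk, ly, hh, psi_of, psiW]
        group
      · simp [holT, holBase, freeLift_mk, ly, hh]
  | true =>
    rcases hp with rfl | hp
    · apply hol_ext
      · simp [holT, holBase, freeLift_mk, lx, lz, hh, psi_of, psiW]
        group
      · simp [holT, holBase, freeLift_mk, lx, lz, hh, mul_assoc]
    · rw [Set.mem_singleton_iff] at hp
      subst hp
      apply hol_ext
      · simp [holT, holBase, freeLift_mk, ly, lz, hh, psi_of, psiW]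
        group
      · simp [holT, holBase, freeLift_mk, ly, lz, hh, mul_assoc]

/-- the map to the holomorph -/
def hol : LGrp →* Hol := extLift holBase holT hol_rel

theorem hol_x : hol Lx = hh 1 := by
  rw [hol, Lx, extLift_inl, holBase, freeLift_mk, lx, FreeGroup.lift_apply_of]

theorem hol_y : hol Ly = hh (FreeGroup.of I7.q) := by
  rw [hol, Ly, extLift_inl, holBase, freeLift_mk, ly, FreeGroup.lift_apply_of]

theorem hol_z : hol Lz = hh (FreeGroup.of I7.w0) := by
  rw [hol, Lz, extLift_inl, holBase, freeLift_mk, lz, FreeGroup.lift_apply_of]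

theorem hol_t1 : hol Lt1 = hh (FreeGroup.of I7.p) := extLift_T _ _ _ _

theorem hol_t2 : hol Lt2 = hh (FreeGroup.of I7.v0) := extLift_T _ _ _ _

theorem hh_mul_inv (w : FreeGroup I7) : hh w * (hh 1)⁻¹ = SemidirectProduct.inl w := by
  apply hol_ext
  · simp [hh]
  · simp [hh]

theorem hh_conj (w : FreeGroup I7) :
    hh 1 * SemidirectProduct.inl w * (hh 1)⁻¹ = SemidirectProduct.inl (psi w) := by
  apply hol_ext
  · simp [hh]
  · simp [hh]

theorem hol_Lc (a : I7) : hol (Lc a) = SemidirectProduct.inl (FreeGroup.of a) := by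
  cases a
  · show hol (Lt1 * Lx⁻¹) = _
    rw [map_mul, map_inv, hol_x, hol_t1, hh_mul_inv]
  · show hol (Ly * Lx⁻¹) = _
    rw [map_mul, map_inv, hol_x, hol_y, hh_mul_inv]
  · show hol (Lz * Lx⁻¹) = _
    rw [map_mul, map_inv, hol_x, hol_z, hh_mul_inv]
  · show hol (Lx * (Lz * Lx⁻¹) * Lx⁻¹) = _
    simp only [map_mul, map_inv, hol_x, hol_z, hh_mul_inv, hh_conj, psi_of, psiW]
  · show hol (Lx * (Lx * (Lz * Lx⁻¹) * Lx⁻¹) * Lx⁻¹) = _
    simp only [map_mul, map_inv, hol_x, hol_z, hh_mul_inv, hh_conj, psi_of, psiW]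
  · show hol (Lt2 * Lx⁻¹) = _
    rw [map_mul, map_inv, hol_x, hol_t2, hh_mul_inv]
  · show hol (Lx * (Lt2 * Lx⁻¹) * Lx⁻¹) = _
    simp only [map_mul, map_inv, hol_x, hol_t2, hh_mul_inv, hh_conj, psi_of, psiW]

theorem Lc_injective : Function.Injective (FreeGroup.lift Lc) := by
  have h : ∀ w, hol (FreeGroup.lift Lc w) = SemidirectProduct.inl w := by
    intro w
    have h1 : hol.comp (FreeGroup.lift Lc) = SemidirectProduct.inl := by
      apply FreeGroup.ext_hom
      intro a
      rw [MonoidHom.comp_apply, FreeGroup.lift_apply_of, hol_Lc]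
    exact DFunLike.congr_fun h1 w
  intro a b hab
  have h2 : (SemidirectProduct.inl a : Hol) = SemidirectProduct.inl b := by
    rw [← h, ← h, hab]
  exact SemidirectProduct.inl_injective h2

/-! ### The data used later -/

/-- A free subgroup of a RAAG normalised by an element, with weights. -/
structure BaseData {VA : Type} (adjA : VA → VA → Prop) (I : Type) where
  /-- basis -/
  c : I → Raag adjA
  inj : Function.Injective (FreeGroup.lift c)
  /-- the conjugating element -/
  s : Raag adjA
  /-- the automorphism -/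
  aut : MulAut (FreeGroup I)
  conj : ∀ a, s * c a * s⁻¹ = FreeGroup.lift c (aut (FreeGroup.of a))
  /-- weights -/
  eps : I → ℤ
  /-- distinguished generator -/
  v : I
  growth : ∀ k : ℕ, (2 : ℤ) ^ k ≤
    Multiplicative.toAdd (epsHom eps ((aut ^ (3 * k)) (FreeGroup.of v)))

/-- vertices of the base RAAG -/
abbrev VBase : Type := (Σ _ : Bool, X3) ⊕ Bool

/-- adjacency of the base RAAG -/
abbrev adjBase : VBase → VBase → Prop := extAdj adjL0 TL

theorem lift_comp_emb {G H I : Type} [Group G] [Group H] (f : G →* H) (c : I → G)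
    (w : FreeGroup I) : FreeGroup.lift (fun a => f (c a)) w = f (FreeGroup.lift c w) := by
  have h : FreeGroup.lift (fun a => f (c a)) = f.comp (FreeGroup.lift c) := by
    apply FreeGroup.ext_hom
    intro a
    simp
  rw [h]
  rfl

/-- the base data -/
noncomputable def baseData : BaseData adjBase I7 where
  c := fun a => stepL.emb (Lc a)
  inj := by
    intro a b hab
    rw [lift_comp_emb, lift_comp_emb] at hab
    exact Lc_injective (stepL.emb_injective hab)
  s := stepL.emb Lx
  aut := psi
  conj := by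
    intro a
    rw [lift_comp_emb, ← map_inv, ← map_mul, ← map_mul, Lc_conj, psi_of, lift_psiW]
  eps := eps7
  v := I7.v0
  growth := eps_growth

end Pool.Agent.RaagDehn
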