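import Pool.Agent.Work.RaagDehn.Fam

/-!
# The two further extension steps
-/

set_option autoImplicit false

namespace Pool.Agent.RaagDehn

section AutStep

variable {V I α : Type} {adj : V → V → Prop} {rels : Set (FreeGroup α)}

/-- pairs for the extension by an automorphism of a free subgroup -/
def autPairs (secW : FreeGroup I →* FreeGroup α) (aut : MulAut (FreeGroup I)) (_ : Unit) :
    Set (FreeGroup α × FreeGroup α) :=
  Set.range (fun l : I => (secW (FreeGroup.of l), secW (aut (FreeGroup.of l))))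

theorem autStep (κ : PresentedGroup rels →* Raag adj) (hκ : Function.Injective κ)
    (secW : FreeGroup I →* FreeGroup α) (aut : MulAut (FreeGroup I)) (T : Set V) (z : Raag adj)
    (hz : z ∈ parab adj T) (hmem : ∀ w, κ (PresentedGroup.mk rels (secW w)) ∈ parab adj T)
    (hconj : ∀ l, κ (PresentedGroup.mk rels (secW (aut (FreeGroup.of l)))) =
      z * κ (PresentedGroup.mk rels (secW (FreeGroup.of l))) * z⁻¹)
    (hcl : ∀ g, κ g ∈ parab adj T → ∃ w, PresentedGroup.mk rels (secW w) = g) :
    StepData adj rels (autPairs secW aut) κ (fun _ => T) (fun _ => z) where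
  inj := hκ
  memT := by
    rintro _ _ ⟨l, rfl⟩
    exact hmem _
  conj := by
    rintro _ _ ⟨l, rfl⟩
    exact hconj l
  cl1 := by
    intro _ g hg
    obtain ⟨w, rfl⟩ := hcl g hg
    have h : (PresentedGroup.mk rels).comp secW w ∈
        ((PresentedGroup.mk rels).comp secW).range := ⟨w, rfl⟩
    rw [← closure_range_comp] at h
    refine closure_mono' ?_ h
    rintro _ ⟨l, rfl⟩
    exact Subgroup.subset_closure ⟨_, ⟨l, rfl⟩, rfl⟩
  cl2 := by
    intro _ g hg
    have hg' : κ g ∈ parab adj T := by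
      have h1 : κ g = z * (z⁻¹ * κ g * z) * z⁻¹ := by group
      rw [h1]
      exact mul_mem (mul_mem hz hg) (inv_mem hz)
    obtain ⟨w, rfl⟩ := hcl g hg'
    have h : (PresentedGroup.mk rels).comp secW w ∈
        (((PresentedGroup.mk rels).comp secW).comp aut.toMonoidHom).range :=
      ⟨aut.symm w, by simp⟩
    rw [← closure_range_comp] at h
    refine closure_mono' ?_ h
    rintro _ ⟨l, rfl⟩
    exact Subgroup.subset_closure ⟨_, ⟨l, rfl⟩, rfl⟩

end AutStep

section CentStep

variable {V1 VA α β : Type} {adj1 : V1 → V1 → Prop} {adjA : VA → VA → Prop}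
  {rels : Set (FreeGroup α)} {pairs : β → Set (FreeGroup α × FreeGroup α)}
  {κ : PresentedGroup rels →* Raag adj1} {T : β → Set V1} {z : β → Raag adj1}

/-- vertex types of the two factors -/
abbrev cW2 (V1 β VA : Type) : Bool → Type
  | true => V1 ⊕ β
  | false => VA

/-- adjacency of the two factors -/
abbrev cAdj (adj1 : V1 → V1 → Prop) (T : β → Set V1) (adjA : VA → VA → Prop) :
    ∀ b, cW2 V1 β VA b → cW2 V1 β VA b → Prop
  | true => extAdj adj1 T
  | false => adjA

/-- the two homs -/
def cPhi (S : StepData adj1 rels pairs κ T z)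
    (ρ : PresentedGroup (extRels rels pairs) →* Raag adjA) :
    ∀ b, PresentedGroup (extRels rels pairs) →* Raag (cAdj adj1 T adjA b)
  | true => S.emb
  | false => ρ

/-- the vertex sets -/
def cS (V1 β VA : Type) : ∀ b, Set (cW2 V1 β VA b)
  | true => Sum.inl '' (Set.univ : Set V1)
  | false => ∅

/-- pairs for the centralising extension -/
def centPairs (α β : Type) (D : Set (FreeGroup α)) (_ : Unit) :
    Set (FreeGroup (α ⊕ β) × FreeGroup (α ⊕ β)) :=
  (fun d => (wInl α β d, wInl α β d)) '' D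

/-- the map to the product -/
noncomputable def cK (S : StepData adj1 rels pairs κ T z)
    (ρ : PresentedGroup (extRels rels pairs) →* Raag adjA) :
    PresentedGroup (extRels rels pairs) →* Raag (JAdj (cAdj adj1 T adjA)) :=
  jHom (cAdj adj1 T adjA) (cPhi S ρ)

theorem cK_mem (S : StepData adj1 rels pairs κ T z)
    (ρ : PresentedGroup (extRels rels pairs) →* Raag adjA)
    (g : PresentedGroup (extRels rels pairs)) :
    cK S ρ g ∈ parab (JAdj (cAdj adj1 T adjA)) (jSet (cS V1 β VA)) ↔
    (∃ g0, extInl rels pairs g0 = g) ∧ ρ g = 1 := by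
  unfold cK
  rw [jHom_mem_parab]
  constructor
  · intro h
    refine ⟨?_, mem_parab_empty (h false)⟩
    obtain ⟨y, _, hy⟩ := parab_inl_image (h true)
    obtain ⟨g0, h0, _⟩ := S.emb_range hy.symm
    exact ⟨g0, h0⟩
  · rintro ⟨⟨g0, rfl⟩, h2⟩ b
    cases b with
    | true =>
      show S.emb _ ∈ _
      rw [S.emb_inl]
      exact incl_mem_parab (mem_parab_univ _)
    | false =>
      show ρ _ ∈ _
      rw [h2]
      exact one_mem _

theorem centStep (S : StepData adj1 rels pairs κ T z)
    (ρ : PresentedGroup (extRels rels pairs) →* Raag adjA) (D : Set (FreeGroup α))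
    (hD1 : ∀ d ∈ D, ρ (extInl rels pairs (PresentedGroup.mk rels d)) = 1)
    (hD2 : ∀ g, ρ (extInl rels pairs g) = 1 →
      g ∈ Subgroup.closure (PresentedGroup.mk rels '' D)) :
    StepData (JAdj (cAdj adj1 T adjA)) (extRels rels pairs) (centPairs α β D)
      (cK S ρ) (fun _ => jSet (cS V1 β VA)) (fun _ => 1) := by
  have key : ∀ g, cK S ρ g ∈ parab (JAdj (cAdj adj1 T adjA)) (jSet (cS V1 β VA)) →
      g ∈ Subgroup.closure
        ((fun d => PresentedGroup.mk (extRels rels pairs) (wInl α β d)) '' D) := by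
    intro g hg
    rw [cK_mem] at hg
    obtain ⟨⟨g0, rfl⟩, h2⟩ := hg
    have h3 := hD2 g0 h2
    have h4 : extInl rels pairs g0 ∈
        (Subgroup.closure (PresentedGroup.mk rels '' D)).map (extInl rels pairs) := ⟨g0, h3, rfl⟩
    rw [MonoidHom.map_closure] at h4
    refine closure_mono' ?_ h4
    rintro _ ⟨_, ⟨d, hd, rfl⟩, rfl⟩
    exact Subgroup.subset_closure ⟨d, hd, (extInl_mk _ _ d).symm⟩
  refine ⟨?_, ?_, ?_, ?_, ?_⟩
  · apply jHom_injective_of (k := true)
    exact S.emb_injective
  · rintro _ _ ⟨d, hd, rfl⟩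
    rw [cK_mem]
    refine ⟨⟨PresentedGroup.mk rels d, extInl_mk _ _ d⟩, ?_⟩
    show ρ (PresentedGroup.mk _ (wInl α β d)) = 1
    rw [← extInl_mk]
    exact hD1 d hd
  · rintro _ _ ⟨d, hd, rfl⟩
    simp
  · intro _ g hg
    refine closure_mono' ?_ (key g hg)
    rintro _ ⟨d, hd, rfl⟩
    exact Subgroup.subset_closure ⟨_, ⟨d, hd, rfl⟩, rfl⟩
  · intro _ g hg
    rw [inv_one, one_mul, mul_one] at hg
    refine closure_mono' ?_ (key g hg)
    rintro _ ⟨d, hd, rfl⟩
    exact Subgroup.subset_closure ⟨_, ⟨d, hd, rfl⟩, rfl⟩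

end CentStep

end Pool.Agent.RaagDehn
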