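import Pool.Agent.Work.RaagDehn.Level2

/-!
# The subgroup D of the level two group: generation, normality, homs
-/

set_option autoImplicit false

namespace Pool.Agent.RaagDehn

section Dsub

variable {I : Type} (xz : I → Bool → ℤ → ℤ × ℤ)

/-- relators of the level two group -/
def relsG1 : Set (FreeGroup (Sym I ⊕ RIdx I)) :=
  extRels (∅ : Set (FreeGroup (Sym I))) (famPairs (srcW xz) (tgtW xz))

/-- the level two group -/
abbrev G1 : Type := PresentedGroup (relsG1 xz)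

/-- base map -/
def bG1 : PresentedGroup (∅ : Set (FreeGroup (Sym I))) →* G1 xz :=
  extInl (∅ : Set (FreeGroup (Sym I))) (famPairs (srcW xz) (tgtW xz))

/-- element -/
noncomputable def el (x : LT I) (n : ℤ) : G1 xz := bG1 xz (PresentedGroup.mk ∅ (sy x n))

/-- stable letter -/
def tt (r : RIdx I) : G1 xz := extT (∅ : Set (FreeGroup (Sym I))) (famPairs (srcW xz) (tgtW xz)) r

theorem bG1_res (w : FZ I) : bG1 xz (PresentedGroup.mk ∅ (res w)) = bigHom (el xz) w := by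
  have h : ((bG1 xz).comp (PresentedGroup.mk ∅)).comp res = bigHom (el xz) := by
    apply FreeGroup.ext_hom
    rintro ⟨x, n⟩
    show bG1 xz (PresentedGroup.mk ∅ (res (bz x n))) = bigHom (el xz) (bz x n)
    rw [res_bz, bigHom_bz]
    rfl
  exact DFunLike.congr_fun h w

theorem tt_rel (r : RIdx I) (o : Option I) :
    tt xz r * bigHom (el xz) (bword xz r o) =
      bigHom (el xz) (shf (epq r.q) (bword xz r o)) * tt xz r := by
  have h := extT_rel (∅ : Set (FreeGroup (Sym I))) (famPairs (srcW xz) (tgtW xz)) r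
    (p := (srcW xz r o, tgtW xz r o)) ⟨o, rfl⟩
  rw [← bG1_res, ← bG1_res]
  exact h

theorem tt_relE (j : I) (s f : Bool) (l : I) (q : Q5) (χ : Bool) :
    tt xz (Sum.inl (j, s, f, l, q, χ)) * (el xz (LT.c j) 0 ^ sg s *
      el xz (LT.c l) q.1 ^ dl q.1 χ * el xz (LT.e f l) q.1 * el xz (LT.c j) 0 ^ (-sg s)) =
    (el xz (LT.c j) (0 + epq q.1) ^ sg s * el xz (LT.c l) (q.1 + epq q.1) ^ dl q.1 χ *
      el xz (LT.e f l) (q.1 + epq q.1) * el xz (LT.c j) (0 + epq q.1) ^ (-sg s)) *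
      tt xz (Sum.inl (j, s, f, l, q, χ)) := by
  have h := tt_rel xz (Sum.inl (j, s, f, l, q, χ)) none
  simp only [bword, _root_.map_mul, map_zpow, shf_bz, bigHom_bz, RIdx.q] at h
  exact h

theorem tt_relEk (j : I) (s f : Bool) (l : I) (q : Q5) (χ : Bool) (k : I) :
    tt xz (Sum.inl (j, s, f, l, q, χ)) * (el xz (LT.c k) 0 * el xz (LT.e (!f) k) (-epq q.1)) =
    (el xz (LT.c k) (0 + epq q.1) * el xz (LT.e (!f) k) (-epq q.1 + epq q.1)) *
      tt xz (Sum.inl (j, s, f, l, q, χ)) := by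
  have h := tt_rel xz (Sum.inl (j, s, f, l, q, χ)) (some k)
  simp only [bword, _root_.map_mul, shf_bz, bigHom_bz, RIdx.q] at h
  exact h

theorem tt_relA (j : I) (s i : Bool) (q : Q5) :
    tt xz (Sum.inr (j, s, i, q)) * (el xz (LT.c j) 0 ^ sg s * el xz (LT.a i) q.1 *
      el xz (LT.c j) 0 ^ (-sg s) * el xz (LT.a (!i)) (pq q.1) ^ (xz j s q.1).1 *
      el xz (LT.a (!i)) (pq q.1 + 1) ^ (xz j s q.1).2) =
    (el xz (LT.c j) (0 + epq q.1) ^ sg s * el xz (LT.a i) (q.1 + epq q.1) *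
      el xz (LT.c j) (0 + epq q.1) ^ (-sg s) *
      el xz (LT.a (!i)) (pq q.1 + epq q.1) ^ (xz j s q.1).1 *
      el xz (LT.a (!i)) (pq q.1 + 1 + epq q.1) ^ (xz j s q.1).2) *
      tt xz (Sum.inr (j, s, i, q)) := by
  have h := tt_rel xz (Sum.inr (j, s, i, q)) none
  simp only [bword, _root_.map_mul, map_zpow, shf_bz, bigHom_bz, RIdx.q] at h
  exact h

theorem tt_relAk (j : I) (s i : Bool) (q : Q5) (k : I) :
    tt xz (Sum.inr (j, s, i, q)) * (el xz (LT.c k) 0 * el xz (LT.e false k) (-epq q.1)) =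
    (el xz (LT.c k) (0 + epq q.1) * el xz (LT.e false k) (-epq q.1 + epq q.1)) *
      tt xz (Sum.inr (j, s, i, q)) := by
  have h := tt_rel xz (Sum.inr (j, s, i, q)) (some k)
  simp only [bword, _root_.map_mul, shf_bz, bigHom_bz, RIdx.q] at h
  exact h

/-- words generating D -/
def Dset (I : Type) : Set (FreeGroup (Sym I ⊕ RIdx I)) :=
  {w | (∃ x q, q ∈ Finset.Icc (-2 : ℤ) 2 ∧ q ≠ 0 ∧ w = wInl (Sym I) (RIdx I) (sy x q)) ∨
    (∃ f l, w = wInl (Sym I) (RIdx I) ((sy (LT.c l) 0)⁻¹ * sy (LT.e f l) 0)) ∨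
    (∃ i, w = wInl (Sym I) (RIdx I) (sy (LT.a i) 0)) ∨
    (∃ r, w = FreeGroup.of (Sum.inr r))}

/-- D -/
def D1 : Subgroup (G1 xz) := Subgroup.closure (PresentedGroup.mk (relsG1 xz) '' Dset I)

theorem mk_wInl (w : FreeGroup (Sym I)) : PresentedGroup.mk (relsG1 xz)
    (wInl (Sym I) (RIdx I) w) = bG1 xz (PresentedGroup.mk ∅ w) :=
  (extInl_mk _ _ w).symm

theorem D1_el {x : LT I} {q : ℤ} (hq : q ∈ Finset.Icc (-2 : ℤ) 2) (h0 : q ≠ 0) :
    el xz x q ∈ D1 xz :=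
  Subgroup.subset_closure ⟨_, Or.inl ⟨x, q, hq, h0, rfl⟩, mk_wInl xz _⟩

theorem D1_a {i : Bool} {q : ℤ} (hq : q ∈ Finset.Icc (-2 : ℤ) 2) : el xz (LT.a i) q ∈ D1 xz := by
  by_cases h0 : q = 0
  · subst h0
    exact Subgroup.subset_closure ⟨_, Or.inr (Or.inr (Or.inl ⟨i, rfl⟩)), mk_wInl xz _⟩
  · exact D1_el xz hq h0

theorem D1_t (r : RIdx I) : tt xz r ∈ D1 xz :=
  Subgroup.subset_closure ⟨_, Or.inr (Or.inr (Or.inr ⟨r, rfl⟩)), rfl⟩

theorem D1_kap (f : Bool) (l : I) {q : ℤ} (hq : q ∈ Finset.Icc (-2 : ℤ) 2) :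
    (el xz (LT.c l) q)⁻¹ * el xz (LT.e f l) q ∈ D1 xz := by
  by_cases h0 : q = 0
  · subst h0
    refine Subgroup.subset_closure ⟨_, Or.inr (Or.inl ⟨f, l, rfl⟩), ?_⟩
    rw [mk_wInl, _root_.map_mul, _root_.map_inv, _root_.map_mul, _root_.map_inv]
    rfl
  · exact mul_mem (inv_mem (D1_el xz hq h0)) (D1_el xz hq h0)

theorem D1_dl (f : Bool) (l : I) (q : Q5) (χ : Bool) :
    el xz (LT.c l) (q.1 + epq q.1) ^ dl q.1 χ * el xz (LT.e f l) (q.1 + epq q.1) ∈ D1 xz :=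
  mul_mem (zpow_mem (D1_el xz (epq_win q.2) (epq_ne' q.2)) _)
    (D1_el xz (epq_win q.2) (epq_ne' q.2))

/-- conjugation of an element of type E -/
theorem conj_E (j : I) (s f : Bool) (l : I) (q : Q5) (χ : Bool) :
    el xz (LT.c j) 0 ^ sg s * (el xz (LT.c l) q.1 ^ dl q.1 χ * el xz (LT.e f l) q.1) *
      el xz (LT.c j) 0 ^ (-sg s) ∈ D1 xz := by
  have h := tt_relE xz j s f l q χ
  have h1 : el xz (LT.c j) 0 ^ sg s * (el xz (LT.c l) q.1 ^ dl q.1 χ * el xz (LT.e f l) q.1) *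
      el xz (LT.c j) 0 ^ (-sg s) = (tt xz (Sum.inl (j, s, f, l, q, χ)))⁻¹ *
      (tt xz (Sum.inl (j, s, f, l, q, χ)) * (el xz (LT.c j) 0 ^ sg s *
      el xz (LT.c l) q.1 ^ dl q.1 χ * el xz (LT.e f l) q.1 * el xz (LT.c j) 0 ^ (-sg s))) := by
    group
  rw [h1, h]
  have h2 : el xz (LT.c j) (0 + epq q.1) ∈ D1 xz := by
    rw [zero_add]; exact D1_el xz (epq_self_win _) (epq_ne0 _)
  have h3 := D1_dl xz f l q χ
  refine mul_mem (inv_mem (D1_t xz _)) (mul_mem (mul_mem ?_ (zpow_mem h2 _)) (D1_t xz _))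
  rw [mul_assoc]
  exact mul_mem (zpow_mem h2 _) h3

theorem conj_e (j : I) (s f : Bool) (l : I) {q : ℤ} (hq : q ∈ Finset.Icc (-2 : ℤ) 2)
    (h0 : q ≠ 0) :
    el xz (LT.c j) 0 ^ sg s * el xz (LT.e f l) q * el xz (LT.c j) 0 ^ (-sg s) ∈ D1 xz := by
  have h := conj_E xz j s f l ⟨q, hq⟩ false
  have h1 : dl q false = 0 := by simp [dl, h0]
  simp only [h1, zpow_zero, one_mul] at h
  exact h

theorem conj_kap (j : I) (s f : Bool) (l : I) {q : ℤ} (hq : q ∈ Finset.Icc (-2 : ℤ) 2) :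
    el xz (LT.c j) 0 ^ sg s * ((el xz (LT.c l) q)⁻¹ * el xz (LT.e f l) q) *
      el xz (LT.c j) 0 ^ (-sg s) ∈ D1 xz := by
  have h := conj_E xz j s f l ⟨q, hq⟩ true
  have h1 : dl q true = -1 := by simp [dl]
  simp only [h1, zpow_neg_one] at h
  exact h

theorem conj_c (j : I) (s : Bool) (l : I) {q : ℤ} (hq : q ∈ Finset.Icc (-2 : ℤ) 2)
    (h0 : q ≠ 0) :
    el xz (LT.c j) 0 ^ sg s * el xz (LT.c l) q * el xz (LT.c j) 0 ^ (-sg s) ∈ D1 xz := by
  have h1 := conj_e xz j s true l hq h0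
  have h2 := conj_kap xz j s true l hq
  have h3 : el xz (LT.c j) 0 ^ sg s * el xz (LT.c l) q * el xz (LT.c j) 0 ^ (-sg s) =
    (el xz (LT.c j) 0 ^ sg s * el xz (LT.e true l) q * el xz (LT.c j) 0 ^ (-sg s)) *
    (el xz (LT.c j) 0 ^ sg s * ((el xz (LT.c l) q)⁻¹ * el xz (LT.e true l) q) *
      el xz (LT.c j) 0 ^ (-sg s))⁻¹ := by group
  rw [h3]
  exact mul_mem h1 (inv_mem h2)

theorem conj_a (j : I) (s i : Bool) {q : ℤ} (hq : q ∈ Finset.Icc (-2 : ℤ) 2) :
    el xz (LT.c j) 0 ^ sg s * el xz (LT.a i) q * el xz (LT.c j) 0 ^ (-sg s) ∈ D1 xz := by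
  have h := tt_relA xz j s i ⟨q, hq⟩
  set t := tt xz (Sum.inr (j, s, i, ⟨q, hq⟩)) with ht
  have htm : t ∈ D1 xz := D1_t xz _
  have h1 : el xz (LT.c j) 0 ^ sg s * el xz (LT.a i) q * el xz (LT.c j) 0 ^ (-sg s) =
      t⁻¹ * (t * (el xz (LT.c j) 0 ^ sg s * el xz (LT.a i) q *
      el xz (LT.c j) 0 ^ (-sg s) * el xz (LT.a (!i)) (pq q) ^ (xz j s q).1 *
      el xz (LT.a (!i)) (pq q + 1) ^ (xz j s q).2)) *
      (el xz (LT.a (!i)) (pq q) ^ (xz j s q).1 *
      el xz (LT.a (!i)) (pq q + 1) ^ (xz j s q).2)⁻¹ := by group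
  rw [h1, h]
  have h2 : el xz (LT.c j) (0 + epq q) ∈ D1 xz := by
    rw [zero_add]; exact D1_el xz (epq_self_win _) (epq_ne0 _)
  exact mul_mem (mul_mem (inv_mem htm) (mul_mem (mul_mem (mul_mem (mul_mem (mul_mem
    (zpow_mem h2 _) (D1_a xz (epq_win hq))) (zpow_mem h2 _))
    (zpow_mem (D1_a xz (pq_win2 _)) _)) (zpow_mem (D1_a xz (pq_win3 _)) _)) htm))
    (inv_mem (mul_mem (zpow_mem (D1_a xz (pq_win _)) _) (zpow_mem (D1_a xz (pq_win1 _)) _)))

/-- the second relation, uniformly -/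
theorem tt_relk (r : RIdx I) (k : I) : ∃ f : Bool,
    tt xz r * (el xz (LT.c k) 0 * el xz (LT.e f k) (-epq r.q)) =
    (el xz (LT.c k) (epq r.q) * el xz (LT.e f k) 0) * tt xz r := by
  rcases r with ⟨j, s, f, l, q, χ⟩ | ⟨j, s, i, q⟩
  · refine ⟨!f, ?_⟩
    have h := tt_relEk xz j s f l q χ k
    rw [zero_add, neg_add_cancel] at h
    exact h
  · refine ⟨false, ?_⟩
    have h := tt_relAk xz j s i q k
    rw [zero_add, neg_add_cancel] at h
    exact h

theorem conj_t (j : I) (s : Bool) (r : RIdx I) :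
    el xz (LT.c j) 0 ^ sg s * tt xz r * el xz (LT.c j) 0 ^ (-sg s) ∈ D1 xz := by
  obtain ⟨f, h⟩ := tt_relk xz r j
  have he : el xz (LT.e f j) (-epq r.q) ∈ D1 xz := D1_el xz (epq_neg_win _) (epq_neg_ne0 _)
  have hc := conj_c xz j s j (epq_self_win r.q) (epq_ne0 r.q)
  have hk0 := D1_kap xz f j zero_win
  have ht := D1_t xz r
  cases s with
  | false =>
    simp only [sg, neg_neg, zpow_neg_one, zpow_one] at hc ⊢
    have h1 : (el xz (LT.c j) 0)⁻¹ * tt xz r * el xz (LT.c j) 0 =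
        ((el xz (LT.c j) 0)⁻¹ * el xz (LT.c j) (epq r.q) * el xz (LT.c j) 0) *
        ((el xz (LT.c j) 0)⁻¹ * el xz (LT.e f j) 0) * tt xz r *
        (el xz (LT.e f j) (-epq r.q))⁻¹ := by
      have h2 : (el xz (LT.c j) 0)⁻¹ * tt xz r * el xz (LT.c j) 0 = (el xz (LT.c j) 0)⁻¹ *
        (tt xz r * (el xz (LT.c j) 0 * el xz (LT.e f j) (-epq r.q))) *
        (el xz (LT.e f j) (-epq r.q))⁻¹ := by group
      rw [h2, h]
      group
    rw [h1]
    exact mul_mem (mul_mem (mul_mem hc hk0) ht) (inv_mem he)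
  | true =>
    have hk := conj_kap xz j true f j zero_win
    have hee := conj_e xz j true f j (epq_neg_win r.q) (epq_neg_ne0 r.q)
    simp only [sg, zpow_neg_one, zpow_one] at hc hk hee ⊢
    have h1 : el xz (LT.c j) 0 * tt xz r * (el xz (LT.c j) 0)⁻¹ =
        (el xz (LT.c j) 0 * ((el xz (LT.c j) 0)⁻¹ * el xz (LT.e f j) 0) *
          (el xz (LT.c j) 0)⁻¹)⁻¹ * (el xz (LT.c j) (epq r.q))⁻¹ * tt xz r *
        (el xz (LT.c j) 0 * el xz (LT.e f j) (-epq r.q) * (el xz (LT.c j) 0)⁻¹) := by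
      have h2 : (el xz (LT.c j) 0 * ((el xz (LT.c j) 0)⁻¹ * el xz (LT.e f j) 0) *
          (el xz (LT.c j) 0)⁻¹)⁻¹ * (el xz (LT.c j) (epq r.q))⁻¹ * tt xz r *
        (el xz (LT.c j) 0 * el xz (LT.e f j) (-epq r.q) * (el xz (LT.c j) 0)⁻¹) =
          (el xz (LT.c j) 0 * ((el xz (LT.c j) 0)⁻¹ * el xz (LT.e f j) 0) *
          (el xz (LT.c j) 0)⁻¹)⁻¹ * (el xz (LT.c j) (epq r.q))⁻¹ *
          (tt xz r * (el xz (LT.c j) 0 * el xz (LT.e f j) (-epq r.q))) *
          (el xz (LT.c j) 0)⁻¹ := by group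
      rw [h2, h]
      group
    rw [h1]
    exact mul_mem (mul_mem (mul_mem (inv_mem hk)
      (inv_mem (D1_el xz (epq_self_win _) (epq_ne0 _)))) ht) hee

theorem conj_gen (j : I) (s : Bool) {g : G1 xz}
    (hg : g ∈ PresentedGroup.mk (relsG1 xz) '' Dset I) :
    el xz (LT.c j) 0 ^ sg s * g * el xz (LT.c j) 0 ^ (-sg s) ∈ D1 xz := by
  obtain ⟨w, hw, rfl⟩ := hg
  rcases hw with ⟨x, q, hq, h0, rfl⟩ | ⟨f, l, rfl⟩ | ⟨i, rfl⟩ | ⟨r, rfl⟩
  · rw [mk_wInl]
    rcases x with l | ⟨f, l⟩ | i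
    · exact conj_c xz j s l hq h0
    · exact conj_e xz j s f l hq h0
    · exact conj_a xz j s i hq
  · have h := conj_kap xz j s f l zero_win
    rw [mk_wInl, _root_.map_mul, _root_.map_inv, _root_.map_mul, _root_.map_inv]
    exact h
  · rw [mk_wInl]
    exact conj_a xz j s i zero_win
  · exact conj_t xz j s r

theorem conj_D1 (j : I) (s : Bool) {g : G1 xz} (hg : g ∈ D1 xz) :
    el xz (LT.c j) 0 ^ sg s * g * el xz (LT.c j) 0 ^ (-sg s) ∈ D1 xz := by
  have h : D1 xz ≤ (D1 xz).comap (MulAut.conj (el xz (LT.c j) 0 ^ sg s)).toMonoidHom := by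
    rw [D1, Subgroup.closure_le]
    intro g hg
    show el xz (LT.c j) 0 ^ sg s * g * (el xz (LT.c j) 0 ^ sg s)⁻¹ ∈ D1 xz
    rw [← zpow_neg]
    exact conj_gen xz j s hg
  have h2 := h hg
  rw [Subgroup.mem_comap] at h2
  have h3 : el xz (LT.c j) 0 ^ sg s * g * (el xz (LT.c j) 0 ^ sg s)⁻¹ ∈ D1 xz := h2
  rw [← zpow_neg] at h3
  exact h3

/-- words of C -/
noncomputable def secS (I : Type) : FreeGroup I →* FreeGroup (Sym I) :=
  FreeGroup.lift (fun l => sy (LT.c l) 0)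

/-- words of C in the level two group -/
noncomputable def secW (I : Type) : FreeGroup I →* FreeGroup (Sym I ⊕ RIdx I) :=
  (wInl (Sym I) (RIdx I)).comp (secS I)

/-- the subgroup C -/
noncomputable def Cw : FreeGroup I →* G1 xz := (PresentedGroup.mk (relsG1 xz)).comp (secW I)

theorem Cw_of (l : I) : Cw xz (FreeGroup.of l) = el xz (LT.c l) 0 := by
  show PresentedGroup.mk (relsG1 xz) (wInl (Sym I) (RIdx I) (secS I (FreeGroup.of l))) = _
  rw [mk_wInl, secS, FreeGroup.lift_apply_of]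
  rfl

theorem Cw_conj (w : FreeGroup I) : ∀ g ∈ D1 xz, Cw xz w * g * (Cw xz w)⁻¹ ∈ D1 xz := by
  induction w using FreeGroup.induction_on with
  | C1 => intro g hg; simpa using hg
  | of l =>
    intro g hg
    have h := conj_D1 xz l true hg
    rw [Cw_of]
    simpa [sg] using h
  | inv_of l _ =>
    intro g hg
    have h := conj_D1 xz l false hg
    rw [_root_.map_inv, Cw_of]
    simpa [sg] using h
  | mul u v hu hv =>
    intro g hg
    have h := hu _ (hv g hg)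
    rw [_root_.map_mul]
    have h2 : Cw xz u * Cw xz v * g * (Cw xz u * Cw xz v)⁻¹ =
      Cw xz u * (Cw xz v * g * (Cw xz v)⁻¹) * (Cw xz u)⁻¹ := by group
    rw [h2]
    exact h

theorem G1_gen_dec (x : Sym I ⊕ RIdx I) : ∃ w : FreeGroup I, ∃ d ∈ D1 xz,
    (PresentedGroup.of x : G1 xz) = Cw xz w * d := by
  rcases x with ⟨x, q⟩ | r
  · have h1 : (PresentedGroup.of (Sum.inl (x, q)) : G1 xz) = el xz x q.1 := by
      rw [el, sy_of q.2]
      exact (extInl_of _ _ _).symm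
    rw [h1]
    by_cases h0 : q.1 = 0
    · rcases x with l | ⟨f, l⟩ | i
      · exact ⟨FreeGroup.of l, 1, one_mem _, by rw [Cw_of, h0, mul_one]⟩
      · refine ⟨FreeGroup.of l, _, D1_kap xz f l zero_win, ?_⟩
        rw [Cw_of, h0, mul_inv_cancel_left]
      · exact ⟨1, _, D1_a xz (i := i) q.2, by simp⟩
    · exact ⟨1, _, D1_el xz (x := x) q.2 h0, by simp⟩
  · exact ⟨1, _, D1_t xz r, by rw [_root_.map_one, one_mul]; rfl⟩

theorem G1_dec (g : G1 xz) : ∃ w : FreeGroup I, ∃ d ∈ D1 xz, g = Cw xz w * d := by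
  have hg : g ∈ Subgroup.closure (Set.range (PresentedGroup.of : _ → G1 xz)) := by
    rw [PresentedGroup.closure_range_of]; trivial
  induction hg using Subgroup.closure_induction with
  | mem x hx =>
    obtain ⟨y, rfl⟩ := hx
    exact G1_gen_dec xz y
  | one => exact ⟨1, 1, one_mem _, by simp⟩
  | mul x y _ _ hx hy =>
    obtain ⟨u, d, hd, rfl⟩ := hx
    obtain ⟨v, d', hd', rfl⟩ := hy
    refine ⟨u * v, (Cw xz v⁻¹ * d * (Cw xz v⁻¹)⁻¹) * d', mul_mem (Cw_conj xz _ _ hd) hd', ?_⟩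
    rw [_root_.map_mul, _root_.map_inv]
    group
  | inv x _ hx =>
    obtain ⟨u, d, hd, rfl⟩ := hx
    refine ⟨u⁻¹, Cw xz u * d⁻¹ * (Cw xz u)⁻¹, Cw_conj xz _ _ (inv_mem hd), ?_⟩
    rw [_root_.map_inv]
    group

/-! ### Homs out of the level two group -/

section Homs

variable {H : Type} [Group H] (X : I → H) (A : ℤ → H)

/-- family -/
def genFam : LT I → ℤ → H
  | LT.c l, n => if n = 0 then X l else 1
  | LT.e _ l, n => if n = 0 then X l else 1
  | LT.a _, n => A n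

variable (hA : ∀ j s q, q ∈ Finset.Icc (-2 : ℤ) 2 →
  X j ^ sg s * A q * X j ^ (-sg s) * A (pq q) ^ (xz j s q).1 * A (pq q + 1) ^ (xz j s q).2 =
  A (q + epq q) * A (pq q + epq q) ^ (xz j s q).1 * A (pq q + 1 + epq q) ^ (xz j s q).2)

include hA in
theorem genFam_rel (r : RIdx I) (o : Option I) :
    bigHom (genFam X A) (bword xz r o) = bigHom (genFam X A) (shf (epq r.q) (bword xz r o)) := by
  have h0 : ∀ q, epq q ≠ 0 := epq_ne0
  rcases r with ⟨j, s, f, l, q, χ⟩ | ⟨j, s, i, q⟩ <;> rcases o with _ | k <;>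
    simp only [bword, _root_.map_mul, map_zpow, shf_bz, bigHom_bz, RIdx.q, genFam, if_true,
      zero_add, neg_add_cancel, h0, if_false, neg_eq_zero, mul_one, one_mul, one_zpow,
      epq_ne' q.2]
  · by_cases hq : q.1 = 0
    · have hd : dl 0 χ = -1 := by simp [dl]
      simp [hq, hd]
    · simp [hq]
  · exact hA j s q.1 q.2

/-- hom out of the level two group -/
noncomputable def genHom : G1 xz →* H :=
  extLift (winHom (genFam X A)) (fun _ => 1) (by
    rintro r _ ⟨o, rfl⟩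
    show 1 * winHom (genFam X A) (PresentedGroup.mk ∅ (res (bword xz r o))) =
      winHom (genFam X A) (PresentedGroup.mk ∅ (res (shf (epq r.q) (bword xz r o)))) * 1
    rw [winHom_res _ (bword_win xz r o), winHom_res _ (bword_shf_win xz r o), one_mul, mul_one]
    exact genFam_rel xz X A hA r o)

theorem genHom_el (x : LT I) {n : ℤ} (h : n ∈ Finset.Icc (-2 : ℤ) 2) :
    genHom xz X A hA (el xz x n) = genFam X A x n := by
  have h1 : genHom xz X A hA (el xz x n) =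
      winHom (genFam X A) (PresentedGroup.mk ∅ (sy x n)) := extLift_inl _ _ _ _
  rw [h1, winHom_sy _ _ h]

theorem genHom_tt (r : RIdx I) : genHom xz X A hA (tt xz r) = 1 := extLift_T _ _ _ _

theorem genHom_D1 {K : Subgroup H} (hK : ∀ n ∈ Finset.Icc (-2 : ℤ) 2, A n ∈ K) {g : G1 xz}
    (hg : g ∈ D1 xz) : genHom xz X A hA g ∈ K := by
  have h : D1 xz ≤ K.comap (genHom xz X A hA) := by
    rw [D1, Subgroup.closure_le]
    rintro _ ⟨w, hw, rfl⟩
    show genHom xz X A hA _ ∈ K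
    rcases hw with ⟨x, q, hq, h0, rfl⟩ | ⟨f, l, rfl⟩ | ⟨i, rfl⟩ | ⟨r, rfl⟩
    · rw [mk_wInl]
      show genHom xz X A hA (el xz x q) ∈ K
      rw [genHom_el xz X A hA x hq]
      rcases x with l | ⟨f, l⟩ | i
      · simp only [genFam, h0, if_false]; exact one_mem _
      · simp only [genFam, h0, if_false]; exact one_mem _
      · exact hK _ hq
    · rw [mk_wInl, _root_.map_mul, _root_.map_inv, _root_.map_mul, _root_.map_inv]
      show genHom xz X A hA ((el xz (LT.c l) 0)⁻¹ * el xz (LT.e f l) 0) ∈ K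
      rw [_root_.map_mul, _root_.map_inv, genHom_el xz X A hA _ zero_win,
        genHom_el xz X A hA _ zero_win]
      simp only [genFam, if_true, inv_mul_cancel]
      exact one_mem _
    · rw [mk_wInl]
      show genHom xz X A hA (el xz (LT.a i) 0) ∈ K
      rw [genHom_el xz X A hA _ zero_win]
      exact hK _ zero_win
    · show genHom xz X A hA (tt xz r) ∈ K
      rw [genHom_tt]
      exact one_mem _
  exact h hg

theorem genHom_Cw (w : FreeGroup I) : genHom xz X A hA (Cw xz w) = FreeGroup.lift X w := by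
  have h : (genHom xz X A hA).comp (Cw xz) = FreeGroup.lift X := by
    apply FreeGroup.ext_hom
    intro l
    rw [MonoidHom.comp_apply, Cw_of, genHom_el xz X A hA _ zero_win, FreeGroup.lift_apply_of]
    simp [genFam]
  exact DFunLike.congr_fun h w

end Homs

end Dsub

end Pool.Agent.RaagDehn
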