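import Pool.Agent.Work.RaagDehn.Raag

/-!
# The embedding theorem for twisted HNN extensions of subgroups of RAAGs
-/

set_option autoImplicit false

namespace Pool.Agent.RaagDehn

section Embed

variable {V R : Type} {adj : V → V → Prop} {T : R → Set V}
variable {G0 G : Type} [Group G0] [Group G]

/-- the equivalence relation defining `G ×_{G0} Λ` -/
def xSetoid {Λ : Type} [Group Λ] (i : G0 →* G) (κ : G0 →* Λ) : Setoid (G × Λ) where
  r p q := ∃ g0 : G0, q.1 = p.1 * i g0 ∧ q.2 = (κ g0)⁻¹ * p.2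
  iseqv := by
    refine ⟨fun p => ⟨1, by simp, by simp⟩, ?_, ?_⟩
    · rintro p q ⟨g, h1, h2⟩
      exact ⟨g⁻¹, by simp [h1], by simp [h2]⟩
    · rintro p q r ⟨g, h1, h2⟩ ⟨g', h3, h4⟩
      exact ⟨g * g', by simp [h1, h3, mul_assoc], by simp [h2, h4, mul_assoc]⟩

/-- the space `G ×_{G0} Λ` -/
abbrev XSp {Λ : Type} [Group Λ] (i : G0 →* G) (κ : G0 →* Λ) : Type := Quotient (xSetoid i κ)

/-- point of the space -/
def xmk {Λ : Type} [Group Λ] (i : G0 →* G) (κ : G0 →* Λ) (g : G) (l : Λ) : XSp i κ :=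
  Quotient.mk (xSetoid i κ) (g, l)

theorem xmk_eq_iff {Λ : Type} [Group Λ] {i : G0 →* G} {κ : G0 →* Λ} {g g' : G} {l l' : Λ} :
    xmk i κ g l = xmk i κ g' l' ↔ ∃ g0 : G0, g' = g * i g0 ∧ l' = (κ g0)⁻¹ * l :=
  Quotient.eq (r := xSetoid i κ)

theorem xmk_mul {Λ : Type} [Group Λ] {i : G0 →* G} {κ : G0 →* Λ} (g : G) (g0 : G0) (l : Λ) :
    xmk i κ (g * i g0) l = xmk i κ g (κ g0 * l) := by
  rw [eq_comm, xmk_eq_iff]
  exact ⟨g0, rfl, by simp⟩

theorem xmk_surj {Λ : Type} [Group Λ] {i : G0 →* G} {κ : G0 →* Λ} (x : XSp i κ) :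
    ∃ g l, xmk i κ g l = x := by
  obtain ⟨⟨g, l⟩, h⟩ := Quotient.exists_rep x
  exact ⟨g, l, h⟩

/-- the action of `Λ` on the space : `μ • [g, l] = [g, l μ⁻¹]` -/
def xact {Λ : Type} [Group Λ] (i : G0 →* G) (κ : G0 →* Λ) (m : Λ) : XSp i κ → XSp i κ :=
  Quotient.map' (s₁ := xSetoid i κ) (s₂ := xSetoid i κ) (fun p => (p.1, p.2 * m⁻¹)) (by
    rintro p q ⟨g0, h1, h2⟩
    exact ⟨g0, h1, by simp only [h2, mul_assoc]⟩)

theorem xact_mk {Λ : Type} [Group Λ] {i : G0 →* G} {κ : G0 →* Λ} (m : Λ) (g : G) (l : Λ) :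
    xact i κ m (xmk i κ g l) = xmk i κ g (l * m⁻¹) := rfl

theorem xact_one {Λ : Type} [Group Λ] {i : G0 →* G} {κ : G0 →* Λ} (x : XSp i κ) :
    xact i κ 1 x = x := by
  obtain ⟨g, l, rfl⟩ := xmk_surj x
  simp [xact_mk]

theorem xact_mul {Λ : Type} [Group Λ] {i : G0 →* G} {κ : G0 →* Λ} (m m' : Λ) (x : XSp i κ) :
    xact i κ (m * m') x = xact i κ m (xact i κ m' x) := by
  obtain ⟨g, l, rfl⟩ := xmk_surj x
  simp [xact_mk, mul_assoc]

theorem bigMap_bigMap {X Y Z : Type} (g : Y → Z) (f : X → Y) (x : Big X) :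
    bigMap g (bigMap f x) = bigMap (fun x => g (f x)) x := by
  cases x <;> rfl

theorem bigMap_id {X : Type} (f : X → X) (hf : ∀ x, f x = x) (x : Big X) :
    bigMap f x = x := by
  cases x <;> simp [bigMap, hf]

/-- the action of `Λ` on the big set -/
def bigAct {Λ : Type} [Group Λ] (i : G0 →* G) (κ : G0 →* Λ) : Λ →* Equiv.Perm (Big (XSp i κ)) where
  toFun m :=
    { toFun := bigMap (xact i κ m)
      invFun := bigMap (xact i κ m⁻¹)
      left_inv := fun x => by
        rw [bigMap_bigMap, bigMap_id]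
        intro x
        rw [← xact_mul, inv_mul_cancel, xact_one]
      right_inv := fun x => by
        rw [bigMap_bigMap, bigMap_id]
        intro x
        rw [← xact_mul, mul_inv_cancel, xact_one] }
  map_one' := by
    ext x
    exact bigMap_id _ xact_one x
  map_mul' m m' := by
    apply Equiv.ext
    intro x
    show bigMap (xact i κ (m * m')) x = bigMap (xact i κ m) (bigMap (xact i κ m') x)
    rw [bigMap_bigMap]
    congr 1
    funext x
    exact xact_mul m m' x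

theorem bigAct_apply {Λ : Type} [Group Λ] (i : G0 →* G) (κ : G0 →* Λ) (m : Λ)
    (x : Big (XSp i κ)) : bigAct i κ m x = bigMap (xact i κ m) x := rfl

variable (adj T)

/-- The hypotheses of the embedding theorem. -/
structure EmbData (i : G0 →* G) (κ : G0 →* Raag adj) (t : R → G) (z : R → Raag adj)
    (ι : G →* Raag (extAdj adj T)) : Prop where
  inj : Function.Injective κ
  gen : Subgroup.closure (Set.range i ∪ Set.range t) = ⊤
  H1 : ∀ r g, κ g ∈ parab adj (T r) →
    ∃ g', κ g' = z r * κ g * (z r)⁻¹ ∧ t r * i g = i g' * t r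
  H2 : ∀ r g, (z r)⁻¹ * κ g * z r ∈ parab adj (T r) →
    ∃ g', κ g' = (z r)⁻¹ * κ g * z r ∧ i g * t r = t r * i g'
  hi : ∀ g, ι (i g) = incl adj T (κ g)
  ht : ∀ r, ι (t r) = incl adj T (z r) * newGen adj T r

variable {adj T}
variable {i : G0 →* G} {κ : G0 →* Raag adj} {t : R → G} {z : R → Raag adj}
    {ι : G →* Raag (extAdj adj T)}

/-- first domain -/
def dom1 (T : R → Set V) (i : G0 →* G) (κ : G0 →* Raag adj) (z : R → Raag adj) (r : R) :
    Set (XSp i κ) := {x | ∃ g, ∃ m ∈ parab adj (T r), x = xmk i κ g (z r * m)}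

/-- second domain -/
def dom2 (T : R → Set V) (i : G0 →* G) (κ : G0 →* Raag adj) (r : R) :
    Set (XSp i κ) := {x | ∃ g, ∃ m ∈ parab adj (T r), x = xmk i κ g m}

open Classical in
/-- the partial bijection -/
noncomputable def pf (T : R → Set V) (i : G0 →* G) (κ : G0 →* Raag adj) (t : R → G)
    (z : R → Raag adj) (r : R) (x : XSp i κ) : XSp i κ :=
  if h : x ∈ dom1 T i κ z r then xmk i κ (h.choose * t r) h.choose_spec.choose else x

open Classical in
/-- its inverse -/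
noncomputable def pf' (T : R → Set V) (i : G0 →* G) (κ : G0 →* Raag adj) (t : R → G)
    (z : R → Raag adj) (r : R) (x : XSp i κ) : XSp i κ :=
  if h : x ∈ dom2 T i κ r then xmk i κ (h.choose * (t r)⁻¹) (z r * h.choose_spec.choose) else x

theorem pf_mk (E : EmbData adj T i κ t z ι) (r : R) (g : G) {m : Raag adj}
    (hm : m ∈ parab adj (T r)) :
    pf T i κ t z r (xmk i κ g (z r * m)) = xmk i κ (g * t r) m := by
  have h : xmk i κ g (z r * m) ∈ dom1 T i κ z r := ⟨g, m, hm, rfl⟩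
  have e : pf T i κ t z r (xmk i κ g (z r * m)) =
    xmk i κ (h.choose * t r) h.choose_spec.choose := dif_pos h
  rw [e]
  have h1 := h.choose_spec.choose_spec.1
  have h2 := h.choose_spec.choose_spec.2
  generalize h.choose_spec.choose = m' at *
  generalize h.choose = g' at *
  rw [xmk_eq_iff] at h2
  obtain ⟨g0, h3, h4⟩ := h2
  have h5 : (z r)⁻¹ * κ g0 * z r = m * m'⁻¹ := by
    have : z r * m = κ g0 * (z r * m') := by rw [h4]; group
    calc (z r)⁻¹ * κ g0 * z r = (z r)⁻¹ * (κ g0 * (z r * m')) * m'⁻¹ := by group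
      _ = m * m'⁻¹ := by rw [← this]; group
  obtain ⟨g1, h6, h7⟩ := E.H2 r g0 (by rw [h5]; exact mul_mem hm (inv_mem h1))
  rw [h3, mul_assoc, h7, ← mul_assoc, xmk_mul, h6, h5]
  simp

theorem pf'_mk (E : EmbData adj T i κ t z ι) (r : R) (g : G) {m : Raag adj}
    (hm : m ∈ parab adj (T r)) :
    pf' T i κ t z r (xmk i κ g m) = xmk i κ (g * (t r)⁻¹) (z r * m) := by
  have h : xmk i κ g m ∈ dom2 T i κ r := ⟨g, m, hm, rfl⟩
  have e : pf' T i κ t z r (xmk i κ g m) =
    xmk i κ (h.choose * (t r)⁻¹) (z r * h.choose_spec.choose) := dif_pos h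
  rw [e]
  have h1 := h.choose_spec.choose_spec.1
  have h2 := h.choose_spec.choose_spec.2
  generalize h.choose_spec.choose = m' at *
  generalize h.choose = g' at *
  rw [xmk_eq_iff] at h2
  obtain ⟨g0, h3, h4⟩ := h2
  have h5 : κ g0 = m * m'⁻¹ := by
    rw [h4]; group
  obtain ⟨g1, h6, h7⟩ := E.H1 r g0 (by rw [h5]; exact mul_mem hm (inv_mem h1))
  have h8 : i g0 * (t r)⁻¹ = (t r)⁻¹ * i g1 := by
    rw [mul_inv_eq_iff_eq_mul, mul_assoc, ← h7, inv_mul_cancel_left]
  rw [h3, mul_assoc, h8, ← mul_assoc, xmk_mul, h6, h5]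
  congr 1
  group

theorem pf_mem (E : EmbData adj T i κ t z ι) (r : R) (x : XSp i κ)
    (hx : x ∈ dom1 T i κ z r) : pf T i κ t z r x ∈ dom2 T i κ r := by
  obtain ⟨g, m, hm, rfl⟩ := hx
  rw [pf_mk E r g hm]
  exact ⟨_, m, hm, rfl⟩

theorem pf'_mem (E : EmbData adj T i κ t z ι) (r : R) (x : XSp i κ)
    (hx : x ∈ dom2 T i κ r) : pf' T i κ t z r x ∈ dom1 T i κ z r := by
  obtain ⟨g, m, hm, rfl⟩ := hx
  rw [pf'_mk E r g hm]
  exact ⟨_, m, hm, rfl⟩

theorem pf'_pf (E : EmbData adj T i κ t z ι) (r : R) (x : XSp i κ)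
    (hx : x ∈ dom1 T i κ z r) : pf' T i κ t z r (pf T i κ t z r x) = x := by
  obtain ⟨g, m, hm, rfl⟩ := hx
  rw [pf_mk E r g hm, pf'_mk E r _ hm]
  simp

theorem pf_pf' (E : EmbData adj T i κ t z ι) (r : R) (x : XSp i κ)
    (hx : x ∈ dom2 T i κ r) : pf T i κ t z r (pf' T i κ t z r x) = x := by
  obtain ⟨g, m, hm, rfl⟩ := hx
  rw [pf'_mk E r g hm, pf_mk E r _ hm]
  simp

/-- the permutation -/
noncomputable def thePerm (E : EmbData adj T i κ t z ι) (r : R) : Equiv.Perm (Big (XSp i κ)) :=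
  bigPerm (dom1 T i κ z r) (dom2 T i κ r) (pf T i κ t z r) (pf' T i κ t z r)
    (pf_mem E r) (pf'_mem E r) (pf'_pf E r) (pf_pf' E r)

theorem dom1_act (r : R) {m : Raag adj} (hm : m ∈ parab adj (T r)) (x : XSp i κ)
    (hx : x ∈ dom1 T i κ z r) : xact i κ m x ∈ dom1 T i κ z r := by
  obtain ⟨g, m', hm', rfl⟩ := hx
  rw [xact_mk]
  exact ⟨g, m' * m⁻¹, mul_mem hm' (inv_mem hm), by rw [mul_assoc]⟩

theorem dom2_act (r : R) {m : Raag adj} (hm : m ∈ parab adj (T r)) (x : XSp i κ)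
    (hx : x ∈ dom2 T i κ r) : xact i κ m x ∈ dom2 T i κ r := by
  obtain ⟨g, m', hm', rfl⟩ := hx
  rw [xact_mk]
  exact ⟨g, m' * m⁻¹, mul_mem hm' (inv_mem hm), rfl⟩

theorem xact_inv_xact (m : Raag adj) (x : XSp i κ) : xact i κ m⁻¹ (xact i κ m x) = x := by
  rw [← xact_mul, inv_mul_cancel, xact_one]

theorem pf_act (E : EmbData adj T i κ t z ι) (r : R) {m : Raag adj}
    (hm : m ∈ parab adj (T r)) (x : XSp i κ)
    (hx : x ∈ dom1 T i κ z r) :
    pf T i κ t z r (xact i κ m x) = xact i κ m (pf T i κ t z r x) := by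
  obtain ⟨g, m', hm', rfl⟩ := hx
  rw [xact_mk, mul_assoc, pf_mk E r g (mul_mem hm' (inv_mem hm)), pf_mk E r g hm', xact_mk]

theorem thePerm_comm (E : EmbData adj T i κ t z ι) (r : R) {m : Raag adj}
    (hm : m ∈ parab adj (T r)) : Commute (thePerm E r) (bigAct i κ m) := by
  apply Equiv.ext
  intro x
  show thePerm E r (bigMap (xact i κ m) x) = bigMap (xact i κ m) (thePerm E r x)
  apply bigPerm_comm
  · intro x
    refine ⟨fun h => ?_, dom1_act r hm x⟩
    rw [← xact_inv_xact m x]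
    exact dom1_act r (inv_mem hm) _ h
  · intro x
    refine ⟨fun h => ?_, dom2_act r hm x⟩
    rw [← xact_inv_xact m x]
    exact dom2_act r (inv_mem hm) _ h
  · exact pf_act E r hm

/-- The permutation representation of the big RAAG. -/
noncomputable def theRep (E : EmbData adj T i κ t z ι) :
    Raag (extAdj adj T) →* Equiv.Perm (Big (XSp i κ)) :=
  lift (fun x => Sum.elim (fun v => bigAct i κ (gen adj v)) (fun r => (thePerm E r)⁻¹) x) (by
    rintro (a | a) (b | b) h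
    · exact (gen_comm (show adj a b from h)).map (bigAct i κ)
    · exact ((thePerm_comm E b (gen_mem_parab (show a ∈ T b from h))).inv_left).symm
    · exact h.elim
    · exact h.elim)

theorem theRep_incl (E : EmbData adj T i κ t z ι) (m : Raag adj) :
    theRep E (incl adj T m) = bigAct i κ m := by
  have : (theRep E).comp (incl adj T) = bigAct i κ := by
    apply hom_ext
    intro v
    simp [theRep]
  exact DFunLike.congr_fun this m

theorem theRep_newGen (E : EmbData adj T i κ t z ι) (r : R) :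
    theRep E (newGen adj T r) = (thePerm E r)⁻¹ := by
  simp [theRep, newGen]

theorem key_gen_i (E : EmbData adj T i κ t z ι) (g0 : G0) (h : G) :
    (theRep E (ι (i g0)))⁻¹ (Big.c (xmk i κ h 1)) = Big.c (xmk i κ (h * i g0) 1) := by
  rw [E.hi, theRep_incl, ← map_inv, bigAct_apply]
  show Big.c (xact i κ (κ g0)⁻¹ (xmk i κ h 1)) = _
  rw [xact_mk, xmk_mul]
  simp

theorem key_gen_t (E : EmbData adj T i κ t z ι) (r : R) (h : G) :
    (theRep E (ι (t r)))⁻¹ (Big.c (xmk i κ h 1)) = Big.c (xmk i κ (h * t r) 1) := by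
  rw [E.ht, map_mul, theRep_incl, theRep_newGen, mul_inv_rev, inv_inv, Equiv.Perm.mul_apply,
    ← map_inv, bigAct_apply]
  show thePerm E r (Big.c (xact i κ (z r)⁻¹ (xmk i κ h 1))) = _
  rw [xact_mk]
  simp only [one_mul, inv_inv]
  have h1 : xmk i κ h (z r) ∈ dom1 T i κ z r := ⟨h, 1, one_mem _, by simp⟩
  rw [thePerm, bigPerm_c _ _ _ _ _ _ _ _ h1]
  have := pf_mk E r h (one_mem (parab adj (T r)))
  rw [mul_one] at this
  rw [this]

theorem key (E : EmbData adj T i κ t z ι) (g : G) : ∀ h : G,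
    (theRep E (ι g))⁻¹ (Big.c (xmk i κ h 1)) = Big.c (xmk i κ (h * g) 1) := by
  have hg : g ∈ Subgroup.closure (Set.range i ∪ Set.range t) := by
    rw [E.gen]; trivial
  induction hg using Subgroup.closure_induction with
  | mem x hx =>
    rcases hx with ⟨g0, rfl⟩ | ⟨r, rfl⟩
    · exact key_gen_i E g0
    · exact key_gen_t E r
  | one => intro h; simp
  | mul x y _ _ hx hy =>
    intro h
    rw [map_mul, map_mul, mul_inv_rev, Equiv.Perm.mul_apply, hx, hy, mul_assoc]
  | inv x _ hx =>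
    intro h
    rw [map_inv, map_inv, inv_inv]
    have := hx (h * x⁻¹)
    rw [inv_mul_cancel_right] at this
    rw [← this]
    exact (theRep E (ι x)).apply_symm_apply _

theorem embed_injective (E : EmbData adj T i κ t z ι) : Function.Injective ι := by
  rw [injective_iff_map_eq_one]
  intro g hg
  have h := key E g 1
  rw [hg, map_one, inv_one, one_mul] at h
  have h2 : xmk i κ (1 : G) 1 = xmk i κ g 1 := by
    simpa using h
  rw [xmk_eq_iff] at h2
  obtain ⟨g0, h3, h4⟩ := h2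
  have h5 : κ g0 = 1 := by simpa using h4.symm
  have h6 : g0 = 1 := E.inj (by rw [h5, map_one])
  rw [h3, h6]
  simp

theorem embed_range (E : EmbData adj T i κ t z ι) {g : G} {m : Raag adj}
    (h : ι g = incl adj T m) : ∃ g0, i g0 = g ∧ κ g0 = m := by
  have h1 := key E g 1
  rw [h, theRep_incl, ← map_inv, bigAct_apply, one_mul] at h1
  have h2 : xmk i κ (1 : G) m = xmk i κ g 1 := by
    have h3 : Big.c (xact i κ m⁻¹ (xmk i κ 1 1)) = Big.c (xmk i κ g 1) := h1
    rw [xact_mk] at h3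
    simpa using h3
  rw [xmk_eq_iff] at h2
  obtain ⟨g0, h3, h4⟩ := h2
  refine ⟨g0, by simpa using h3.symm, ?_⟩
  exact (inv_mul_eq_one.1 h4.symm)

end Embed

end Pool.Agent.RaagDehn
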