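import Pool.Agent.Work.RaagDehn.Embed

/-!
# The embedding theorem for presentations
-/

set_option autoImplicit false

namespace Pool.Agent.RaagDehn

section HNN

variable {α β : Type}

/-- inclusion of words -/
def wInl (α β : Type) : FreeGroup α →* FreeGroup (α ⊕ β) := FreeGroup.map Sum.inl

/-- The relators of the extension: stable letters `b`, relators `b u b⁻¹ u'⁻¹`. -/
def extRels (rels : Set (FreeGroup α)) (pairs : β → Set (FreeGroup α × FreeGroup α)) :
    Set (FreeGroup (α ⊕ β)) :=
  (wInl α β '' rels) ∪
  {r | ∃ b : β, ∃ p ∈ pairs b, r = FreeGroup.of (Sum.inr b) * wInl α β p.1 *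
    (FreeGroup.of (Sum.inr b))⁻¹ * (wInl α β p.2)⁻¹}

variable (rels : Set (FreeGroup α)) (pairs : β → Set (FreeGroup α × FreeGroup α))

/-- the inclusion of the base group -/
def extInl : PresentedGroup rels →* PresentedGroup (extRels rels pairs) :=
  PresentedGroup.toGroup (f := fun a => PresentedGroup.of (Sum.inl a)) (by
    intro r hr
    have h : FreeGroup.lift (fun a => (PresentedGroup.of (Sum.inl a) :
        PresentedGroup (extRels rels pairs))) =
        (PresentedGroup.mk (extRels rels pairs)).comp (wInl α β) := by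
      apply FreeGroup.ext_hom
      intro a
      simp [wInl]
      rfl
    rw [h, MonoidHom.comp_apply]
    exact PresentedGroup.one_of_mem (Or.inl ⟨r, hr, rfl⟩))

theorem extInl_of (a : α) : extInl rels pairs (PresentedGroup.of a) =
    PresentedGroup.of (Sum.inl a) := PresentedGroup.toGroup.of _

theorem extInl_mk (w : FreeGroup α) : extInl rels pairs (PresentedGroup.mk rels w) =
    PresentedGroup.mk (extRels rels pairs) (wInl α β w) := by
  have h : (extInl rels pairs).comp (PresentedGroup.mk rels) =
      (PresentedGroup.mk (extRels rels pairs)).comp (wInl α β) := by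
    apply FreeGroup.ext_hom
    intro a
    simp only [MonoidHom.comp_apply, wInl, FreeGroup.map.of]
    exact extInl_of rels pairs a
  exact DFunLike.congr_fun h w

/-- the stable letter -/
def extT (b : β) : PresentedGroup (extRels rels pairs) := PresentedGroup.of (Sum.inr b)

theorem extT_rel (b : β) {p : FreeGroup α × FreeGroup α} (hp : p ∈ pairs b) :
    extT rels pairs b * extInl rels pairs (PresentedGroup.mk rels p.1) =
    extInl rels pairs (PresentedGroup.mk rels p.2) * extT rels pairs b := by
  have h : PresentedGroup.mk (extRels rels pairs) (FreeGroup.of (Sum.inr b) * wInl α β p.1 *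
    (FreeGroup.of (Sum.inr b))⁻¹ * (wInl α β p.2)⁻¹) = 1 :=
    PresentedGroup.one_of_mem (Or.inr ⟨b, p, hp, rfl⟩)
  rw [map_mul, map_mul, map_mul, map_inv, map_inv, ← extInl_mk, ← extInl_mk] at h
  have h3 := mul_inv_eq_one.1 h
  exact mul_inv_eq_iff_eq_mul.1 h3

theorem ext_gen : Subgroup.closure (Set.range (extInl rels pairs) ∪
    Set.range (extT rels pairs)) = ⊤ := by
  rw [eq_top_iff, ← PresentedGroup.closure_range_of, Subgroup.closure_le]
  rintro _ ⟨a | b, rfl⟩
  · exact Subgroup.subset_closure (Or.inl ⟨PresentedGroup.of a, extInl_of _ _ a⟩)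
  · exact Subgroup.subset_closure (Or.inr ⟨b, rfl⟩)

variable {rels pairs}

/-- homs out of the extension -/
def extLift {G : Type} [Group G] (φ : PresentedGroup rels →* G) (t : β → G)
    (h : ∀ b, ∀ p ∈ pairs b, t b * φ (PresentedGroup.mk rels p.1) =
      φ (PresentedGroup.mk rels p.2) * t b) : PresentedGroup (extRels rels pairs) →* G :=
  PresentedGroup.toGroup
    (f := fun x => Sum.elim (fun a => φ (PresentedGroup.of a)) t x) (by
    have h0 : ∀ w : FreeGroup α, FreeGroup.lift (fun x : α ⊕ β =>
        Sum.elim (fun a => φ (PresentedGroup.of a)) t x) (wInl α β w) =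
        φ (PresentedGroup.mk rels w) := by
      intro w
      have h1 : (FreeGroup.lift (fun x : α ⊕ β =>
        Sum.elim (fun a => φ (PresentedGroup.of a)) t x)).comp (wInl α β) =
        φ.comp (PresentedGroup.mk rels) := by
        apply FreeGroup.ext_hom
        intro a
        simp [wInl]
        rfl
      exact DFunLike.congr_fun h1 w
    rintro r (⟨r, hr, rfl⟩ | ⟨b, p, hp, rfl⟩)
    · rw [h0, PresentedGroup.one_of_mem hr, map_one]
    · rw [map_mul, map_mul, map_mul, map_inv, map_inv, h0, h0, FreeGroup.lift_apply_of]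
      rw [Sum.elim_inr, h b p hp, mul_inv_cancel_right, mul_inv_cancel])

theorem extLift_inl {G : Type} [Group G] (φ : PresentedGroup rels →* G) (t : β → G)
    (h : ∀ b, ∀ p ∈ pairs b, t b * φ (PresentedGroup.mk rels p.1) =
      φ (PresentedGroup.mk rels p.2) * t b) (g : PresentedGroup rels) :
    extLift φ t h (extInl rels pairs g) = φ g := by
  have h1 : (extLift φ t h).comp (extInl rels pairs) = φ := by
    apply PresentedGroup.ext
    intro a
    rw [MonoidHom.comp_apply, extInl_of]
    exact PresentedGroup.toGroup.of _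
  exact DFunLike.congr_fun h1 g

theorem extLift_T {G : Type} [Group G] (φ : PresentedGroup rels →* G) (t : β → G)
    (h : ∀ b, ∀ p ∈ pairs b, t b * φ (PresentedGroup.mk rels p.1) =
      φ (PresentedGroup.mk rels p.2) * t b) (b : β) :
    extLift φ t h (extT rels pairs b) = t b := PresentedGroup.toGroup.of _

theorem ext_hom_ext {G : Type} [Group G] {φ ψ : PresentedGroup (extRels rels pairs) →* G}
    (h1 : ∀ g, φ (extInl rels pairs g) = ψ (extInl rels pairs g))
    (h2 : ∀ b, φ (extT rels pairs b) = ψ (extT rels pairs b)) : φ = ψ := by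
  apply PresentedGroup.ext
  rintro (a | b)
  · rw [← extInl_of]; exact h1 _
  · exact h2 b

/-- The hypotheses for the extension step -/
structure StepData {V : Type} (adj : V → V → Prop) (rels : Set (FreeGroup α))
    (pairs : β → Set (FreeGroup α × FreeGroup α)) (κ : PresentedGroup rels →* Raag adj)
    (T : β → Set V) (z : β → Raag adj) : Prop where
  inj : Function.Injective κ
  memT : ∀ b, ∀ p ∈ pairs b, κ (PresentedGroup.mk rels p.1) ∈ parab adj (T b)
  conj : ∀ b, ∀ p ∈ pairs b, κ (PresentedGroup.mk rels p.2) =
    z b * κ (PresentedGroup.mk rels p.1) * (z b)⁻¹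
  cl1 : ∀ b g, κ g ∈ parab adj (T b) →
    g ∈ Subgroup.closure ((fun p => PresentedGroup.mk rels (Prod.fst p)) '' pairs b)
  cl2 : ∀ b g, (z b)⁻¹ * κ g * z b ∈ parab adj (T b) →
    g ∈ Subgroup.closure ((fun p => PresentedGroup.mk rels (Prod.snd p)) '' pairs b)

variable {V : Type} {adj : V → V → Prop} {κ : PresentedGroup rels →* Raag adj}
    {T : β → Set V} {z : β → Raag adj}

theorem StepData.rel (S : StepData adj rels pairs κ T z) (b : β) (p : FreeGroup α × FreeGroup α)
    (hp : p ∈ pairs b) :
    (incl adj T (z b) * newGen adj T b) * (incl adj T).comp κ (PresentedGroup.mk rels p.1) =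
    (incl adj T).comp κ (PresentedGroup.mk rels p.2) * (incl adj T (z b) * newGen adj T b) := by
  rw [MonoidHom.comp_apply, MonoidHom.comp_apply, S.conj b p hp, mul_assoc,
    (newGen_comm b (S.memT b p hp)).eq, map_mul, map_mul, map_inv]
  group

/-- the embedding -/
def StepData.emb (S : StepData adj rels pairs κ T z) :
    PresentedGroup (extRels rels pairs) →* Raag (extAdj adj T) :=
  extLift ((incl adj T).comp κ) (fun b => incl adj T (z b) * newGen adj T b) S.rel

theorem StepData.emb_inl (S : StepData adj rels pairs κ T z) (g : PresentedGroup rels) :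
    S.emb (extInl rels pairs g) = incl adj T (κ g) := extLift_inl _ _ _ g

theorem StepData.emb_T (S : StepData adj rels pairs κ T z) (b : β) :
    S.emb (extT rels pairs b) = incl adj T (z b) * newGen adj T b := extLift_T _ _ _ b

theorem StepData.embData (S : StepData adj rels pairs κ T z) :
    EmbData adj T (extInl rels pairs) κ (extT rels pairs) z S.emb where
  inj := S.inj
  gen := ext_gen rels pairs
  H1 := by
    intro b g hg
    have hg' := S.cl1 b g hg
    clear hg
    induction hg' using Subgroup.closure_induction with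
    | mem x hx =>
      obtain ⟨p, hp, rfl⟩ := hx
      exact ⟨PresentedGroup.mk rels p.2, S.conj b p hp, extT_rel rels pairs b hp⟩
    | one => exact ⟨1, by simp, by simp⟩
    | mul x y _ _ hx hy =>
      obtain ⟨x', h1, h2⟩ := hx
      obtain ⟨y', h3, h4⟩ := hy
      refine ⟨x' * y', ?_, ?_⟩
      · rw [map_mul, map_mul, h1, h3]; group
      · rw [map_mul, map_mul, ← mul_assoc, h2, mul_assoc, h4, mul_assoc]
    | inv x _ hx =>
      obtain ⟨x', h1, h2⟩ := hx
      refine ⟨x'⁻¹, ?_, ?_⟩
      · rw [map_inv, map_inv, h1]; group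
      · rw [map_inv, map_inv, mul_inv_eq_iff_eq_mul, mul_assoc, h2, inv_mul_cancel_left]
  H2 := by
    intro b g hg
    have hg' := S.cl2 b g hg
    clear hg
    induction hg' using Subgroup.closure_induction with
    | mem x hx =>
      obtain ⟨p, hp, rfl⟩ := hx
      refine ⟨PresentedGroup.mk rels p.1, ?_, (extT_rel rels pairs b hp).symm⟩
      show _ = (z b)⁻¹ * κ (PresentedGroup.mk rels p.2) * z b
      rw [S.conj b p hp]
      group
    | one => exact ⟨1, by simp, by simp⟩
    | mul x y _ _ hx hy =>
      obtain ⟨x', h1, h2⟩ := hx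
      obtain ⟨y', h3, h4⟩ := hy
      refine ⟨x' * y', ?_, ?_⟩
      · rw [map_mul, map_mul, h1, h3]; group
      · rw [map_mul, map_mul, mul_assoc, h4, ← mul_assoc, h2, mul_assoc]
    | inv x _ hx =>
      obtain ⟨x', h1, h2⟩ := hx
      refine ⟨x'⁻¹, ?_, ?_⟩
      · rw [map_inv, map_inv, h1]; group
      · rw [map_inv, map_inv, inv_mul_eq_iff_eq_mul, ← mul_assoc, h2, mul_inv_cancel_right]
  hi := S.emb_inl
  ht := S.emb_T

theorem StepData.emb_injective (S : StepData adj rels pairs κ T z) :
    Function.Injective S.emb := embed_injective S.embData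

theorem StepData.emb_range (S : StepData adj rels pairs κ T z)
    {g : PresentedGroup (extRels rels pairs)} {m : Raag adj} (h : S.emb g = incl adj T m) :
    ∃ g0, extInl rels pairs g0 = g ∧ κ g0 = m := embed_range S.embData h

theorem StepData.extInl_injective (S : StepData adj rels pairs κ T z) :
    Function.Injective (extInl rels pairs) := by
  intro x y hxy
  apply S.inj
  apply incl_injective (adj := adj) (T := T)
  rw [← S.emb_inl, ← S.emb_inl, hxy]

end HNN

end Pool.Agent.RaagDehn
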