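import Pool.Agent.Work.RaagDehn.Twist

/-!
# Multiple extension of a free group inside the free product, via a family of twists
-/

set_option autoImplicit false

namespace Pool.Agent.RaagDehn

theorem closure_range_comp {G I : Type} [Group G] (f : FreeGroup I →* G) :
    Subgroup.closure (Set.range (fun l => f (FreeGroup.of l))) = f.range := by
  have h : Set.range (fun l => f (FreeGroup.of l)) = f '' Set.range FreeGroup.of := by
    rw [← Set.range_comp]; rfl
  rw [h, ← MonoidHom.map_closure, FreeGroup.closure_range_of, MonoidHom.range_eq_map]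

theorem closure_mono' {G : Type} [Group G] {S : Set G} {K : Subgroup G} (h : ∀ x ∈ S, x ∈ K)
    {g : G} (hg : g ∈ Subgroup.closure S) : g ∈ K := (Subgroup.closure_le K).2 h hg

section Fam

variable {VA X R O Y : Type} {adjA : VA → VA → Prop}

/-- the pairs -/
def famPairs (src tgt : R → O → FreeGroup Y) (r : R) : Set (FreeGroup Y × FreeGroup Y) :=
  Set.range (fun o => (src r o, tgt r o))

/-- Data for the multiple extension. -/
structure FamData (mu : PresentedGroup (∅ : Set (FreeGroup Y)) →* Raag (adjM X adjA))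
    (sx : R → O → X) (gO hO : R → O → Raag (adjM X adjA)) (src tgt : R → O → FreeGroup Y)
    (zM : R → Raag (adjM X adjA)) : Prop where
  muinj : Function.Injective mu
  sinj : ∀ r, Function.Injective (sx r)
  hg : ∀ r o, gO r o ∈ fixN (Set.range (sx r))ᶜ adjA
  hh : ∀ r o, hO r o ∈ fixN (Set.range (sx r))ᶜ adjA
  hsrc : ∀ r o, mu (PresentedGroup.mk ∅ (src r o)) = gO r o * mX adjA (sx r o) * hO r o
  htgt : ∀ r o, mu (PresentedGroup.mk ∅ (tgt r o)) =
    zM r * mu (PresentedGroup.mk ∅ (src r o)) * (zM r)⁻¹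

/-- the factors -/
noncomputable def famPhi (sx : R → O → X) (gO hO : R → O → Raag (adjM X adjA)) :
    Option R → Raag (adjM X adjA) →* Raag (adjM X adjA)
  | none => MonoidHom.id _
  | some r => tw' (sx r) (gO r) (hO r)

/-- adjacency of the multiple -/
abbrev famAdj (X R : Type) (adjA : VA → VA → Prop) :
    (Σ _ : Option R, VA ⊕ X) → (Σ _ : Option R, VA ⊕ X) → Prop :=
  JAdj (fun _ : Option R => adjM X adjA)

/-- the parabolics -/
def famT (VA : Type) (sx : R → O → X) (r : R) : Set (Σ _ : Option R, VA ⊕ X) :=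
  jSet (fun k => {v | k = some r → v ∈ Set.range (fun o => (Sum.inr (sx r o) : VA ⊕ X))})

variable [DecidableEq R] [Fintype R]

/-- the diagonal map of the free product -/
noncomputable def famK (sx : R → O → X) (gO hO : R → O → Raag (adjM X adjA)) :
    Raag (adjM X adjA) →* Raag (famAdj X R adjA) :=
  jHom (fun _ : Option R => adjM X adjA) (famPhi sx gO hO)

theorem famK_injective (sx : R → O → X) (gO hO : R → O → Raag (adjM X adjA)) :
    Function.Injective (famK sx gO hO) := by
  apply jHom_injective_of (k := none)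
  exact fun _ _ h => h

theorem famK_mem (sx : R → O → X) (gO hO : R → O → Raag (adjM X adjA)) (r : R)
    (m : Raag (adjM X adjA)) :
    famK sx gO hO m ∈ parab (famAdj X R adjA) (famT VA sx r) ↔
    tw' (sx r) (gO r) (hO r) m ∈
      parab (adjM X adjA) (Set.range (fun o => (Sum.inr (sx r o) : VA ⊕ X))) := by
  unfold famK famT
  rw [jHom_mem_parab]
  constructor
  · intro h
    have h1 := h (some r)
    have h2 : {v : VA ⊕ X | some r = some r →
        v ∈ Set.range (fun o => (Sum.inr (sx r o) : VA ⊕ X))} =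
        Set.range (fun o => (Sum.inr (sx r o) : VA ⊕ X)) := by
      ext v; simp
    rw [h2] at h1
    exact h1
  · intro h k
    by_cases hk : k = some r
    · subst hk
      have h2 : {v : VA ⊕ X | some r = some r →
        v ∈ Set.range (fun o => (Sum.inr (sx r o) : VA ⊕ X))} =
        Set.range (fun o => (Sum.inr (sx r o) : VA ⊕ X)) := by
        ext v; simp
      rw [h2]
      exact h
    · have : {v : VA ⊕ X | k = some r →
          v ∈ Set.range (fun o => (Sum.inr (sx r o) : VA ⊕ X))} = Set.univ := by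
        ext v
        simp [hk]
      rw [this]
      exact mem_parab_univ _

/-- the parabolic of the base in the zeroth factor -/
def famTA (VA X R : Type) : Set (Σ _ : Option R, VA ⊕ X) :=
  jSet (fun k => {v | k = none → v ∈ Sum.inl '' (Set.univ : Set VA)})

theorem famK_memA (sx : R → O → X) (gO hO : R → O → Raag (adjM X adjA))
    (m : Raag (adjM X adjA)) :
    famK sx gO hO m ∈ parab (famAdj X R adjA) (famTA VA X R) ↔ ∃ a, mIn X adjA a = m := by
  unfold famK famTA
  rw [jHom_mem_parab]
  have h2 : {v : VA ⊕ X | (none : Option R) = none → v ∈ Sum.inl '' (Set.univ : Set VA)} =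
        Sum.inl '' (Set.univ : Set VA) := by
      ext v; simp
  constructor
  · intro h
    have h1 := h none
    rw [h2] at h1
    obtain ⟨a, _, ha⟩ := parab_inl_image h1
    exact ⟨a, ha⟩
  · rintro ⟨a, rfl⟩ k
    by_cases hk : k = none
    · subst hk
      rw [h2]
      exact incl_mem_parab (mem_parab_univ a)
    · have : {v : VA ⊕ X | k = none → v ∈ Sum.inl '' (Set.univ : Set VA)} = Set.univ := by
        ext v
        simp [hk]
      rw [this]
      exact mem_parab_univ _

variable {mu : PresentedGroup (∅ : Set (FreeGroup Y)) →* Raag (adjM X adjA)}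
    {sx : R → O → X} {gO hO : R → O → Raag (adjM X adjA)} {src tgt : R → O → FreeGroup Y}
    {zM : R → Raag (adjM X adjA)}

omit [DecidableEq R] [Fintype R] in
theorem FamData.mem_cl (F : FamData mu sx gO hO src tgt zM) (r : R) (m : Raag (adjM X adjA))
    (h : tw' (sx r) (gO r) (hO r) m ∈
      parab (adjM X adjA) (Set.range (fun o => (Sum.inr (sx r o) : VA ⊕ X)))) :
    m ∈ Subgroup.closure (Set.range (fun o => mu (PresentedGroup.mk ∅ (src r o)))) := by
  have h1 := mem_closure_of_section (φ := fun m => tw' (sx r) (gO r) (hO r) m)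
    (θ := tw (sx r) (gO r) (hO r)) (tw_tw' (F.sinj r) (F.hg r) (F.hh r)) h
  refine closure_mono' ?_ h1
  rintro _ ⟨_, ⟨o, rfl⟩, rfl⟩
  refine Subgroup.subset_closure ⟨o, ?_⟩
  show mu (PresentedGroup.mk ∅ (src r o)) = tw (sx r) (gO r) (hO r) (mX adjA (sx r o))
  rw [tw_mX (F.sinj r), F.hsrc]

theorem FamData.step (F : FamData mu sx gO hO src tgt zM) :
    StepData (famAdj X R adjA) (∅ : Set (FreeGroup Y)) (famPairs src tgt)
      ((famK sx gO hO).comp mu) (famT VA sx) (fun r => famK sx gO hO (zM r)) where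
  inj := (famK_injective sx gO hO).comp F.muinj
  memT := by
    rintro r _ ⟨o, rfl⟩
    rw [MonoidHom.comp_apply, famK_mem]
    show tw' (sx r) (gO r) (hO r) (mu (PresentedGroup.mk ∅ (src r o))) ∈ _
    rw [F.hsrc, ← tw_mX (F.sinj r), tw'_tw (F.sinj r) (F.hg r) (F.hh r)]
    exact gen_mem_parab ⟨o, rfl⟩
  conj := by
    rintro r _ ⟨o, rfl⟩
    show famK sx gO hO (mu (PresentedGroup.mk ∅ (tgt r o))) =
      famK sx gO hO (zM r) * famK sx gO hO (mu (PresentedGroup.mk ∅ (src r o))) *
      (famK sx gO hO (zM r))⁻¹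
    rw [F.htgt, map_mul, map_mul, map_inv]
  cl1 := by
    intro r g hg
    rw [MonoidHom.comp_apply, famK_mem] at hg
    have h1 := F.mem_cl r _ hg
    have h2 : Set.range (fun o => mu (PresentedGroup.mk ∅ (src r o))) =
        mu '' (Set.range (fun o => PresentedGroup.mk ∅ (src r o))) := by
      rw [← Set.range_comp]; rfl
    rw [h2, ← MonoidHom.map_closure] at h1
    obtain ⟨g', h3, h4⟩ := h1
    have h5 : g' = g := F.muinj h4
    rw [h5] at h3
    refine closure_mono' ?_ h3
    rintro _ ⟨o, rfl⟩
    exact Subgroup.subset_closure ⟨(src r o, tgt r o), ⟨o, rfl⟩, rfl⟩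
  cl2 := by
    intro r g hg
    rw [MonoidHom.comp_apply, ← map_inv, ← map_mul, ← map_mul, famK_mem] at hg
    have h1 := F.mem_cl r _ hg
    have h2 : Set.range (fun o => mu (PresentedGroup.mk ∅ (src r o))) =
        (MulAut.conj (zM r)⁻¹).toMonoidHom ''
        (mu '' (Set.range (fun o => PresentedGroup.mk ∅ (tgt r o)))) := by
      rw [← Set.range_comp, ← Set.range_comp]
      congr 1
      funext o
      show mu (PresentedGroup.mk ∅ (src r o)) =
        (zM r)⁻¹ * mu (PresentedGroup.mk ∅ (tgt r o)) * (zM r)⁻¹⁻¹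
      rw [F.htgt]
      group
    rw [h2, ← MonoidHom.map_closure, ← MonoidHom.map_closure] at h1
    obtain ⟨_, ⟨g', h3, rfl⟩, h4⟩ := h1
    have h6 : (zM r)⁻¹ * mu g' * (zM r)⁻¹⁻¹ = (zM r)⁻¹ * mu g * zM r := h4
    rw [inv_inv] at h6
    have h7 : mu g' = mu g := mul_left_cancel (mul_right_cancel h6)
    have h5 : g' = g := F.muinj h7
    rw [h5] at h3
    refine closure_mono' ?_ h3
    rintro _ ⟨o, rfl⟩
    exact Subgroup.subset_closure ⟨(src r o, tgt r o), ⟨o, rfl⟩, rfl⟩

end Fam

end Pool.Agent.RaagDehn
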