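import Pool.Agent.Work.RaagDehn.Main

/-!
# Finiteness and transport
-/

set_option autoImplicit false

namespace Pool.Agent.RaagDehn

/-! ### Word length -/

/-- words of length at most `n` -/
def Len {α : Type} (n : ℕ) (w : FreeGroup α) : Prop :=
  ∃ L : List (α × Bool), L.length ≤ n ∧ w = FreeGroup.mk L

theorem Len.mul {α : Type} {n m : ℕ} {u v : FreeGroup α} (hu : Len n u) (hv : Len m v) :
    Len (n + m) (u * v) := by
  obtain ⟨L, hL, rfl⟩ := hu
  obtain ⟨L', hL', rfl⟩ := hv
  exact ⟨L ++ L', by rw [List.length_append]; omega, FreeGroup.mul_mk⟩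

theorem Len.inv {α : Type} {n : ℕ} {u : FreeGroup α} (hu : Len n u) : Len n u⁻¹ := by
  obtain ⟨L, hL, rfl⟩ := hu
  exact ⟨FreeGroup.invRev L, by rw [FreeGroup.invRev_length]; exact hL, FreeGroup.inv_mk⟩

theorem Len.of {α : Type} (a : α) : Len 1 (FreeGroup.of a) := ⟨[(a, true)], le_refl _, rfl⟩

theorem Len.pow {α : Type} {u : FreeGroup α} (hu : Len 1 u) (n : ℕ) : Len n (u ^ n) := by
  induction n with
  | zero => exact ⟨[], le_refl _, by rw [pow_zero]; rfl⟩
  | succ n ih => rw [pow_succ]; exact ih.mul hu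

theorem Len.map {α β : Type} {n : ℕ} {u : FreeGroup α} (hu : Len n u) (f : α → β) :
    Len n (FreeGroup.map f u) := by
  obtain ⟨L, hL, rfl⟩ := hu
  exact ⟨_, by rw [List.length_map]; exact hL, FreeGroup.map.mk⟩

theorem Len.mono {α : Type} {n m : ℕ} {u : FreeGroup α} (hu : Len n u) (h : n ≤ m) : Len m u := by
  obtain ⟨L, hL, rfl⟩ := hu
  exact ⟨L, hL.trans h, rfl⟩

section

variable {VA I : Type} {adjA : VA → VA → Prop} (B : BaseData adjA I)

theorem sy_len (x : LT I) {q : ℤ} (hq : q ∈ Finset.Icc (-2 : ℤ) 2) : Len 1 (sy x q) := by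
  rw [sy_of hq]
  exact Len.of _

theorem uW_len (k : ℕ) : Len (6 * k + 1) (uW B k) := by
  have h1 : Len 1 (sLet I) := Len.of _
  have h2 : Len 1 (secW I (FreeGroup.of B.v)) := by
    have h3 : secW I (FreeGroup.of B.v) = wInl (Sym I) (RIdx I) (sy (LT.c B.v) 0) := by
      show wInl (Sym I) (RIdx I) (secS I (FreeGroup.of B.v)) = _
      rw [secS, FreeGroup.lift_apply_of]
    rw [h3]
    exact (sy_len _ zero_win).map _
  exact (((h1.pow (3 * k)).mul (h2.map _)).mul (h1.pow (3 * k)).inv).mono (by omega)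

theorem wW_len (k : ℕ) : Len (12 * k + 3) (wW B k) := by
  have h1 : Len 1 (sy (LT.a true : LT I) 1) := sy_len _ one_win
  exact (((uW_len B k).mul ((h1.map _).map _)).mul (uW_len B k).inv).mono (by omega)

theorem finW_len (k : ℕ) : Len (24 * k + 8) (finW B k) := by
  have h1 : Len 1 (FreeGroup.of (Sum.inr ()) : FreeGroup (((Sym I ⊕ RIdx I) ⊕ Unit) ⊕ Unit)) :=
    Len.of _
  exact (((h1.mul ((wW_len B k).map _)).mul h1.inv).mul ((wW_len B k).map _).inv).mono (by omega)

/-! ### Finiteness -/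

theorem extRels_finite {α β : Type} [Finite β] {rels : Set (FreeGroup α)}
    {pairs : β → Set (FreeGroup α × FreeGroup α)} (h1 : rels.Finite)
    (h2 : ∀ b, (pairs b).Finite) : (extRels rels pairs).Finite := by
  refine (h1.image _).union ?_
  have h3 : {r : FreeGroup (α ⊕ β) | ∃ b : β, ∃ p ∈ pairs b,
      r = FreeGroup.of (Sum.inr b) * wInl α β p.1 *
      (FreeGroup.of (Sum.inr b))⁻¹ * (wInl α β p.2)⁻¹} =
      ⋃ b : β, (fun p : FreeGroup α × FreeGroup α => FreeGroup.of (Sum.inr b) * wInl α β p.1 *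
      (FreeGroup.of (Sum.inr b))⁻¹ * (wInl α β p.2)⁻¹) '' pairs b := by
    ext r
    simp only [Set.mem_ofPred_eq, Set.mem_iUnion, Set.mem_image]
    constructor
    · rintro ⟨b, p, hp, h⟩; exact ⟨b, p, hp, h.symm⟩
    · rintro ⟨b, p, hp, h⟩; exact ⟨b, p, hp, h.symm⟩
  rw [h3]
  exact Set.finite_iUnion fun b => (h2 b).image _

instance [Finite I] : Finite (LT I) := by
  refine Finite.of_injective (β := I ⊕ (Bool × I) ⊕ Bool) (fun x => match x with
    | LT.c l => Sum.inl l
    | LT.e f l => Sum.inr (Sum.inl (f, l))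
    | LT.a i => Sum.inr (Sum.inr i)) ?_
  rintro (l | ⟨f, l⟩ | i) (l' | ⟨f', l'⟩ | i') h <;> simp_all

instance [Finite I] : Finite (XF I) := by
  refine Finite.of_injective (β := (Bool × I) ⊕ Bool ⊕ Unit) (fun x => match x with
    | XF.e f l => Sum.inl (f, l)
    | XF.a i => Sum.inr (Sum.inl i)
    | XF.y => Sum.inr (Sum.inr ())) ?_
  rintro (⟨f, l⟩ | i | _) (⟨f', l'⟩ | i' | _) h <;> simp_all

theorem Dset_finite [Finite I] : (Dset I).Finite := by
  have h1 : (Set.range (fun x : LT I × Q5 => wInl (Sym I) (RIdx I) (sy x.1 x.2.1))).Finite :=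
    Set.finite_range _
  have h2 : (Set.range (fun x : Bool × I => wInl (Sym I) (RIdx I)
    ((sy (LT.c x.2) 0)⁻¹ * sy (LT.e x.1 x.2) 0))).Finite := Set.finite_range _
  have h3 : (Set.range (fun i : Bool => wInl (Sym I) (RIdx I)
    (sy (LT.a i : LT I) 0))).Finite := Set.finite_range _
  have h4 : (Set.range (fun r : RIdx I =>
    (FreeGroup.of (Sum.inr r) : FreeGroup (Sym I ⊕ RIdx I)))).Finite := Set.finite_range _
  refine (((h1.union h2).union h3).union h4).subset ?_
  rintro w (⟨x, q, hq, h0, rfl⟩ | ⟨f, l, rfl⟩ | ⟨i, rfl⟩ | ⟨r, rfl⟩)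
  · exact Or.inl (Or.inl (Or.inl ⟨(x, ⟨q, hq⟩), rfl⟩))
  · exact Or.inl (Or.inl (Or.inr ⟨(f, l), rfl⟩))
  · exact Or.inl (Or.inr ⟨i, rfl⟩)
  · exact Or.inr ⟨r, rfl⟩

theorem relsP_finite [Finite I] : (relsP B).Finite := by
  refine extRels_finite (extRels_finite (extRels_finite Set.finite_empty ?_) ?_) ?_
  · intro r; exact Set.finite_range _
  · intro r; exact Set.finite_range _
  · intro r; exact Dset_finite.image _

end

/-- The abstract form of the result. -/
theorem package : ∃ (α : Type) (_ : Finite α) (rels : Set (FreeGroup α)) (_ : rels.Finite)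
    (V : Type) (_ : Finite V) (adj : V → V → Prop) (ι : PresentedGroup rels →* Raag adj),
    Function.Injective ι ∧ ∀ k : ℕ, ∃ w : FreeGroup α, Len (24 * k + 8) w ∧
      w ∈ Subgroup.normalClosure rels ∧
      ∀ l : List (FreeGroup α × FreeGroup α), (∀ p ∈ l, p.2 ∈ rels ∨ p.2⁻¹ ∈ rels) →
        w = (l.map (fun p => p.1 * p.2 * p.1⁻¹)).prod → (2 : ℤ) ^ (2 ^ k) ≤ l.length := by
  have : ∀ b, Finite (cW2 ((Σ _ : Option (RIdx I7), VBase ⊕ XF I7) ⊕ RIdx I7) Unit VBase b) := by
    intro b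
    cases b
    · show Finite VBase
      infer_instance
    · show Finite (((Σ _ : Option (RIdx I7), VBase ⊕ XF I7) ⊕ RIdx I7) ⊕ Unit)
      infer_instance
  refine ⟨_, ?_, relsP baseData, relsP_finite baseData, _, ?_, _, (S3 baseData).emb,
    (S3 baseData).emb_injective, ?_⟩
  · infer_instance
  · infer_instance
  · intro k
    exact ⟨finW baseData k, finW_len baseData k, finW_mem baseData k, finW_area baseData k⟩

/-! ### Transport -/

theorem raag_embed {V : Type} [Finite V] (adj : V → V → Prop) :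
    ∃ k : ℕ, ∃ Γ : SimpleGraph (Fin k), ∃ φ : Raag adj →* Raag Γ.Adj, Function.Injective φ := by
  obtain ⟨k, ⟨e⟩⟩ := Finite.exists_equiv_fin V
  refine ⟨k, SimpleGraph.fromRel (fun a b => adj (e.symm a) (e.symm b)), ?_, ?_⟩
  · refine lift (fun v => gen _ (e v)) ?_
    intro a b hab
    by_cases h : a = b
    · rw [h]
    · apply gen_comm
      rw [SimpleGraph.fromRel_adj]
      exact ⟨fun h2 => h (e.injective h2), Or.inl (by simpa using hab)⟩
  · let ψ : Raag (SimpleGraph.fromRel (fun a b => adj (e.symm a) (e.symm b))).Adj →* Raag adj :=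
      lift (fun x => gen adj (e.symm x)) (by
        intro a b hab
        rw [SimpleGraph.fromRel_adj] at hab
        rcases hab.2 with h | h
        · exact gen_comm h
        · exact (gen_comm h).symm)
    apply Function.LeftInverse.injective (g := ψ)
    intro x
    have h : ψ.comp (lift (fun v => gen _ (e v)) (by
      intro a b hab
      by_cases h : a = b
      · rw [h]
      · apply gen_comm
        rw [SimpleGraph.fromRel_adj]
        exact ⟨fun h2 => h (e.injective h2), Or.inl (by simpa using hab)⟩)) =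
        MonoidHom.id (Raag adj) := by
      apply hom_ext
      intro v
      simp [ψ]
    exact DFunLike.congr_fun h x

theorem arith (C : ℕ) : ∃ k : ℕ, C * 2 ^ (C * (24 * k + 8)) + C < 2 ^ (2 ^ k) := by
  refine ⟨2 * C + 12, ?_⟩
  have h1 : C < 2 ^ C := Nat.lt_two_pow_self
  have h2 : C * 2 ^ (C * (24 * (2 * C + 12) + 8)) + C <
      2 ^ (C + C * (24 * (2 * C + 12) + 8) + 1) := by
    have h3 : 1 ≤ 2 ^ (C * (24 * (2 * C + 12) + 8)) := Nat.one_le_two_pow
    generalize C * (24 * (2 * C + 12) + 8) = X at *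
    rw [pow_succ, pow_add]
    nlinarith
  refine h2.trans_le (Nat.pow_le_pow_right (by norm_num) ?_)
  have h4 : 2 ^ (2 * C + 12) = 4096 * (2 ^ C * 2 ^ C) := by
    rw [pow_add, two_mul, pow_add]
    norm_num
    ring
  rw [h4]
  nlinarith

end Pool.Agent.RaagDehn
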