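import Pool.Agent.Work.RaagDehn.Ext

/-!
# Joins of finitely many RAAGs, and closed subgroups
-/

set_option autoImplicit false

namespace Pool.Agent.RaagDehn

section Join

variable {K : Type} {W : K → Type} (adjs : ∀ k, W k → W k → Prop)

/-- join adjacency -/
inductive JAdj : (Σ k, W k) → (Σ k, W k) → Prop
  | diff {k k' : K} (h : k ≠ k') (v : W k) (v' : W k') : JAdj ⟨k, v⟩ ⟨k', v'⟩
  | same {k : K} {v v' : W k} (h : adjs k v v') : JAdj ⟨k, v⟩ ⟨k, v'⟩

/-- inclusion of a factor -/
def jIn (k : K) : Raag (adjs k) →* Raag (JAdj adjs) :=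
  lift (fun v => gen (JAdj adjs) ⟨k, v⟩) (fun _ _ h => gen_comm (JAdj.same h))

theorem jIn_gen (k : K) (v : W k) : jIn adjs k (gen (adjs k) v) = gen (JAdj adjs) ⟨k, v⟩ :=
  lift_gen _ _ _

variable [DecidableEq K]

/-- projection to a factor -/
def jPr (k : K) : Raag (JAdj adjs) →* Raag (adjs k) :=
  lift (fun x => if h : x.1 = k then gen (adjs k) (h ▸ x.2) else 1) (by
    intro a b hab
    cases hab with
    | @diff k1 k2 h v v' =>
      by_cases h1 : k1 = k
      · have h2 : ¬ (k2 = k) := fun h2 => h (h1.trans h2.symm)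
        simp only [h2, dif_neg, not_false_eq_true]
        exact Commute.one_right _
      · simp only [h1, dif_neg, not_false_eq_true]
        exact Commute.one_left _
    | @same k1 v v' h =>
      by_cases h1 : k1 = k
      · subst h1
        simp only [dif_pos]
        exact gen_comm h
      · simp only [h1, dif_neg, not_false_eq_true]
        exact Commute.one_left _)

theorem jPr_gen_same (k : K) (v : W k) : jPr adjs k (gen (JAdj adjs) ⟨k, v⟩) = gen (adjs k) v := by
  rw [jPr, lift_gen]
  simp

theorem jPr_gen_diff {k k' : K} (h : k' ≠ k) (v : W k') :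
    jPr adjs k (gen (JAdj adjs) ⟨k', v⟩) = 1 := by
  rw [jPr, lift_gen]
  simp [h]

theorem jPr_jIn_same (k : K) (x : Raag (adjs k)) : jPr adjs k (jIn adjs k x) = x := by
  have : (jPr adjs k).comp (jIn adjs k) = MonoidHom.id _ := by
    apply hom_ext
    intro v
    simp [jIn_gen, jPr_gen_same]
  exact DFunLike.congr_fun this x

theorem jPr_jIn_diff {k k' : K} (h : k' ≠ k) (x : Raag (adjs k')) :
    jPr adjs k (jIn adjs k' x) = 1 := by
  have : (jPr adjs k).comp (jIn adjs k') = 1 := by
    apply hom_ext
    intro v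
    simp [jIn_gen, jPr_gen_diff adjs h]
  exact DFunLike.congr_fun this x

omit [DecidableEq K] in
theorem jIn_comm : Pairwise fun i j => ∀ x y, Commute (jIn adjs i x) (jIn adjs j y) := by
  intro i j hij x y
  have h1 : ∀ v : W i, ∀ y, Commute (gen (JAdj adjs) ⟨i, v⟩) (jIn adjs j y) := by
    intro v y
    have hy : y ∈ Subgroup.closure (Set.range (gen (adjs j))) := by
      rw [closure_gen]; trivial
    induction hy using Subgroup.closure_induction with
    | mem z hz =>
      obtain ⟨w, rfl⟩ := hz
      rw [jIn_gen]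
      exact gen_comm (JAdj.diff hij v w)
    | one => simp
    | mul a b _ _ ha hb => rw [map_mul]; exact ha.mul_right hb
    | inv a _ ha => rw [map_inv]; exact ha.inv_right
  have hx : x ∈ Subgroup.closure (Set.range (gen (adjs i))) := by
    rw [closure_gen]; trivial
  induction hx using Subgroup.closure_induction with
  | mem z hz =>
    obtain ⟨w, rfl⟩ := hz
    rw [jIn_gen]
    exact h1 w y
  | one => simp
  | mul a b _ _ ha hb => rw [map_mul]; exact ha.mul_left hb
  | inv a _ ha => rw [map_inv]; exact ha.inv_left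

variable [Fintype K] {G : Type} [Group G] (φ : ∀ k, G →* Raag (adjs k))

/-- the diagonal map to the join -/
noncomputable def jHom : G →* Raag (JAdj adjs) :=
  (MonoidHom.noncommPiCoprod (jIn adjs) (jIn_comm adjs)).comp (MonoidHom.pi φ)

theorem jPr_jHom (k : K) (g : G) : jPr adjs k (jHom adjs φ g) = φ k g := by
  have h : (jPr adjs k).comp (MonoidHom.noncommPiCoprod (jIn adjs) (jIn_comm adjs)) =
      Pi.evalMonoidHom _ k := by
    apply MonoidHom.pi_ext
    intro i x
    rw [MonoidHom.comp_apply, MonoidHom.noncommPiCoprod_mulSingle]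
    by_cases h : i = k
    · subst h
      simp [jPr_jIn_same]
    · rw [jPr_jIn_diff adjs h]
      simp [Pi.mulSingle_eq_of_ne (Ne.symm h)]
  exact DFunLike.congr_fun h (fun k => φ k g)

/-- the vertex set of a family of vertex sets -/
def jSet (S : ∀ k, Set (W k)) : Set (Σ k, W k) := {x | x.2 ∈ S x.1}

theorem jHom_mem_parab (S : ∀ k, Set (W k)) (g : G) :
    jHom adjs φ g ∈ parab (JAdj adjs) (jSet S) ↔ ∀ k, φ k g ∈ parab (adjs k) (S k) := by
  constructor
  · intro h k
    have h1 : parab (JAdj adjs) (jSet S) ≤ (parab (adjs k) (S k)).comap (jPr adjs k) := by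
      apply parab_le
      rintro ⟨k', v⟩ hv
      rw [Subgroup.mem_comap]
      by_cases hk : k' = k
      · subst hk
        rw [jPr_gen_same]
        exact gen_mem_parab hv
      · rw [jPr_gen_diff adjs hk]
        exact one_mem _
    have h2 := h1 h
    rw [Subgroup.mem_comap, jPr_jHom] at h2
    exact h2
  · intro h
    rw [jHom, MonoidHom.comp_apply, MonoidHom.noncommPiCoprod_apply]
    apply Subgroup.noncommProd_mem
    intro k _
    have h1 : parab (adjs k) (S k) ≤ (parab (JAdj adjs) (jSet S)).comap (jIn adjs k) := by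
      apply parab_le
      intro v hv
      rw [Subgroup.mem_comap, jIn_gen]
      exact gen_mem_parab (T := jSet S) (v := ⟨k, v⟩) hv
    exact h1 (h k)

theorem jHom_injective_of (k : K) (h : Function.Injective (φ k)) :
    Function.Injective (jHom adjs φ) := by
  intro x y hxy
  apply h
  rw [← jPr_jHom adjs φ k, ← jPr_jHom adjs φ k, hxy]

end Join

theorem parab_univ {V : Type} (adj : V → V → Prop) : parab adj Set.univ = ⊤ := by
  rw [parab, Set.image_univ, closure_gen]

theorem mem_parab_univ {V : Type} {adj : V → V → Prop} (x : Raag adj) :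
    x ∈ parab adj Set.univ := by rw [parab_univ]; trivial

theorem mem_parab_empty {V : Type} {adj : V → V → Prop} {x : Raag adj}
    (h : x ∈ parab adj ∅) : x = 1 := by
  rw [parab, Set.image_empty, Subgroup.closure_empty] at h
  exact h

end Pool.Agent.RaagDehn
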