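import Pool.Agent.Work.RaagDehn.Chain

/-!
# Level two: the letters, the words, the family data
-/

set_option autoImplicit false

namespace Pool.Agent.RaagDehn

/-- the new letters of the free product -/
inductive XF (I : Type) : Type
  | e (f : Bool) (l : I)
  | a (i : Bool)
  | y

/-- the letters with index -/
inductive LT (I : Type) : Type
  | c (l : I)
  | e (f : Bool) (l : I)
  | a (i : Bool)

/-- window -/
abbrev Q5 : Type := {q : ℤ // q ∈ Finset.Icc (-2 : ℤ) 2}

/-- symbols -/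
abbrev Sym (I : Type) : Type := LT I × Q5

/-- index type of the stable letters -/
abbrev RIdx (I : Type) : Type := (I × Bool × Bool × I × Q5 × Bool) ⊕ (I × Bool × Bool × Q5)

section Letters

variable {I : Type}

/-- the two dimensional letters -/
abbrev FZ (I : Type) : Type := FreeGroup (LT I × ℤ)

/-- letter -/
def bz (x : LT I) (n : ℤ) : FZ I := FreeGroup.of (x, n)

/-- symbol with integer index -/
noncomputable def sy (x : LT I) (q : ℤ) : FreeGroup (Sym I) :=
  if h : q ∈ Finset.Icc (-2 : ℤ) 2 then FreeGroup.of (x, ⟨q, h⟩) else 1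

theorem sy_of {x : LT I} {q : ℤ} (h : q ∈ Finset.Icc (-2 : ℤ) 2) :
    sy x q = FreeGroup.of (x, ⟨q, h⟩) := dif_pos h

/-- restriction to the window -/
noncomputable def res : FZ I →* FreeGroup (Sym I) := FreeGroup.lift (fun p => sy p.1 p.2)

theorem res_bz (x : LT I) (n : ℤ) : res (bz x n) = sy x n := FreeGroup.lift_apply_of

/-- words in the window -/
def winS (I : Type) : Subgroup (FZ I) :=
  Subgroup.closure {w | ∃ x n, n ∈ Finset.Icc (-2 : ℤ) 2 ∧ w = bz x n}

theorem bz_mem {x : LT I} {n : ℤ} (h : n ∈ Finset.Icc (-2 : ℤ) 2) : bz x n ∈ winS I :=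
  Subgroup.subset_closure ⟨x, n, h, rfl⟩

/-- shift -/
def shf (δ : ℤ) : FZ I →* FZ I := FreeGroup.lift (fun p => bz p.1 (p.2 + δ))

theorem shf_bz (δ : ℤ) (x : LT I) (n : ℤ) : shf δ (bz x n) = bz x (n + δ) :=
  FreeGroup.lift_apply_of

variable {H : Type} [Group H]

/-- hom out of the window group from a family indexed by integers -/
def winHom (φ : LT I → ℤ → H) : PresentedGroup (∅ : Set (FreeGroup (Sym I))) →* H :=
  freeLift (fun p => φ p.1 p.2.1)

/-- hom out of the large free group -/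
def bigHom (φ : LT I → ℤ → H) : FZ I →* H := FreeGroup.lift (fun p => φ p.1 p.2)

theorem bigHom_bz (φ : LT I → ℤ → H) (x : LT I) (n : ℤ) : bigHom φ (bz x n) = φ x n :=
  FreeGroup.lift_apply_of

theorem winHom_sy (φ : LT I → ℤ → H) (x : LT I) {n : ℤ} (h : n ∈ Finset.Icc (-2 : ℤ) 2) :
    winHom φ (PresentedGroup.mk ∅ (sy x n)) = φ x n := by
  rw [sy_of h, winHom, freeLift_mk, FreeGroup.lift_apply_of]

theorem winHom_res (φ : LT I → ℤ → H) {w : FZ I} (hw : w ∈ winS I) :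
    winHom φ (PresentedGroup.mk ∅ (res w)) = bigHom φ w := by
  have h : winS I ≤ (((winHom φ).comp (PresentedGroup.mk ∅)).comp res).eqLocus (bigHom φ) := by
    rw [winS, Subgroup.closure_le]
    rintro _ ⟨x, n, hn, rfl⟩
    show winHom φ (PresentedGroup.mk ∅ (res (bz x n))) = bigHom φ (bz x n)
    rw [res_bz, winHom_sy φ x hn, bigHom_bz]
  exact h hw

/-- the family `y^n x y^{-n}` -/
def conjFam (y : H) (L : LT I → H) (x : LT I) (n : ℤ) : H := y ^ n * L x * y ^ (-n)

theorem bigHom_conj_shf (y : H) (L : LT I → H) (δ : ℤ) (w : FZ I) :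
    bigHom (conjFam y L) (shf δ w) = y ^ δ * bigHom (conjFam y L) w * (y ^ δ)⁻¹ := by
  have h : (bigHom (conjFam y L)).comp (shf δ) =
      (MulAut.conj (y ^ δ)).toMonoidHom.comp (bigHom (conjFam y L)) := by
    apply FreeGroup.ext_hom
    rintro ⟨x, n⟩
    show bigHom (conjFam y L) (shf δ (bz x n)) =
      y ^ δ * bigHom (conjFam y L) (bz x n) * (y ^ δ)⁻¹
    rw [shf_bz, bigHom_bz, bigHom_bz, conjFam, conjFam, add_comm n δ, zpow_add, neg_add_rev,
      zpow_add, zpow_neg y δ]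
    group
  exact DFunLike.congr_fun h w

end Letters

/-! ### the words -/

/-- the direction of the shift -/
def epq (q : ℤ) : ℤ := if q = -1 ∨ q = 2 then -1 else 1

theorem epq_cases (q : ℤ) : epq q = 1 ∨ epq q = -1 := by
  unfold epq; split_ifs <;> simp

theorem epq_win {q : ℤ} (h : q ∈ Finset.Icc (-2 : ℤ) 2) :
    q + epq q ∈ Finset.Icc (-2 : ℤ) 2 := by
  rw [Finset.mem_Icc] at *
  unfold epq
  split_ifs with h1 <;> omega

theorem epq_ne' {q : ℤ} (h : q ∈ Finset.Icc (-2 : ℤ) 2) : q + epq q ≠ 0 := by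
  rw [Finset.mem_Icc] at h
  unfold epq
  split_ifs with h1 <;> omega

theorem epq_self_win (q : ℤ) : epq q ∈ Finset.Icc (-2 : ℤ) 2 := by
  rcases epq_cases q with h | h <;> rw [h] <;> decide

theorem epq_neg_win (q : ℤ) : -epq q ∈ Finset.Icc (-2 : ℤ) 2 := by
  rcases epq_cases q with h | h <;> rw [h] <;> decide

theorem epq_ne0 (q : ℤ) : epq q ≠ 0 := by
  rcases epq_cases q with h | h <;> rw [h] <;> decide

theorem epq_neg_ne0 (q : ℤ) : -epq q ≠ 0 := by
  rcases epq_cases q with h | h <;> rw [h] <;> decide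

/-- the base index of the correcting word -/
def pq (q : ℤ) : ℤ := if epq q = 1 then 0 else 1

theorem pq_win (q : ℤ) : pq q ∈ Finset.Icc (-2 : ℤ) 2 := by
  unfold pq; split_ifs <;> decide

theorem pq_win1 (q : ℤ) : pq q + 1 ∈ Finset.Icc (-2 : ℤ) 2 := by
  unfold pq; split_ifs <;> decide

theorem pq_win2 (q : ℤ) : pq q + epq q ∈ Finset.Icc (-2 : ℤ) 2 := by
  unfold pq
  rcases epq_cases q with h | h <;> rw [h] <;> decide

theorem pq_win3 (q : ℤ) : pq q + 1 + epq q ∈ Finset.Icc (-2 : ℤ) 2 := by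
  unfold pq
  rcases epq_cases q with h | h <;> rw [h] <;> decide

/-- sign -/
def sg : Bool → ℤ
  | true => 1
  | false => -1

/-- exponent -/
def dl (q : ℤ) (χ : Bool) : ℤ := if χ = true ∨ q = 0 then -1 else 0

section Words2

variable {I : Type}

/-- index of a stable letter -/
def RIdx.q : RIdx I → ℤ
  | Sum.inl (_, _, _, _, q, _) => q.1
  | Sum.inr (_, _, _, q) => q.1

theorem RIdx.q_win (r : RIdx I) : r.q ∈ Finset.Icc (-2 : ℤ) 2 := by
  rcases r with ⟨_, _, _, _, q, _⟩ | ⟨_, _, _, q⟩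
  · exact q.2
  · exact q.2

/-- the main words -/
def bword (xz : I → Bool → ℤ → ℤ × ℤ) : RIdx I → Option I → FZ I
  | Sum.inl (j, s, f, l, q, χ), none =>
      bz (LT.c j) 0 ^ sg s * bz (LT.c l) q.1 ^ dl q.1 χ * bz (LT.e f l) q.1 *
        bz (LT.c j) 0 ^ (-sg s)
  | Sum.inl (_, _, f, _, q, _), some k => bz (LT.c k) 0 * bz (LT.e (!f) k) (-epq q.1)
  | Sum.inr (j, s, i, q), none =>
      bz (LT.c j) 0 ^ sg s * bz (LT.a i) q.1 * bz (LT.c j) 0 ^ (-sg s) *
        bz (LT.a (!i)) (pq q.1) ^ (xz j s q.1).1 * bz (LT.a (!i)) (pq q.1 + 1) ^ (xz j s q.1).2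
  | Sum.inr (_, _, _, q), some k => bz (LT.c k) 0 * bz (LT.e false k) (-epq q.1)

theorem zero_win : (0 : ℤ) ∈ Finset.Icc (-2 : ℤ) 2 := by decide

theorem bword_win (xz : I → Bool → ℤ → ℤ × ℤ) (r : RIdx I) (o : Option I) :
    bword xz r o ∈ winS I := by
  rcases r with ⟨j, s, f, l, q, χ⟩ | ⟨j, s, i, q⟩ <;> rcases o with _ | k
  · exact mul_mem (mul_mem (mul_mem (zpow_mem (bz_mem zero_win) _) (zpow_mem (bz_mem q.2) _))
      (bz_mem q.2)) (zpow_mem (bz_mem zero_win) _)
  · exact mul_mem (bz_mem zero_win) (bz_mem (epq_neg_win _))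
  · exact mul_mem (mul_mem (mul_mem (mul_mem (zpow_mem (bz_mem zero_win) _) (bz_mem q.2))
      (zpow_mem (bz_mem zero_win) _)) (zpow_mem (bz_mem (pq_win _)) _))
      (zpow_mem (bz_mem (pq_win1 _)) _)
  · exact mul_mem (bz_mem zero_win) (bz_mem (epq_neg_win _))

theorem bword_shf_win (xz : I → Bool → ℤ → ℤ × ℤ) (r : RIdx I) (o : Option I) :
    shf (epq r.q) (bword xz r o) ∈ winS I := by
  have h0 : ∀ q : ℤ, (0 : ℤ) + epq q ∈ Finset.Icc (-2 : ℤ) 2 := fun q => by
    rw [zero_add]; exact epq_self_win q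
  have h1 : ∀ q : ℤ, -epq q + epq q ∈ Finset.Icc (-2 : ℤ) 2 := fun q => by
    rw [neg_add_cancel]; exact zero_win
  rcases r with ⟨j, s, f, l, q, χ⟩ | ⟨j, s, i, q⟩ <;> rcases o with _ | k <;>
    simp only [bword, _root_.map_mul, map_zpow, shf_bz, RIdx.q]
  · exact mul_mem (mul_mem (mul_mem (zpow_mem (bz_mem (h0 _)) _)
      (zpow_mem (bz_mem (epq_win q.2)) _))
      (bz_mem (epq_win q.2))) (zpow_mem (bz_mem (h0 _)) _)
  · exact mul_mem (bz_mem (h0 _)) (bz_mem (h1 _))
  · exact mul_mem (mul_mem (mul_mem (mul_mem (zpow_mem (bz_mem (h0 _)) _)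
      (bz_mem (epq_win q.2)))
      (zpow_mem (bz_mem (h0 _)) _)) (zpow_mem (bz_mem (pq_win2 _)) _))
      (zpow_mem (bz_mem (pq_win3 _)) _)
  · exact mul_mem (bz_mem (h0 _)) (bz_mem (h1 _))

/-- source words -/
noncomputable def srcW (xz : I → Bool → ℤ → ℤ × ℤ) (r : RIdx I) (o : Option I) : FreeGroup (Sym I) :=
  res (bword xz r o)

/-- target words -/
noncomputable def tgtW (xz : I → Bool → ℤ → ℤ × ℤ) (r : RIdx I) (o : Option I) : FreeGroup (Sym I) :=
  res (shf (epq r.q) (bword xz r o))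

/-- the distinguished letters -/
def sxW : RIdx I → Option I → XF I
  | Sum.inl (_, _, f, l, _, _), none => XF.e f l
  | Sum.inl (_, _, f, _, _, _), some k => XF.e (!f) k
  | Sum.inr (_, _, i, _), none => XF.a i
  | Sum.inr (_, _, _, _), some k => XF.e false k

theorem sxW_injective (r : RIdx I) : Function.Injective (sxW r) := by
  rcases r with ⟨j, s, f, l, q, χ⟩ | ⟨j, s, i, q⟩
  · rintro (_ | k) (_ | k') h
    · rfl
    · cases f <;> simp [sxW] at h
    · cases f <;> simp [sxW] at h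
    · simp only [sxW, XF.e.injEq, true_and] at h
      rw [h]
  · rintro (_ | k) (_ | k') h
    · rfl
    · simp [sxW] at h
    · simp [sxW] at h
    · simp only [sxW, XF.e.injEq, true_and] at h
      rw [h]

theorem y_notin (r : RIdx I) : (XF.y : XF I) ∈ (Set.range (sxW r))ᶜ := by
  rintro ⟨o, ho⟩
  rcases r with ⟨j, s, f, l, q, χ⟩ | ⟨j, s, i, q⟩ <;> rcases o with _ | k <;>
    simp [sxW] at ho

theorem a_notin (j : I) (s i : Bool) (q : Q5) :
    (XF.a (!i) : XF I) ∈ (Set.range (sxW (Sum.inr (j, s, i, q))))ᶜ := by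
  rintro ⟨o, ho⟩
  rcases o with _ | k
  · cases i <;> simp [sxW] at ho
  · simp [sxW] at ho

end Words2

section MapM

variable {VA I : Type} {adjA : VA → VA → Prop} (c : I → Raag adjA)

/-- letters in the free product -/
def letM : LT I → Raag (adjM (XF I) adjA)
  | LT.c l => mIn (XF I) adjA (c l)
  | LT.e f l => mX adjA (XF.e f l)
  | LT.a i => mX adjA (XF.a i)

/-- the letter y -/
def yM (I : Type) (adjA : VA → VA → Prop) : Raag (adjM (XF I) adjA) := mX adjA XF.y

/-- the family defining the embedding -/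
def muFam : LT I → ℤ → Raag (adjM (XF I) adjA) := conjFam (yM I adjA) (letM c)

/-- the embedding of the window group -/
def muW : PresentedGroup (∅ : Set (FreeGroup (Sym I))) →* Raag (adjM (XF I) adjA) :=
  winHom (muFam c)

theorem muW_src (xz : I → Bool → ℤ → ℤ × ℤ) (r : RIdx I) (o : Option I) :
    muW c (PresentedGroup.mk ∅ (srcW xz r o)) = bigHom (muFam c) (bword xz r o) :=
  winHom_res _ (bword_win xz r o)

theorem muW_tgt (xz : I → Bool → ℤ → ℤ × ℤ) (r : RIdx I) (o : Option I) :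
    muW c (PresentedGroup.mk ∅ (tgtW xz r o)) =
      yM I adjA ^ epq r.q * muW c (PresentedGroup.mk ∅ (srcW xz r o)) *
      (yM I adjA ^ epq r.q)⁻¹ := by
  rw [muW_src, tgtW, muW, winHom_res _ (bword_shf_win xz r o)]
  exact bigHom_conj_shf _ _ _ _

/-- left multipliers -/
def gW : RIdx I → Option I → Raag (adjM (XF I) adjA)
  | Sum.inl (j, s, _, l, q, χ), none =>
      muFam c (LT.c j) 0 ^ sg s * muFam c (LT.c l) q.1 ^ dl q.1 χ * yM I adjA ^ q.1
  | Sum.inl (_, _, _, _, q, _), some k => muFam c (LT.c k) 0 * yM I adjA ^ (-epq q.1)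
  | Sum.inr (j, s, _, q), none => muFam c (LT.c j) 0 ^ sg s * yM I adjA ^ q.1
  | Sum.inr (_, _, _, q), some k => muFam c (LT.c k) 0 * yM I adjA ^ (-epq q.1)

/-- right multipliers -/
def hW (xz : I → Bool → ℤ → ℤ × ℤ) : RIdx I → Option I → Raag (adjM (XF I) adjA)
  | Sum.inl (j, s, _, _, q, _), none =>
      yM I adjA ^ (-q.1) * muFam c (LT.c j) 0 ^ (-sg s)
  | Sum.inl (_, _, _, _, q, _), some _ => yM I adjA ^ (-(-epq q.1))
  | Sum.inr (j, s, i, q), none => yM I adjA ^ (-q.1) * muFam c (LT.c j) 0 ^ (-sg s) *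
      muFam c (LT.a (!i)) (pq q.1) ^ (xz j s q.1).1 *
      muFam c (LT.a (!i)) (pq q.1 + 1) ^ (xz j s q.1).2
  | Sum.inr (_, _, _, q), some _ => yM I adjA ^ (-(-epq q.1))

theorem yM_mem (r : RIdx I) : yM I adjA ∈ fixN (Set.range (sxW r))ᶜ adjA :=
  Subgroup.subset_closure (Or.inr ⟨_, y_notin r, rfl⟩)

theorem cM_mem (Z : Set (XF I)) (hy : XF.y ∈ Z) (l : I) (n : ℤ) :
    muFam c (LT.c l) n ∈ fixN Z adjA := by
  have h1 : yM I adjA ∈ fixN Z adjA := Subgroup.subset_closure (Or.inr ⟨_, hy, rfl⟩)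
  exact mul_mem (mul_mem (zpow_mem h1 _) (Subgroup.subset_closure (Or.inl ⟨_, rfl⟩)))
    (zpow_mem h1 _)

theorem aM_mem (Z : Set (XF I)) (hy : XF.y ∈ Z) (i : Bool) (hi : XF.a i ∈ Z) (n : ℤ) :
    muFam c (LT.a i) n ∈ fixN Z adjA := by
  have h1 : yM I adjA ∈ fixN Z adjA := Subgroup.subset_closure (Or.inr ⟨_, hy, rfl⟩)
  exact mul_mem (mul_mem (zpow_mem h1 _) (Subgroup.subset_closure (Or.inr ⟨_, hi, rfl⟩)))
    (zpow_mem h1 _)

theorem gW_mem (r : RIdx I) (o : Option I) : gW c r o ∈ fixN (Set.range (sxW r))ᶜ adjA := by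
  have hy := y_notin r
  have hY := yM_mem (adjA := adjA) r
  rcases r with ⟨j, s, f, l, q, χ⟩ | ⟨j, s, i, q⟩ <;> rcases o with _ | k
  · exact mul_mem (mul_mem (zpow_mem (cM_mem c _ hy _ _) _) (zpow_mem (cM_mem c _ hy _ _) _))
      (zpow_mem hY _)
  · exact mul_mem (cM_mem c _ hy _ _) (zpow_mem hY _)
  · exact mul_mem (zpow_mem (cM_mem c _ hy _ _) _) (zpow_mem hY _)
  · exact mul_mem (cM_mem c _ hy _ _) (zpow_mem hY _)

theorem hW_mem (xz : I → Bool → ℤ → ℤ × ℤ) (r : RIdx I) (o : Option I) :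
    hW c xz r o ∈ fixN (Set.range (sxW r))ᶜ adjA := by
  have hy := y_notin r
  have hY := yM_mem (adjA := adjA) r
  rcases r with ⟨j, s, f, l, q, χ⟩ | ⟨j, s, i, q⟩ <;> rcases o with _ | k
  · exact mul_mem (zpow_mem hY _) (zpow_mem (cM_mem c _ hy _ _) _)
  · exact zpow_mem hY _
  · exact mul_mem (mul_mem (mul_mem (zpow_mem hY _) (zpow_mem (cM_mem c _ hy _ _) _))
      (zpow_mem (aM_mem c _ hy _ (a_notin j s i q) _) _))
      (zpow_mem (aM_mem c _ hy _ (a_notin j s i q) _) _)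
  · exact zpow_mem hY _

theorem muW_src_eq (xz : I → Bool → ℤ → ℤ × ℤ) (r : RIdx I) (o : Option I) :
    muW c (PresentedGroup.mk ∅ (srcW xz r o)) =
      gW c r o * mX adjA (sxW r o) * hW c xz r o := by
  rw [muW_src]
  have he : ∀ f l n, muFam c (LT.e f l) n = yM I adjA ^ n * mX adjA (XF.e f l) * yM I adjA ^ (-n) :=
    fun _ _ _ => rfl
  have ha : ∀ i n, muFam c (LT.a i) n = yM I adjA ^ n * mX adjA (XF.a i) * yM I adjA ^ (-n) :=
    fun _ _ => rfl
  rcases r with ⟨j, s, f, l, q, χ⟩ | ⟨j, s, i, q⟩ <;> rcases o with _ | k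
  · simp only [bword, gW, hW, sxW, _root_.map_mul, map_zpow, bigHom_bz, he, mul_assoc]
  · simp only [bword, gW, hW, sxW, _root_.map_mul, map_zpow, bigHom_bz, he, mul_assoc]
  · simp only [bword, gW, hW, sxW, _root_.map_mul, map_zpow, bigHom_bz, mul_assoc]
    rw [ha i]
    simp only [mul_assoc]
  · simp only [bword, gW, hW, sxW, _root_.map_mul, map_zpow, bigHom_bz, he, mul_assoc]

/-- letters embedding -/
def ltEmb : LT I → I ⊕ XF I
  | LT.c l => Sum.inl l
  | LT.e f l => Sum.inr (XF.e f l)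
  | LT.a i => Sum.inr (XF.a i)

theorem ltEmb_injective : Function.Injective (ltEmb : LT I → I ⊕ XF I) := by
  rintro (l | ⟨f, l⟩ | i) (l' | ⟨f', l'⟩ | i') h <;> simp_all [ltEmb]

theorem ltEmb_ne (x : LT I) : ltEmb x ≠ Sum.inr XF.y := by
  rcases x with l | ⟨f, l⟩ | i <;> simp [ltEmb]

theorem muW_injective (hc : Function.Injective (FreeGroup.lift c)) :
    Function.Injective (muW c) := by
  have h : ∀ w, muW c (PresentedGroup.mk ∅ w) =
      nuF (XF I) c (FreeGroup.lift (fun p : LT I × ℤ =>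
        FreeGroup.of (Sum.inr XF.y) ^ p.2 * FreeGroup.of (ltEmb p.1) *
        FreeGroup.of (Sum.inr XF.y) ^ (-p.2))
        (FreeGroup.map (fun p : Sym I => ((p.1, p.2.1) : LT I × ℤ)) w)) := by
    intro w
    have h1 : (muW c).comp (PresentedGroup.mk ∅) =
      ((nuF (XF I) c).comp (FreeGroup.lift (fun p : LT I × ℤ =>
        FreeGroup.of (Sum.inr XF.y) ^ p.2 * FreeGroup.of (ltEmb p.1) *
        FreeGroup.of (Sum.inr XF.y) ^ (-p.2)))).comp
        (FreeGroup.map (fun p : Sym I => ((p.1, p.2.1) : LT I × ℤ))) := by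
      apply FreeGroup.ext_hom
      rintro ⟨x, q⟩
      rw [MonoidHom.comp_apply, MonoidHom.comp_apply, MonoidHom.comp_apply, FreeGroup.map.of,
        FreeGroup.lift_apply_of, _root_.map_mul, _root_.map_mul, map_zpow, map_zpow, muW, winHom,
        freeLift_mk, FreeGroup.lift_apply_of]
      have hy : nuF (XF I) c (FreeGroup.of (Sum.inr XF.y)) = yM I adjA := by
        simp [nuF, yM]
      have hx : nuF (XF I) c (FreeGroup.of (ltEmb x)) = letM c x := by
        rcases x with l | ⟨f, l⟩ | i <;> simp [nuF, ltEmb, letM]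
      rw [hy, hx]
      rfl
    exact DFunLike.congr_fun h1 w
  intro a b hab
  obtain ⟨u, rfl⟩ := PresentedGroup.mk_surjective _ a
  obtain ⟨v, rfl⟩ := PresentedGroup.mk_surjective _ b
  rw [h, h] at hab
  have h1 := nuF_injective (XF I) c hc hab
  have h2 := shift_injective ltEmb (Sum.inr XF.y : I ⊕ XF I) ltEmb_ne ltEmb_injective h1
  have h3 : Function.Injective (fun p : Sym I => ((p.1, p.2.1) : LT I × ℤ)) := by
    rintro ⟨x, q⟩ ⟨x', q'⟩ h
    simp only [Prod.mk.injEq] at h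
    ext
    · exact h.1
    · exact h.2
  rw [FreeGroup.map_injective h3 h2]

theorem famW (hc : Function.Injective (FreeGroup.lift c)) (xz : I → Bool → ℤ → ℤ × ℤ) :
    FamData (muW c) sxW (gW c) (hW c xz) (srcW xz) (tgtW xz)
      (fun r => yM I adjA ^ epq r.q) where
  muinj := muW_injective c hc
  sinj := sxW_injective
  hg := gW_mem c
  hh := hW_mem c xz
  hsrc := muW_src_eq c xz
  htgt := muW_tgt c xz

end MapM

end Pool.Agent.RaagDehn
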