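import Pool.Agent.Work.RaagDehn.Area

/-!
# Assembly
-/

set_option autoImplicit false

namespace Pool.Agent.RaagDehn

section Main

noncomputable instance decR {I : Type} : DecidableEq (RIdx I) := Classical.decEq _

noncomputable instance finR {I : Type} [Finite I] : Fintype (RIdx I) := Fintype.ofFinite _

variable {VA I : Type} [Finite I] {adjA : VA → VA → Prop} (B : BaseData adjA I)

/-- step one -/
theorem S1 : StepData (famAdj (XF I) (RIdx I) adjA) (∅ : Set (FreeGroup (Sym I)))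
    (famPairs (srcW (xzW B.eps)) (tgtW (xzW B.eps)))
    ((famK sxW (gW B.c) (hW B.c (xzW B.eps))).comp (muW B.c)) (famT VA sxW)
    (fun r => famK sxW (gW B.c) (hW B.c (xzW B.eps)) (yM I adjA ^ epq r.q)) :=
  (famW B.c B.inj (xzW B.eps)).step

omit [Finite I] in
theorem muW_sec (w : FreeGroup I) : muW B.c (PresentedGroup.mk ∅ (secS I w)) =
    mIn (XF I) adjA (FreeGroup.lift B.c w) := by
  have h : ((muW B.c).comp (PresentedGroup.mk ∅)).comp (secS I) =
      (mIn (XF I) adjA).comp (FreeGroup.lift B.c) := by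
    apply FreeGroup.ext_hom
    intro l
    show muW B.c (PresentedGroup.mk ∅ (secS I (FreeGroup.of l))) = _
    rw [secS, FreeGroup.lift_apply_of, muW, winHom_sy _ _ zero_win, MonoidHom.comp_apply,
      FreeGroup.lift_apply_of]
    simp [muFam, conjFam, letM]
  exact DFunLike.congr_fun h w

/-- projection of the window group to the free group -/
def prW (I : Type) : PresentedGroup (∅ : Set (FreeGroup (Sym I))) →* FreeGroup I :=
  freeLift (fun p => match p.1 with
    | LT.c l => FreeGroup.of l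
    | LT.e _ _ => 1
    | LT.a _ => 1)

omit [Finite I] in
theorem retr_muW (g : PresentedGroup (∅ : Set (FreeGroup (Sym I)))) :
    retr adjA (fun _ : XF I => (∅ : Set VA)) (muW B.c g) = FreeGroup.lift B.c (prW I g) := by
  have hX : ∀ x : XF I, retr adjA (fun _ : XF I => (∅ : Set VA)) (mX adjA x) = 1 := by
    intro x
    simp [retr, mX, newGen]
  have hI : ∀ a, retr adjA (fun _ : XF I => (∅ : Set VA)) (mIn (XF I) adjA a) = a := by
    intro a
    exact retr_incl a
  have h : (retr adjA (fun _ : XF I => (∅ : Set VA))).comp (muW B.c) =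
      (FreeGroup.lift B.c).comp (prW I) := by
    apply PresentedGroup.ext
    rintro ⟨x, q⟩
    rw [MonoidHom.comp_apply, MonoidHom.comp_apply, muW, winHom, freeLift_of, prW, freeLift_of]
    simp only [muFam, conjFam, _root_.map_mul, map_zpow, yM, hX, one_zpow, one_mul, mul_one]
    rcases x with l | ⟨f, l⟩ | i
    · simp only [letM, hI, FreeGroup.lift_apply_of]
    · simp only [letM, hX, _root_.map_one]
    · simp only [letM, hX, _root_.map_one]
  exact DFunLike.congr_fun h g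

/-- embedding of the level two group -/
noncomputable def em1 : G1 (xzW B.eps) →* Raag (extAdj (famAdj (XF I) (RIdx I) adjA)
    (famT VA sxW)) := (S1 B).emb

theorem em1_sec (w : FreeGroup I) : em1 B (PresentedGroup.mk (relsG1 (xzW B.eps)) (secW I w)) =
    incl _ _ (famK sxW (gW B.c) (hW B.c (xzW B.eps)) (mIn (XF I) adjA (FreeGroup.lift B.c w))) := by
  rw [← muW_sec]
  have h : PresentedGroup.mk (relsG1 (xzW B.eps)) (secW I w) =
      bG1 (xzW B.eps) (PresentedGroup.mk ∅ (secS I w)) := mk_wInl _ _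
  rw [h]
  exact (S1 B).emb_inl _

/-- the parabolic -/
def T2 (VA I : Type) : Set ((Σ _ : Option (RIdx I), VA ⊕ XF I) ⊕ RIdx I) :=
  Sum.inl '' famTA VA (XF I) (RIdx I)

/-- the conjugator -/
noncomputable def z2 : Raag (extAdj (famAdj (XF I) (RIdx I) adjA) (famT VA sxW)) :=
  incl _ _ (famK sxW (gW B.c) (hW B.c (xzW B.eps)) (mIn (XF I) adjA B.s))

/-- step two -/
theorem S2 : StepData (extAdj (famAdj (XF I) (RIdx I) adjA) (famT VA sxW))
    (relsG1 (xzW B.eps)) (autPairs (secW I) B.aut) (em1 B) (fun _ => T2 VA I)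
    (fun _ => z2 B) := by
  apply autStep
  · exact (S1 B).emb_injective
  · exact incl_mem_parab ((famK_memA _ _ _ _).2 ⟨B.s, rfl⟩)
  · intro w
    rw [em1_sec]
    exact incl_mem_parab ((famK_memA _ _ _ _).2 ⟨_, rfl⟩)
  · intro l
    rw [em1_sec, em1_sec, z2, ← B.conj, FreeGroup.lift_apply_of]
    simp only [_root_.map_mul, _root_.map_inv]
  · intro g hg
    obtain ⟨y, hy, hy2⟩ := parab_inl_image hg
    obtain ⟨g0, h0, h1⟩ := (S1 B).emb_range hy2.symm
    rw [← h1] at hy
    obtain ⟨a, ha⟩ := (famK_memA _ _ _ _).1 hy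
    have h2 : a = FreeGroup.lift B.c (prW I g0) := by
      rw [← retr_muW, ← ha]
      exact (retr_incl a).symm
    have h3 : muW B.c g0 = muW B.c (PresentedGroup.mk ∅ (secS I (prW I g0))) := by
      rw [muW_sec, ← h2, ha]
    have h4 := muW_injective B.c B.inj h3
    refine ⟨prW I g0, ?_⟩
    rw [← h0]
    exact (mk_wInl (xzW B.eps) (secS I (prW I g0))).trans (congrArg (bG1 (xzW B.eps)) h4.symm)

/-- relators of the third group -/
abbrev relsG2 : Set (FreeGroup ((Sym I ⊕ RIdx I) ⊕ Unit)) :=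
  extRels (relsG1 (xzW B.eps)) (autPairs (secW I) B.aut)

/-- retraction of the level two group -/
noncomputable def rho1 : G1 (xzW B.eps) →* Raag adjA :=
  genHom (xzW B.eps) B.c (fun _ => 1) (by
    intro j s q _
    simp)

omit [Finite I] in
theorem rho1_Cw (w : FreeGroup I) : rho1 B (Cw (xzW B.eps) w) = FreeGroup.lift B.c w :=
  genHom_Cw _ _ _ _ _

omit [Finite I] in
theorem rho1_D1 {g : G1 (xzW B.eps)} (hg : g ∈ D1 (xzW B.eps)) : rho1 B g = 1 := by
  have h := genHom_D1 (xzW B.eps) B.c (fun _ => (1 : Raag adjA)) (by intro j s q _; simp)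
    (K := ⊥) (fun _ _ => one_mem _) hg
  exact Subgroup.mem_bot.1 h

omit [Finite I] in
theorem lift_aut (w : FreeGroup I) : FreeGroup.lift B.c (B.aut w) =
    B.s * FreeGroup.lift B.c w * B.s⁻¹ := by
  have h : (FreeGroup.lift B.c).comp B.aut.toMonoidHom =
      (MulAut.conj B.s).toMonoidHom.comp (FreeGroup.lift B.c) := by
    apply FreeGroup.ext_hom
    intro l
    show FreeGroup.lift B.c (B.aut (FreeGroup.of l)) =
      B.s * FreeGroup.lift B.c (FreeGroup.of l) * B.s⁻¹
    rw [← B.conj, FreeGroup.lift_apply_of]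
  exact DFunLike.congr_fun h w

/-- retraction of the third group -/
noncomputable def rho2 : PresentedGroup (extRels (relsG1 (xzW B.eps))
    (autPairs (secW I) B.aut)) →* Raag adjA :=
  extLift (rho1 B) (fun _ => B.s) (by
    rintro _ _ ⟨l, rfl⟩
    show B.s * rho1 B (Cw (xzW B.eps) (FreeGroup.of l)) =
      rho1 B (Cw (xzW B.eps) (B.aut (FreeGroup.of l))) * B.s
    rw [rho1_Cw, rho1_Cw, lift_aut, inv_mul_cancel_right])

/-- step three -/
theorem S3 : StepData (JAdj (cAdj (extAdj (famAdj (XF I) (RIdx I) adjA) (famT VA sxW))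
      (fun _ : Unit => T2 VA I) adjA))
    (extRels (relsG1 (xzW B.eps)) (autPairs (secW I) B.aut))
    (centPairs (Sym I ⊕ RIdx I) Unit (Dset I)) (cK (S2 B) (rho2 B))
    (fun _ => jSet (cS ((Σ _ : Option (RIdx I), VA ⊕ XF I) ⊕ RIdx I) Unit VA)) (fun _ => 1) := by
  apply centStep
  · intro d hd
    have h1 : rho2 B (extInl (relsG1 (xzW B.eps)) (autPairs (secW I) B.aut)
        (PresentedGroup.mk (relsG1 (xzW B.eps)) d)) =
        rho1 B (PresentedGroup.mk (relsG1 (xzW B.eps)) d) := extLift_inl _ _ _ _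
    rw [h1]
    exact rho1_D1 B (Subgroup.subset_closure ⟨d, hd, rfl⟩)
  · intro g hg
    have h1 : rho2 B (extInl (relsG1 (xzW B.eps)) (autPairs (secW I) B.aut) g) =
      rho1 B g := extLift_inl _ _ _ _
    rw [h1] at hg
    obtain ⟨w, d, hd, rfl⟩ := G1_dec (xzW B.eps) g
    rw [_root_.map_mul, rho1_Cw, rho1_D1 B hd, mul_one] at hg
    have h2 : w = 1 := B.inj (by rw [hg, _root_.map_one])
    rw [h2, _root_.map_one, one_mul]
    exact hd

/-! ### The functional -/

open Classical in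
/-- the functional on the third group -/
noncomputable def fun2 (g : PresentedGroup (relsG2 B)) : ℤ :=
  if h : ∃ d ∈ D1 (xzW B.eps), extInl (relsG1 (xzW B.eps)) (autPairs (secW I) B.aut) d = g
  then fst2 (sig B.eps h.choose) else 0

theorem fun2_apply {d : G1 (xzW B.eps)} (hd : d ∈ D1 (xzW B.eps)) :
    fun2 B (extInl (relsG1 (xzW B.eps)) (autPairs (secW I) B.aut) d) = fst2 (sig B.eps d) := by
  have h : ∃ d' ∈ D1 (xzW B.eps), extInl (relsG1 (xzW B.eps)) (autPairs (secW I) B.aut) d' =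
    extInl (relsG1 (xzW B.eps)) (autPairs (secW I) B.aut) d := ⟨d, hd, rfl⟩
  rw [fun2, dif_pos h]
  have h2 := (S2 B).extInl_injective h.choose_spec.2
  rw [h2]

omit [Finite I] in
theorem fun2_not {g : PresentedGroup (relsG2 B)} (h : ¬ ∃ d ∈ D1 (xzW B.eps),
    extInl (relsG1 (xzW B.eps)) (autPairs (secW I) B.aut) d = g) : fun2 B g = 0 := dif_neg h

theorem fun2_one : fun2 B 1 = 0 := by
  have h := fun2_apply B (one_mem (D1 (xzW B.eps)))
  rw [_root_.map_one, _root_.map_one] at h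
  exact h

/-- words generating D in the third group -/
def Dset2 (I : Type) : Set (FreeGroup ((Sym I ⊕ RIdx I) ⊕ Unit)) :=
  (wInl (Sym I ⊕ RIdx I) Unit) '' Dset I

theorem fun2_bound : ∀ d ∈ Dset2 I, ∀ x, |fun2 B x -
    fun2 B (x * PresentedGroup.mk (relsG2 B) d)| ≤ 1 := by
  rintro _ ⟨d, hd, rfl⟩ x
  have hdD : PresentedGroup.mk (relsG1 (xzW B.eps)) d ∈ D1 (xzW B.eps) :=
    Subgroup.subset_closure ⟨d, hd, rfl⟩
  have h1 : PresentedGroup.mk (relsG2 B) (wInl (Sym I ⊕ RIdx I) Unit d) =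
      extInl (relsG1 (xzW B.eps)) (autPairs (secW I) B.aut)
        (PresentedGroup.mk (relsG1 (xzW B.eps)) d) := (extInl_mk _ _ d).symm
  by_cases h : ∃ e ∈ D1 (xzW B.eps),
      extInl (relsG1 (xzW B.eps)) (autPairs (secW I) B.aut) e = x
  · obtain ⟨e, he, rfl⟩ := h
    have h2 : extInl (relsG1 (xzW B.eps)) (autPairs (secW I) B.aut) e *
        PresentedGroup.mk (relsG2 B) (wInl (Sym I ⊕ RIdx I) Unit d) =
        extInl (relsG1 (xzW B.eps)) (autPairs (secW I) B.aut)
          (e * PresentedGroup.mk (relsG1 (xzW B.eps)) d) := by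
      rw [h1, _root_.map_mul]
    rw [h2, fun2_apply B he, fun2_apply B (mul_mem he hdD), _root_.map_mul,
      fst2_mul (sig_D1_right B.eps he)]
    have h3 := fst2_Dset B.eps hd
    rw [abs_le]
    constructor <;> linarith [h3.1, h3.2]
  · have h2 : ¬ ∃ e ∈ D1 (xzW B.eps),
      extInl (relsG1 (xzW B.eps)) (autPairs (secW I) B.aut) e =
      x * PresentedGroup.mk (relsG2 B) (wInl (Sym I ⊕ RIdx I) Unit d) := by
      rintro ⟨e, he, hex⟩
      apply h
      refine ⟨e * (PresentedGroup.mk (relsG1 (xzW B.eps)) d)⁻¹, mul_mem he (inv_mem hdD), ?_⟩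
      rw [_root_.map_mul, _root_.map_inv, hex, h1, mul_inv_cancel_right]
    rw [fun2_not B h, fun2_not B h2]
    simp

/-! ### The words -/

/-- stable letter word of the third group -/
def sLet (I : Type) : FreeGroup ((Sym I ⊕ RIdx I) ⊕ Unit) := FreeGroup.of (Sum.inr ())

omit [Finite I] in
theorem sLet_conj (w : FreeGroup I) :
    PresentedGroup.mk (relsG2 B) (sLet I) *
      extInl (relsG1 (xzW B.eps)) (autPairs (secW I) B.aut) (Cw (xzW B.eps) w) *
      (PresentedGroup.mk (relsG2 B) (sLet I))⁻¹ =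
    extInl (relsG1 (xzW B.eps)) (autPairs (secW I) B.aut) (Cw (xzW B.eps) (B.aut w)) := by
  have h : (MulAut.conj (PresentedGroup.mk (relsG2 B) (sLet I))).toMonoidHom.comp
      ((extInl (relsG1 (xzW B.eps)) (autPairs (secW I) B.aut)).comp (Cw (xzW B.eps))) =
      ((extInl (relsG1 (xzW B.eps)) (autPairs (secW I) B.aut)).comp (Cw (xzW B.eps))).comp
        B.aut.toMonoidHom := by
    apply FreeGroup.ext_hom
    intro l
    show PresentedGroup.mk (relsG2 B) (sLet I) *
      extInl (relsG1 (xzW B.eps)) (autPairs (secW I) B.aut) (Cw (xzW B.eps) (FreeGroup.of l)) *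
      (PresentedGroup.mk (relsG2 B) (sLet I))⁻¹ =
      extInl (relsG1 (xzW B.eps)) (autPairs (secW I) B.aut)
        (Cw (xzW B.eps) (B.aut (FreeGroup.of l)))
    rw [mul_inv_eq_iff_eq_mul]
    exact extT_rel (relsG1 (xzW B.eps)) (autPairs (secW I) B.aut) ()
      (p := (secW I (FreeGroup.of l), secW I (B.aut (FreeGroup.of l)))) ⟨l, rfl⟩
  exact DFunLike.congr_fun h w

omit [Finite I] in
theorem sLet_conj_pow (n : ℕ) (w : FreeGroup I) :
    PresentedGroup.mk (relsG2 B) (sLet I ^ n) *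
      extInl (relsG1 (xzW B.eps)) (autPairs (secW I) B.aut) (Cw (xzW B.eps) w) *
      (PresentedGroup.mk (relsG2 B) (sLet I ^ n))⁻¹ =
    extInl (relsG1 (xzW B.eps)) (autPairs (secW I) B.aut) (Cw (xzW B.eps) ((B.aut ^ n) w)) := by
  induction n generalizing w with
  | zero => simp
  | succ n ih =>
    have h1 : (B.aut ^ (n + 1)) w = (B.aut ^ n) (B.aut w) := by rw [pow_succ]; rfl
    rw [h1, ← ih, ← sLet_conj, pow_succ, _root_.map_mul]
    group

/-- the word u -/
noncomputable def uW (k : ℕ) : FreeGroup ((Sym I ⊕ RIdx I) ⊕ Unit) :=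
  sLet I ^ (3 * k) * wInl (Sym I ⊕ RIdx I) Unit (secW I (FreeGroup.of B.v)) *
    (sLet I ^ (3 * k))⁻¹

/-- the word w -/
noncomputable def wW (k : ℕ) : FreeGroup ((Sym I ⊕ RIdx I) ⊕ Unit) :=
  uW B k * wInl (Sym I ⊕ RIdx I) Unit (wInl (Sym I) (RIdx I) (sy (LT.a true) 1)) * (uW B k)⁻¹

/-- the element d -/
noncomputable def dW (k : ℕ) : G1 (xzW B.eps) :=
  Cw (xzW B.eps) ((B.aut ^ (3 * k)) (FreeGroup.of B.v)) * el (xzW B.eps) (LT.a true) 1 *
    (Cw (xzW B.eps) ((B.aut ^ (3 * k)) (FreeGroup.of B.v)))⁻¹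

theorem one_win : (1 : ℤ) ∈ Finset.Icc (-2 : ℤ) 2 := by decide

omit [Finite I] in
theorem dW_mem (k : ℕ) : dW B k ∈ D1 (xzW B.eps) := Cw_conj _ _ _ (D1_a _ one_win)

omit [Finite I] in
theorem mk_wW (k : ℕ) : PresentedGroup.mk (relsG2 B) (wW B k) =
    extInl (relsG1 (xzW B.eps)) (autPairs (secW I) B.aut) (dW B k) := by
  have h1 : PresentedGroup.mk (relsG2 B) (uW B k) =
      extInl (relsG1 (xzW B.eps)) (autPairs (secW I) B.aut)
        (Cw (xzW B.eps) ((B.aut ^ (3 * k)) (FreeGroup.of B.v))) := by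
    rw [← sLet_conj_pow, uW, _root_.map_mul, _root_.map_mul, _root_.map_inv]
    rfl
  rw [wW, _root_.map_mul, _root_.map_mul, _root_.map_inv, h1, dW, _root_.map_mul,
    _root_.map_mul, _root_.map_inv]
  rfl

theorem fun2_wW (k : ℕ) : (2 : ℤ) ^ (2 ^ k) ≤ fun2 B (PresentedGroup.mk (relsG2 B) (wW B k)) := by
  rw [mk_wW, fun2_apply B (dW_mem B k), dW, sig_conj]
  have h := B.growth k
  generalize Multiplicative.toAdd (epsHom B.eps ((B.aut ^ (3 * k)) (FreeGroup.of B.v))) = E at *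
  have hE : (0 : ℤ) ≤ E := le_trans (by positivity) h
  obtain ⟨n, rfl⟩ := Int.eq_ofNat_of_zero_le hE
  rw [zpow_natCast]
  refine le_trans ?_ (Mx_growth n).1
  apply pow_le_pow_right₀ (by norm_num)
  exact_mod_cast h

/-! ### The final group -/

/-- relators of the final group -/
abbrev relsP : Set (FreeGroup (((Sym I ⊕ RIdx I) ⊕ Unit) ⊕ Unit)) :=
  extRels (extRels (relsG1 (xzW B.eps)) (autPairs (secW I) B.aut))
    (centPairs (Sym I ⊕ RIdx I) Unit (Dset I))

/-- the final word -/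
noncomputable def finW (k : ℕ) : FreeGroup (((Sym I ⊕ RIdx I) ⊕ Unit) ⊕ Unit) :=
  FreeGroup.of (Sum.inr ()) * wInl ((Sym I ⊕ RIdx I) ⊕ Unit) Unit (wW B k) *
    (FreeGroup.of (Sum.inr ()))⁻¹ * (wInl ((Sym I ⊕ RIdx I) ⊕ Unit) Unit (wW B k))⁻¹

omit [Finite I] in
theorem finW_mem (k : ℕ) : finW B k ∈ Subgroup.normalClosure (relsP B) := by
  rw [← PresentedGroup.mk_eq_one_iff]
  have h1 : ∀ g ∈ D1 (xzW B.eps), Commute
      (extT (extRels (relsG1 (xzW B.eps)) (autPairs (secW I) B.aut))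
        (centPairs (Sym I ⊕ RIdx I) Unit (Dset I)) ())
      (extInl (extRels (relsG1 (xzW B.eps)) (autPairs (secW I) B.aut))
        (centPairs (Sym I ⊕ RIdx I) Unit (Dset I))
        (extInl (relsG1 (xzW B.eps)) (autPairs (secW I) B.aut) g)) := by
    intro g hg
    induction hg using Subgroup.closure_induction with
    | mem x hx =>
      obtain ⟨d, hd, rfl⟩ := hx
      have h := extT_rel (extRels (relsG1 (xzW B.eps)) (autPairs (secW I) B.aut))
        (centPairs (Sym I ⊕ RIdx I) Unit (Dset I)) ()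
        (p := (wInl (Sym I ⊕ RIdx I) Unit d, wInl (Sym I ⊕ RIdx I) Unit d)) ⟨d, hd, rfl⟩
      rw [extInl_mk (relsG1 (xzW B.eps)) (autPairs (secW I) B.aut) d]
      exact h
    | one => simp
    | mul x y _ _ hx hy =>
      rw [_root_.map_mul, _root_.map_mul]
      exact hx.mul_right hy
    | inv x _ hx =>
      rw [_root_.map_inv, _root_.map_inv]
      exact hx.inv_right
  have h2 := h1 _ (dW_mem B k)
  rw [← mk_wW] at h2
  have h3 : extInl (extRels (relsG1 (xzW B.eps)) (autPairs (secW I) B.aut))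
        (centPairs (Sym I ⊕ RIdx I) Unit (Dset I))
        (PresentedGroup.mk (relsG2 B) (wW B k)) =
      PresentedGroup.mk (relsP B) (wInl ((Sym I ⊕ RIdx I) ⊕ Unit) Unit (wW B k)) :=
    extInl_mk _ _ _
  rw [h3] at h2
  rw [finW, _root_.map_mul, _root_.map_mul, _root_.map_mul, _root_.map_inv, _root_.map_inv]
  have h4 : PresentedGroup.mk (relsP B) (FreeGroup.of (Sum.inr ())) =
      extT (extRels (relsG1 (xzW B.eps)) (autPairs (secW I) B.aut))
        (centPairs (Sym I ⊕ RIdx I) Unit (Dset I)) () := rfl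
  rw [h4, h2.eq, mul_inv_cancel_right, mul_inv_cancel]

theorem finW_area (k : ℕ) (l : List (FreeGroup (((Sym I ⊕ RIdx I) ⊕ Unit) ⊕ Unit) ×
      FreeGroup (((Sym I ⊕ RIdx I) ⊕ Unit) ⊕ Unit)))
    (hl : ∀ p ∈ l, p.2 ∈ relsP B ∨ p.2⁻¹ ∈ relsP B)
    (hw : finW B k = (l.map (fun p => p.1 * p.2 * p.1⁻¹)).prod) :
    (2 : ℤ) ^ (2 ^ k) ≤ l.length := by
  refine (fun2_wW B k).trans ?_
  have e : extRels (relsG2 B) (fun _ : Unit => (fun d => (d, d)) '' Dset2 I) = relsP B := by
    unfold relsP relsG2 centPairs Dset2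
    simp only [Set.image_image]
  exact area_bound (rels := relsG2 B) (Dset2 I) (fun2 B) (fun2_bound B) (fun2_one B) (wW B k) l
    (by rw [e]; exact hl) hw

end Main

end Pool.Agent.RaagDehn
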