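import Mathlib

/-!
# Right-angled Artin groups given by an arbitrary relation, parabolic subgroups,
and the embedding theorem for twisted HNN extensions.
-/

set_option autoImplicit false

namespace Pool.Agent.RaagDehn



/-- The commutation relators of a relation. -/
def raagRels {V : Type} (adj : V → V → Prop) : Set (FreeGroup V) :=
  {r | ∃ a : V, ∃ b : V, adj a b ∧
    r = FreeGroup.of a * FreeGroup.of b * (FreeGroup.of a)⁻¹ * (FreeGroup.of b)⁻¹}

/-- The right-angled Artin group of a relation. -/
abbrev Raag {V : Type} (adj : V → V → Prop) : Type := PresentedGroup (raagRels adj)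

/-- the generator -/
def gen {V : Type} (adj : V → V → Prop) (v : V) : Raag adj := PresentedGroup.of v

theorem gen_comm {V : Type} {adj : V → V → Prop} {a b : V} (h : adj a b) :
    Commute (gen adj a) (gen adj b) := by
  have h1 : PresentedGroup.mk (raagRels adj)
      (FreeGroup.of a * FreeGroup.of b * (FreeGroup.of a)⁻¹ * (FreeGroup.of b)⁻¹) = 1 :=
    PresentedGroup.one_of_mem ⟨a, b, h, rfl⟩
  have h2 : gen adj a * gen adj b * (gen adj a)⁻¹ * (gen adj b)⁻¹ = 1 := h1
  show gen adj a * gen adj b = gen adj b * gen adj a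
  have h3 : gen adj a * gen adj b * (gen adj a)⁻¹ = gen adj b := mul_inv_eq_one.1 h2
  exact mul_inv_eq_iff_eq_mul.1 h3

/-- universal property -/
def lift {V : Type} {adj : V → V → Prop} {G : Type*} [Group G] (f : V → G)
    (h : ∀ a b, adj a b → Commute (f a) (f b)) : Raag adj →* G :=
  PresentedGroup.toGroup (f := f) (by
    rintro r ⟨a, b, hab, rfl⟩
    have := h a b hab
    rw [map_mul, map_mul, map_mul, map_inv, map_inv, FreeGroup.lift_apply_of,
      FreeGroup.lift_apply_of, this.eq, mul_inv_cancel_right, mul_inv_cancel])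

@[simp] theorem lift_gen {V : Type} {adj : V → V → Prop} {G : Type*} [Group G] (f : V → G)
    (h : ∀ a b, adj a b → Commute (f a) (f b)) (v : V) : lift f h (gen adj v) = f v :=
  PresentedGroup.toGroup.of _

theorem hom_ext {V : Type} {adj : V → V → Prop} {G : Type*} [Group G] {φ ψ : Raag adj →* G}
    (h : ∀ v, φ (gen adj v) = ψ (gen adj v)) : φ = ψ :=
  PresentedGroup.ext h

theorem closure_gen {V : Type} (adj : V → V → Prop) :
    Subgroup.closure (Set.range (gen adj)) = ⊤ :=
  PresentedGroup.closure_range_of _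

/-- parabolic subgroup -/
def parab {V : Type} (adj : V → V → Prop) (T : Set V) : Subgroup (Raag adj) :=
  Subgroup.closure (gen adj '' T)

theorem gen_mem_parab {V : Type} {adj : V → V → Prop} {T : Set V} {v : V} (h : v ∈ T) :
    gen adj v ∈ parab adj T := Subgroup.subset_closure ⟨v, h, rfl⟩

theorem parab_le {V : Type} {adj : V → V → Prop} {T : Set V} {K : Subgroup (Raag adj)}
    (h : ∀ v ∈ T, gen adj v ∈ K) : parab adj T ≤ K := by
  refine (Subgroup.closure_le _).2 ?_
  rintro _ ⟨v, hv, rfl⟩
  exact h v hv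

theorem parab_mono {V : Type} {adj : V → V → Prop} {T T' : Set V} (h : T ⊆ T') :
    parab adj T ≤ parab adj T' := parab_le fun _ hv => gen_mem_parab (h hv)

/-! ## Adding new vertices -/

/-- the extended relation: new vertices `r` are adjacent to `T r`. -/
def extAdj {V R : Type} (adj : V → V → Prop) (T : R → Set V) : V ⊕ R → V ⊕ R → Prop
  | Sum.inl a, Sum.inl b => adj a b
  | Sum.inl a, Sum.inr r => a ∈ T r
  | Sum.inr _, _ => False

variable {V R : Type} {adj : V → V → Prop} {T : R → Set V}

/-- the inclusion -/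
def incl (adj : V → V → Prop) (T : R → Set V) : Raag adj →* Raag (extAdj adj T) :=
  lift (fun v => gen (extAdj adj T) (Sum.inl v)) (fun a b h => gen_comm (by exact h))

@[simp] theorem incl_gen (v : V) :
    incl adj T (gen adj v) = gen (extAdj adj T) (Sum.inl v) := lift_gen _ _ _

/-- the retraction -/
def retr (adj : V → V → Prop) (T : R → Set V) : Raag (extAdj adj T) →* Raag adj :=
  lift (fun x => Sum.elim (fun v => gen adj v) (fun _ => 1) x) (by
    rintro (a | a) (b | b) h
    · exact gen_comm h
    · exact Commute.one_right _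
    · exact h.elim
    · exact h.elim)

theorem retr_incl (x : Raag adj) : retr adj T (incl adj T x) = x := by
  have : (retr adj T).comp (incl adj T) = MonoidHom.id _ := by
    apply hom_ext
    intro v
    simp [retr]
  exact DFunLike.congr_fun this x

theorem incl_injective : Function.Injective (incl adj T) :=
  Function.LeftInverse.injective retr_incl

/-- the new letter -/
def newGen (adj : V → V → Prop) (T : R → Set V) (r : R) : Raag (extAdj adj T) :=
  gen (extAdj adj T) (Sum.inr r)

theorem newGen_comm (r : R) {x : Raag adj} (hx : x ∈ parab adj (T r)) :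
    Commute (newGen adj T r) (incl adj T x) := by
  have : parab adj (T r) ≤ (Subgroup.centralizer {newGen adj T r}).comap (incl adj T) := by
    apply parab_le
    intro v hv
    rw [Subgroup.mem_comap, Subgroup.mem_centralizer_singleton_iff]
    simp only [incl_gen]
    exact (gen_comm (adj := extAdj adj T) (a := Sum.inl v) (b := Sum.inr r) hv).eq
  have h2 := this hx
  rw [Subgroup.mem_comap, Subgroup.mem_centralizer_singleton_iff] at h2
  exact h2.symm

theorem incl_mem_parab {S : Set V} {x : Raag adj} (hx : x ∈ parab adj S) :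
    incl adj T x ∈ parab (extAdj adj T) (Sum.inl '' S) := by
  have : parab adj S ≤ (parab (extAdj adj T) (Sum.inl '' S)).comap (incl adj T) := by
    apply parab_le
    intro v hv
    rw [Subgroup.mem_comap, incl_gen]
    exact gen_mem_parab ⟨v, hv, rfl⟩
  exact this hx

theorem parab_inl_image {S : Set V} {x : Raag (extAdj adj T)}
    (hx : x ∈ parab (extAdj adj T) (Sum.inl '' S)) : ∃ y ∈ parab adj S, incl adj T y = x := by
  have : parab (extAdj adj T) (Sum.inl '' S) ≤ (parab adj S).map (incl adj T) := by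
    apply parab_le
    rintro _ ⟨v, hv, rfl⟩
    exact ⟨gen adj v, gen_mem_parab hv, incl_gen v⟩
  exact this hx

/-! ## The extension of partial bijections -/

section Ext

variable {X : Type} (X1 X2 : Set X) (f f' : X → X)

/-- The extended set. -/
inductive Big (X : Type) : Type
  | c (x : X) : Big X
  | u (x : X) (n : ℕ) : Big X
  | d (x : X) (n : ℕ) : Big X

open Classical in
/-- forward map -/
noncomputable def bigTo : Big X → Big X
  | Big.c x => if x ∈ X1 then Big.c (f x) else Big.u x 0
  | Big.u x n => if x ∈ X1 then Big.u x n else Big.u x (n + 1)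
  | Big.d x 0 => if x ∈ X2 then Big.d x 0 else Big.c x
  | Big.d x (n + 1) => if x ∈ X2 then Big.d x (n + 1) else Big.d x n

/-- extended permutation -/
noncomputable def bigPerm (h1 : ∀ x ∈ X1, f x ∈ X2) (h2 : ∀ x ∈ X2, f' x ∈ X1)
    (h3 : ∀ x ∈ X1, f' (f x) = x) (h4 : ∀ x ∈ X2, f (f' x) = x) : Equiv.Perm (Big X) where
  toFun := bigTo X1 X2 f
  invFun y := by
    classical
    exact match y with
    | Big.c y => if y ∈ X2 then Big.c (f' y) else Big.d y 0
    | Big.u x 0 => if x ∈ X1 then Big.u x 0 else Big.c x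
    | Big.u x (n + 1) => if x ∈ X1 then Big.u x (n + 1) else Big.u x n
    | Big.d x n => if x ∈ X2 then Big.d x n else Big.d x (n + 1)
  left_inv := by
    intro x
    cases x with
    | c x =>
      by_cases hx : x ∈ X1
      · simp [bigTo, hx, h1 x hx, h3 x hx]
      · simp [bigTo, hx]
    | u x n =>
      by_cases hx : x ∈ X1
      · cases n <;> simp [bigTo, hx]
      · simp [bigTo, hx]
    | d x n =>
      by_cases hx : x ∈ X2
      · cases n <;> simp [bigTo, hx]
      · cases n <;> simp [bigTo, hx]
  right_inv := by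
    intro x
    cases x with
    | c x =>
      by_cases hx : x ∈ X2
      · simp [bigTo, hx, h2 x hx, h4 x hx]
      · simp [bigTo, hx]
    | u x n =>
      by_cases hx : x ∈ X1
      · cases n <;> simp [bigTo, hx]
      · cases n <;> simp [bigTo, hx]
    | d x n =>
      by_cases hx : x ∈ X2
      · cases n <;> simp [bigTo, hx]
      · simp [bigTo, hx]

/-- The map induced on the extended set. -/
def bigMap {Y : Type} (g : X → Y) : Big X → Big Y
  | Big.c x => Big.c (g x)
  | Big.u x n => Big.u (g x) n
  | Big.d x n => Big.d (g x) n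

theorem bigPerm_c (h1 : ∀ x ∈ X1, f x ∈ X2) (h2 : ∀ x ∈ X2, f' x ∈ X1)
    (h3 : ∀ x ∈ X1, f' (f x) = x) (h4 : ∀ x ∈ X2, f (f' x) = x) {x : X} (hx : x ∈ X1) :
    bigPerm X1 X2 f f' h1 h2 h3 h4 (Big.c x) = Big.c (f x) := by
  show bigTo X1 X2 f (Big.c x) = Big.c (f x)
  simp [bigTo, hx]

theorem bigPerm_comm (h1 : ∀ x ∈ X1, f x ∈ X2) (h2 : ∀ x ∈ X2, f' x ∈ X1)
    (h3 : ∀ x ∈ X1, f' (f x) = x) (h4 : ∀ x ∈ X2, f (f' x) = x)
    (g : X → X) (hg1 : ∀ x, g x ∈ X1 ↔ x ∈ X1) (hg2 : ∀ x, g x ∈ X2 ↔ x ∈ X2)
    (hg : ∀ x ∈ X1, f (g x) = g (f x)) (x : Big X) :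
    bigPerm X1 X2 f f' h1 h2 h3 h4 (bigMap g x) = bigMap g (bigPerm X1 X2 f f' h1 h2 h3 h4 x) := by
  show bigTo X1 X2 f (bigMap g x) = bigMap g (bigTo X1 X2 f x)
  cases x with
  | c x =>
    by_cases hx : x ∈ X1
    · simp [bigTo, bigMap, hx, hg1, hg x hx]
    · simp [bigTo, bigMap, hx, hg1]
  | u x n =>
    by_cases hx : x ∈ X1
    · simp [bigTo, bigMap, hx, hg1]
    · simp [bigTo, bigMap, hx, hg1]
  | d x n =>
    by_cases hx : x ∈ X2
    · cases n <;> simp [bigTo, bigMap, hx, hg2]
    · cases n <;> simp [bigTo, bigMap, hx, hg2]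

end Ext

end Pool.Agent.RaagDehn
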