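import Pool.Agent.Work.RaagDehn.Dsub

/-!
# The affine representation of the level two group
-/

set_option autoImplicit false

namespace Pool.Agent.RaagDehn

/-- the lattice -/
abbrev N2 : Type := Multiplicative (ℤ × ℤ)

/-- the matrix -/
def Mx : MulAut N2 where
  toFun n := Multiplicative.ofAdd (2 * (Multiplicative.toAdd n).1 + (Multiplicative.toAdd n).2,
    (Multiplicative.toAdd n).1 + (Multiplicative.toAdd n).2)
  invFun n := Multiplicative.ofAdd ((Multiplicative.toAdd n).1 - (Multiplicative.toAdd n).2,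
    2 * (Multiplicative.toAdd n).2 - (Multiplicative.toAdd n).1)
  left_inv n := by
    apply Multiplicative.toAdd.injective
    simp only [toAdd_ofAdd]
    ext <;> simp <;> ring
  right_inv n := by
    apply Multiplicative.toAdd.injective
    simp only [toAdd_ofAdd]
    ext <;> simp <;> ring
  map_mul' m n := by
    apply Multiplicative.toAdd.injective
    simp only [toAdd_ofAdd, toAdd_mul]
    ext <;> simp <;> ring

/-- the affine group -/
abbrev Aff : Type := SemidirectProduct N2 (MulAut N2) (MonoidHom.id _)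

/-- translation vectors -/
def vN (n : ℤ) : ℤ × ℤ := if n = 1 then (1, 0) else if n = 2 then (1, 1) else (0, 0)

/-- the correction exponents -/
def xzW {I : Type} (eps : I → ℤ) (j : I) (s : Bool) (q : ℤ) : ℤ × ℤ :=
  if epq q = 1 then
    Multiplicative.toAdd ((Mx ^ (sg s * eps j)) (Multiplicative.ofAdd (vN q))) - vN (q + epq q)
  else
    vN (q + epq q) - Multiplicative.toAdd ((Mx ^ (sg s * eps j)) (Multiplicative.ofAdd (vN q)))

/-- linear part -/
def affX {I : Type} (eps : I → ℤ) (l : I) : Aff := SemidirectProduct.inr (Mx ^ eps l)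

/-- translation part -/
def affA (n : ℤ) : Aff := SemidirectProduct.inl (Multiplicative.ofAdd (vN n))

theorem aff_hA {I : Type} (eps : I → ℤ) (j : I) (s : Bool) (q : ℤ)
    (_ : q ∈ Finset.Icc (-2 : ℤ) 2) :
    affX eps j ^ sg s * affA q * affX eps j ^ (-sg s) * affA (pq q) ^ (xzW eps j s q).1 *
      affA (pq q + 1) ^ (xzW eps j s q).2 =
    affA (q + epq q) * affA (pq q + epq q) ^ (xzW eps j s q).1 *
      affA (pq q + 1 + epq q) ^ (xzW eps j s q).2 := by
  have h1 : affX eps j ^ sg s * affA q * affX eps j ^ (-sg s) =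
      SemidirectProduct.inl ((Mx ^ (sg s * eps j)) (Multiplicative.ofAdd (vN q))) := by
    have h2 := SemidirectProduct.inl_aut (φ := MonoidHom.id (MulAut N2)) (Mx ^ (sg s * eps j))
      (Multiplicative.ofAdd (vN q))
    rw [MonoidHom.id_apply] at h2
    rw [h2, affX, affA, ← map_zpow, ← map_zpow, ← zpow_mul, ← zpow_mul, ← zpow_neg]
    congr 3
    · ring_nf
    · ring_nf
  rw [h1]
  simp only [affA, ← map_zpow, ← map_mul]
  congr 1
  apply Multiplicative.toAdd.injective
  simp only [toAdd_mul, toAdd_zpow, toAdd_ofAdd]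
  generalize hP : Multiplicative.toAdd ((Mx ^ (sg s * eps j)) (Multiplicative.ofAdd (vN q))) = P
  rcases epq_cases q with h | h
  · have hx : xzW eps j s q = P - vN (q + 1) := by rw [xzW, h, if_pos rfl, hP]
    have hp : pq q = 0 := by rw [pq, h, if_pos rfl]
    rw [hx, hp, h]
    have e0 : vN 0 = (0, 0) := by simp [vN]
    have e1 : vN (0 + 1) = (1, 0) := by simp [vN]
    have e2 : vN (0 + 1 + 1) = (1, 1) := by simp [vN]
    rw [e0, e1, e2]
    ext <;> simp
  · have hx : xzW eps j s q = vN (q + -1) - P := by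
      rw [xzW, h, if_neg (by norm_num), hP]
    have hp : pq q = 1 := by rw [pq, h, if_neg (by norm_num)]
    rw [hx, hp, h]
    have e0 : vN (1 + -1) = (0, 0) := by simp [vN]
    have e1 : vN 1 = (1, 0) := by simp [vN]
    have e2 : vN (1 + 1) = (1, 1) := by simp [vN]
    have e3 : vN (1 + 1 + -1) = (1, 0) := by simp [vN]
    rw [e0, e1, e2, e3]
    ext <;> simp

/-- the affine representation -/
noncomputable def sig {I : Type} (eps : I → ℤ) : G1 (xzW eps) →* Aff :=
  genHom (xzW eps) (affX eps) affA (aff_hA eps)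

/-- the functional on translations -/
def fst2 (a : Aff) : ℤ := (Multiplicative.toAdd a.left).1

theorem sig_D1_right {I : Type} (eps : I → ℤ) {g : G1 (xzW eps)} (hg : g ∈ D1 (xzW eps)) :
    (sig eps g).right = 1 := by
  have h := genHom_D1 (xzW eps) (affX eps) affA (aff_hA eps)
    (K := (SemidirectProduct.rightHom : Aff →* MulAut N2).ker) (by
      intro n _
      rw [MonoidHom.mem_ker]
      rfl) hg
  rw [MonoidHom.mem_ker] at h
  exact h

theorem fst2_mul {a b : Aff} (ha : a.right = 1) : fst2 (a * b) = fst2 a + fst2 b := by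
  simp [fst2, ha]

theorem fst2_vN (n : ℤ) : 0 ≤ fst2 (affA n) ∧ fst2 (affA n) ≤ 1 := by
  simp only [fst2, affA, SemidirectProduct.left_inl, toAdd_ofAdd, vN]
  split_ifs <;> simp

/-- the values of the functional on generators of D -/
theorem fst2_Dset {I : Type} (eps : I → ℤ) {w : FreeGroup (Sym I ⊕ RIdx I)} (hw : w ∈ Dset I) :
    0 ≤ fst2 (sig eps (PresentedGroup.mk (relsG1 (xzW eps)) w)) ∧
    fst2 (sig eps (PresentedGroup.mk (relsG1 (xzW eps)) w)) ≤ 1 := by
  have h1 : fst2 (1 : Aff) = 0 := rfl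
  rcases hw with ⟨x, q, hq, h0, rfl⟩ | ⟨f, l, rfl⟩ | ⟨i, rfl⟩ | ⟨r, rfl⟩
  · rw [mk_wInl]
    show 0 ≤ fst2 (sig eps (el (xzW eps) x q)) ∧ fst2 (sig eps (el (xzW eps) x q)) ≤ 1
    rw [sig, genHom_el _ _ _ _ x hq]
    rcases x with l | ⟨f, l⟩ | i
    · simp only [genFam, h0, if_false, h1]; norm_num
    · simp only [genFam, h0, if_false, h1]; norm_num
    · exact fst2_vN q
  · rw [mk_wInl, _root_.map_mul, _root_.map_inv, _root_.map_mul, _root_.map_inv]
    show 0 ≤ fst2 (sig eps ((el (xzW eps) (LT.c l) 0)⁻¹ * el (xzW eps) (LT.e f l) 0)) ∧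
      fst2 (sig eps ((el (xzW eps) (LT.c l) 0)⁻¹ * el (xzW eps) (LT.e f l) 0)) ≤ 1
    rw [_root_.map_mul, _root_.map_inv, sig, genHom_el _ _ _ _ _ zero_win,
      genHom_el _ _ _ _ _ zero_win]
    simp only [genFam, if_true, inv_mul_cancel, h1]
    norm_num
  · rw [mk_wInl]
    show 0 ≤ fst2 (sig eps (el (xzW eps) (LT.a i) 0)) ∧
      fst2 (sig eps (el (xzW eps) (LT.a i) 0)) ≤ 1
    rw [sig, genHom_el _ _ _ _ _ zero_win]
    exact fst2_vN 0
  · show 0 ≤ fst2 (sig eps (tt (xzW eps) r)) ∧ fst2 (sig eps (tt (xzW eps) r)) ≤ 1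
    rw [sig, genHom_tt, h1]
    norm_num

theorem Mx_growth (n : ℕ) : (2 : ℤ) ^ n ≤
      (Multiplicative.toAdd ((Mx ^ n) (Multiplicative.ofAdd (1, 0)))).1 ∧
    0 ≤ (Multiplicative.toAdd ((Mx ^ n) (Multiplicative.ofAdd (1, 0)))).2 := by
  induction n with
  | zero => simp
  | succ n ih =>
    have h : (Mx ^ (n + 1)) (Multiplicative.ofAdd ((1 : ℤ), (0 : ℤ))) =
        Mx ((Mx ^ n) (Multiplicative.ofAdd (1, 0))) := by
      rw [pow_succ']; rfl
    rw [h]
    generalize (Mx ^ n) (Multiplicative.ofAdd ((1 : ℤ), (0 : ℤ))) = v at *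
    have h2 : Multiplicative.toAdd (Mx v) = (2 * (Multiplicative.toAdd v).1 +
      (Multiplicative.toAdd v).2, (Multiplicative.toAdd v).1 + (Multiplicative.toAdd v).2) := rfl
    rw [h2]
    simp only
    have h3 : (0 : ℤ) ≤ 2 ^ n := by positivity
    constructor
    · rw [pow_succ]; linarith [ih.1, ih.2]
    · linarith [ih.1, ih.2]

/-- the value on a conjugate of a translation -/
theorem sig_conj {I : Type} (eps : I → ℤ) (w : FreeGroup I) :
    fst2 (sig eps (Cw (xzW eps) w * el (xzW eps) (LT.a true) 1 * (Cw (xzW eps) w)⁻¹)) =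
    (Multiplicative.toAdd ((Mx ^ (Multiplicative.toAdd (epsHom eps w)))
      (Multiplicative.ofAdd (1, 0)))).1 := by
  have h1 : (1 : ℤ) ∈ Finset.Icc (-2 : ℤ) 2 := by decide
  have h2 : ∀ w : FreeGroup I, FreeGroup.lift (affX eps) w =
      SemidirectProduct.inr (Mx ^ (Multiplicative.toAdd (epsHom eps w))) := by
    intro w
    have h3 : FreeGroup.lift (affX eps) = (SemidirectProduct.inr : MulAut N2 →* Aff).comp
        ((zpowersHom (MulAut N2) Mx).comp (epsHom eps)) := by
      apply FreeGroup.ext_hom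
      intro l
      simp [affX, epsHom]
    rw [h3]
    rfl
  rw [_root_.map_mul, _root_.map_mul, _root_.map_inv, sig, genHom_Cw, genHom_el _ _ _ _ _ h1, h2]
  have h4 := SemidirectProduct.inl_aut (φ := MonoidHom.id (MulAut N2))
    (Mx ^ (Multiplicative.toAdd (epsHom eps w))) (Multiplicative.ofAdd ((1 : ℤ), (0 : ℤ)))
  rw [MonoidHom.id_apply] at h4
  have h5 : genFam (affX eps) affA (LT.a true) 1 =
      (SemidirectProduct.inl (Multiplicative.ofAdd ((1 : ℤ), (0 : ℤ))) : Aff) := by
    simp [genFam, affA, vN]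
  rw [h5, ← _root_.map_inv, ← h4]
  rfl

end Pool.Agent.RaagDehn
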