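import Pool.Agent.Work.RaagDehn.Base2

/-!
# The free product of a RAAG with a free group, twisting automorphisms
-/

set_option autoImplicit false

namespace Pool.Agent.RaagDehn

section Twist

variable {VA : Type} (X : Type) (adjA : VA → VA → Prop)

/-- adjacency of the free product with a free group on `X` -/
abbrev adjM : VA ⊕ X → VA ⊕ X → Prop := extAdj adjA (fun _ : X => (∅ : Set VA))

/-- the base -/
def mIn : Raag adjA →* Raag (adjM X adjA) := incl adjA (fun _ : X => (∅ : Set VA))

variable {X}

/-- the new letters -/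
def mX (x : X) : Raag (adjM X adjA) := newGen adjA (fun _ : X => (∅ : Set VA)) x

variable {adjA}

/-- twisting hom -/
def twist (g h : X → Raag (adjM X adjA)) : Raag (adjM X adjA) →* Raag (adjM X adjA) :=
  lift (fun v => Sum.elim (fun v => gen (adjM X adjA) (Sum.inl v))
    (fun x => g x * mX adjA x * h x) v) (by
    rintro (a | a) (b | b) hab
    · exact gen_comm (adj := adjM X adjA) hab
    · exact (show False from hab).elim
    · exact (show False from hab).elim
    · exact (show False from hab).elim)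

theorem twist_mIn (g h : X → Raag (adjM X adjA)) (a : Raag adjA) :
    twist g h (mIn X adjA a) = mIn X adjA a := by
  have : (twist g h).comp (mIn X adjA) = mIn X adjA := by
    apply hom_ext
    intro v
    rw [MonoidHom.comp_apply, mIn, incl_gen, twist, lift_gen]
    rfl
  exact DFunLike.congr_fun this a

theorem twist_mX (g h : X → Raag (adjM X adjA)) (x : X) :
    twist g h (mX adjA x) = g x * mX adjA x * h x := lift_gen _ _ _

/-- the fixed subgroup -/
def fixN (Z : Set X) (adjA : VA → VA → Prop) : Subgroup (Raag (adjM X adjA)) :=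
  Subgroup.closure (Set.range (mIn X adjA) ∪ (mX adjA) '' Z)

theorem twist_fix {g h : X → Raag (adjM X adjA)} {Z : Set X}
    (hZ : ∀ x ∈ Z, g x = 1 ∧ h x = 1) {n : Raag (adjM X adjA)} (hn : n ∈ fixN Z adjA) :
    twist g h n = n := by
  have h1 : fixN Z adjA ≤ (twist g h).eqLocus (MonoidHom.id _) := by
    rw [fixN, Subgroup.closure_le]
    rintro _ (⟨a, rfl⟩ | ⟨x, hx, rfl⟩)
    · exact twist_mIn g h a
    · show twist g h (mX adjA x) = mX adjA x
      rw [twist_mX, (hZ x hx).1, (hZ x hx).2, one_mul, mul_one]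
  exact h1 hn

theorem twist_twist {g h : X → Raag (adjM X adjA)} {Z : Set X}
    (hZ : ∀ x ∈ Z, g x = 1 ∧ h x = 1) (hg : ∀ x, g x ∈ fixN Z adjA) (hh : ∀ x, h x ∈ fixN Z adjA)
    (m : Raag (adjM X adjA)) :
    twist (fun x => (g x)⁻¹) (fun x => (h x)⁻¹) (twist g h m) = m := by
  have hZ' : ∀ x ∈ Z, (g x)⁻¹ = 1 ∧ (h x)⁻¹ = 1 := fun x hx => by
    rw [(hZ x hx).1, (hZ x hx).2]; simp
  have : (twist (fun x => (g x)⁻¹) (fun x => (h x)⁻¹)).comp (twist g h) = MonoidHom.id _ := by
    apply hom_ext
    rintro (v | x)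
    · have h1 : gen (adjM X adjA) (Sum.inl v) = mIn X adjA (gen adjA v) := (incl_gen v).symm
      rw [MonoidHom.comp_apply, h1, twist_mIn, twist_mIn]
      rfl
    · have h1 : gen (adjM X adjA) (Sum.inr x) = mX adjA x := rfl
      rw [MonoidHom.comp_apply, h1, twist_mX, map_mul, map_mul, twist_mX,
        twist_fix hZ' (hg x), twist_fix hZ' (hh x)]
      show _ = mX adjA x
      group
  exact DFunLike.congr_fun this m

/-! ### data indexed by a type of letters -/

variable {O : Type} (sx : O → X) (gO hO : O → Raag (adjM X adjA))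

/-- extension by one -/
noncomputable def exO : X → Raag (adjM X adjA) := Function.extend sx gO (fun _ => 1)

variable {sx gO hO}

theorem exO_apply (hs : Function.Injective sx) (o : O) : exO sx gO (sx o) = gO o :=
  hs.extend_apply gO _ o

theorem exO_apply' {x : X} (hx : x ∉ Set.range sx) : exO sx gO x = 1 :=
  Function.extend_apply' gO _ x (fun ⟨o, ho⟩ => hx ⟨o, ho⟩)

theorem exO_mem {N : Subgroup (Raag (adjM X adjA))} (hs : Function.Injective sx)
    (h : ∀ o, gO o ∈ N) (x : X) : exO sx gO x ∈ N := by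
  by_cases hx : x ∈ Set.range sx
  · obtain ⟨o, rfl⟩ := hx
    rw [exO_apply hs]
    exact h o
  · rw [exO_apply' hx]
    exact one_mem _

variable (sx gO hO) in
/-- the twisting automorphism -/
noncomputable def tw : Raag (adjM X adjA) →* Raag (adjM X adjA) :=
  twist (exO sx gO) (exO sx hO)

variable (sx gO hO) in
/-- its inverse -/
noncomputable def tw' : Raag (adjM X adjA) →* Raag (adjM X adjA) :=
  twist (fun x => (exO sx gO x)⁻¹) (fun x => (exO sx hO x)⁻¹)

theorem tw'_tw (hs : Function.Injective sx) (hg : ∀ o, gO o ∈ fixN (Set.range sx)ᶜ adjA)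
    (hh : ∀ o, hO o ∈ fixN (Set.range sx)ᶜ adjA) (m : Raag (adjM X adjA)) :
    tw' sx gO hO (tw sx gO hO m) = m :=
  twist_twist (Z := (Set.range sx)ᶜ) (fun x hx => ⟨exO_apply' hx, exO_apply' hx⟩)
    (exO_mem hs hg) (exO_mem hs hh) m

theorem tw_tw' (hs : Function.Injective sx) (hg : ∀ o, gO o ∈ fixN (Set.range sx)ᶜ adjA)
    (hh : ∀ o, hO o ∈ fixN (Set.range sx)ᶜ adjA) (m : Raag (adjM X adjA)) :
    tw sx gO hO (tw' sx gO hO m) = m := by
  have h := twist_twist (Z := (Set.range sx)ᶜ) (g := fun x => (exO sx gO x)⁻¹)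
    (h := fun x => (exO sx hO x)⁻¹) (fun x hx => by
      rw [exO_apply' hx, exO_apply' hx]; simp)
    (fun x => inv_mem (exO_mem hs hg x)) (fun x => inv_mem (exO_mem hs hh x)) m
  simp only [inv_inv] at h
  exact h

theorem tw_mX (hs : Function.Injective sx) (o : O) :
    tw sx gO hO (mX adjA (sx o)) = gO o * mX adjA (sx o) * hO o := by
  rw [tw, twist_mX, exO_apply hs, exO_apply hs]

end Twist

/-! ### Free subgroups of the free product -/

section FreeSub

variable {VA I : Type} (X : Type) {adjA : VA → VA → Prop} (c : I → Raag adjA)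

/-- the map from the free group -/
def nuF : FreeGroup (I ⊕ X) →* Raag (adjM X adjA) :=
  FreeGroup.lift (fun x => Sum.elim (fun l => mIn X adjA (c l)) (fun x => mX adjA x) x)

theorem nuF_injective (hc : Function.Injective (FreeGroup.lift c)) :
    Function.Injective (nuF X c) := by
  have E : EmbData adjA (fun _ : X => (∅ : Set VA)) (FreeGroup.map Sum.inl) (FreeGroup.lift c)
      (fun x : X => FreeGroup.of (Sum.inr x : I ⊕ X)) (fun _ => 1) (nuF X c) := by
    refine ⟨hc, ?_, ?_, ?_, ?_, ?_⟩
    · rw [eq_top_iff, ← FreeGroup.closure_range_of, Subgroup.closure_le]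
      rintro _ ⟨l | x, rfl⟩
      · exact Subgroup.subset_closure (Or.inl ⟨FreeGroup.of l, FreeGroup.map.of⟩)
      · exact Subgroup.subset_closure (Or.inr ⟨x, rfl⟩)
    · intro r g hg
      have h1 : g = 1 := hc (by rw [mem_parab_empty hg, map_one])
      exact ⟨1, by rw [h1]; simp, by rw [h1]; simp⟩
    · intro r g hg
      rw [inv_one, one_mul, mul_one] at hg
      have h1 : g = 1 := hc (by rw [mem_parab_empty hg, map_one])
      exact ⟨1, by rw [h1]; simp, by rw [h1]; simp⟩
    · intro g
      have h : (nuF X c).comp (FreeGroup.map Sum.inl) = (mIn X adjA).comp (FreeGroup.lift c) := by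
        apply FreeGroup.ext_hom
        intro a
        simp [nuF]
      exact DFunLike.congr_fun h g
    · intro r
      simp [nuF, mX]
  exact embed_injective E

end FreeSub

/-! ### The shift -/

section Shift

variable {A : Type}

/-- the permutation by translation of indices -/
def shiftPerm (A : Type) (n : ℤ) : Equiv.Perm (FreeGroup (A × ℤ)) :=
  (FreeGroup.freeGroupCongr (Equiv.prodCongr (Equiv.refl A) (Equiv.addRight n))).toEquiv

/-- left multiplication -/
def leftPerm (A : Type) : FreeGroup (A × ℤ) →* Equiv.Perm (FreeGroup (A × ℤ)) :=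
  MulAction.toPermHom _ _

theorem leftPerm_apply (w v : FreeGroup (A × ℤ)) : leftPerm A w v = w * v := rfl

theorem shiftPerm_of (n m : ℤ) (a : A) :
    shiftPerm A n (FreeGroup.of (a, m)) = FreeGroup.of (a, m + n) := by
  simp [shiftPerm]

theorem shiftPerm_mul (n : ℤ) (v w : FreeGroup (A × ℤ)) :
    shiftPerm A n (v * w) = shiftPerm A n v * shiftPerm A n w := by
  exact map_mul (FreeGroup.freeGroupCongr (Equiv.prodCongr (Equiv.refl A) (Equiv.addRight n))) v w

theorem shift_left (n m : ℤ) (a : A) :
    shiftPerm A n * leftPerm A (FreeGroup.of (a, m)) =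
      leftPerm A (FreeGroup.of (a, m + n)) * shiftPerm A n := by
  apply Equiv.ext
  intro v
  rw [Equiv.Perm.mul_apply, Equiv.Perm.mul_apply, leftPerm_apply, leftPerm_apply,
    shiftPerm_mul, shiftPerm_of]

theorem shift_conj_pow (k : ℕ) (a : A) : ∀ m : ℤ,
    (shiftPerm A 1) ^ k * leftPerm A (FreeGroup.of (a, m)) * ((shiftPerm A 1) ^ k)⁻¹ =
      leftPerm A (FreeGroup.of (a, m + k)) := by
  induction k with
  | zero => intro m; simp
  | succ k ih =>
    intro m
    have h := shift_left (A := A) 1 m a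
    have h2 : shiftPerm A 1 * leftPerm A (FreeGroup.of (a, m)) * (shiftPerm A 1)⁻¹ =
        leftPerm A (FreeGroup.of (a, m + 1)) := by rw [h]; group
    have h3 := ih (m + 1)
    rw [← h2] at h3
    rw [pow_succ, mul_inv_rev]
    have e : m + 1 + (k : ℤ) = m + ((k + 1 : ℕ) : ℤ) := by push_cast; ring
    rw [e] at h3
    rw [← h3]
    group

theorem shift_conj_zpow (k : ℤ) (a : A) (m : ℤ) :
    (shiftPerm A 1) ^ k * leftPerm A (FreeGroup.of (a, m)) * (shiftPerm A 1) ^ (-k) =
      leftPerm A (FreeGroup.of (a, m + k)) := by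
  obtain ⟨n, rfl | rfl⟩ := Int.eq_nat_or_neg k
  · rw [zpow_neg, zpow_natCast]
    exact shift_conj_pow n a m
  · have h := shift_conj_pow n a (m + -n)
    rw [neg_neg, zpow_neg, zpow_natCast]
    have e : m + -(n : ℤ) + n = m := by ring
    rw [e] at h
    rw [← h]
    group

variable {Y : Type}

theorem shift_injective (lt : A → Y) (y : Y) (hy : ∀ a, lt a ≠ y) (hlt : Function.Injective lt) :
    Function.Injective (FreeGroup.lift (fun p : A × ℤ =>
      FreeGroup.of y ^ p.2 * FreeGroup.of (lt p.1) * FreeGroup.of y ^ (-p.2))) := by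
  classical
  let Om : FreeGroup Y →* Equiv.Perm (FreeGroup (A × ℤ)) :=
    FreeGroup.lift (fun x => if x = y then shiftPerm A 1 else
      Function.extend lt (fun a => leftPerm A (FreeGroup.of (a, 0))) (fun _ => 1) x)
  have h1 : Om (FreeGroup.of y) = shiftPerm A 1 := by
    simp [Om]
  have h2 : ∀ a, Om (FreeGroup.of (lt a)) = leftPerm A (FreeGroup.of (a, 0)) := by
    intro a
    simp only [Om, FreeGroup.lift_apply_of, if_neg (hy a)]
    exact hlt.extend_apply _ _ a
  have h3 : Om.comp (FreeGroup.lift (fun p : A × ℤ =>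
      FreeGroup.of y ^ p.2 * FreeGroup.of (lt p.1) * FreeGroup.of y ^ (-p.2))) = leftPerm A := by
    apply FreeGroup.ext_hom
    rintro ⟨a, n⟩
    rw [MonoidHom.comp_apply, FreeGroup.lift_apply_of, _root_.map_mul, _root_.map_mul,
      map_zpow, map_zpow, h1, h2, shift_conj_zpow, zero_add]
  intro u v huv
  have h4 : leftPerm A u = leftPerm A v := by
    rw [← h3, MonoidHom.comp_apply, MonoidHom.comp_apply, huv]
  have h5 := congrArg (fun p : Equiv.Perm (FreeGroup (A × ℤ)) => p 1) h4
  simpa [leftPerm_apply] using h5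

end Shift

end Pool.Agent.RaagDehn
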